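import Mathlib
import Pool.Agent.Helper278.TrAlg
import Pool.Agent.Helper278.CEStmt
import Pool.Agent.Helper436.AD.Base

/-!
Asymptotic ratio sets of II₁ factors with property Gamma: definitions.
-/

set_option autoImplicit false
set_option linter.unusedSectionVars false

open scoped Topology ComplexOrder
open Filter

namespace Pool.Agent.H289R2.RS

open Pool.Agent.Helper278 Pool.Agent.Helper436.AD

universe u

/-! ### Quantified formulas -/

/-- formulas with quantifiers over the unitaries -/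
inductive QF : ℕ → Type
  | qf {n : ℕ} : Fm (Fin n) → QF n
  | inf {n : ℕ} : QF (n + 1) → QF n
  | sup {n : ℕ} : QF (n + 1) → QF n

/-- evaluation of quantified formulas -/
noncomputable def QF.val {A : Type u} [Ring A] [StarRing A] [Algebra ℂ A] (φ : A → ℂ) :
    {n : ℕ} → QF n → (Fin n → A) → ℝ
  | _, .qf f, x => max 0 (min 1 (f.ev φ x))
  | n, .inf f, x => ⨅ v : unitary A, f.val φ (Fin.snoc (α := fun _ : Fin (n + 1) => A) x (v : A))
  | n, .sup f, x => ⨆ v : unitary A, f.val φ (Fin.snoc (α := fun _ : Fin (n + 1) => A) x (v : A))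

section

variable {A : Type u} [Ring A] [StarRing A] [Algebra ℂ A]

/-! ### The sentence.
The variables are `x 0, x 1` (parameters), `x 2, x 3, x 4` (opponent), `x 5 = w = 2 e - 1`,
`x 6 = t`, `x 7 = y` (opponent), `x 8, x 9`. -/

/-- commutators with the five parameters -/
noncomputable def DD (φ : A → ℂ) (x : Fin 10 → A) (v : A) : ℝ :=
  n2s φ (cmt (x 0) v) + n2s φ (cmt (x 1) v) + n2s φ (cmt (x 2) v) + n2s φ (cmt (x 3) v) +
    n2s φ (cmt (x 4) v)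

/-- the matrix of the sentence with parameter `r` (the weight) and constant `K` -/
noncomputable def FF (r K : ℝ) (φ : A → ℂ) (x : Fin 10 → A) : ℝ :=
  n2s φ (x 5 * x 5 - 1) + DD φ x (x 5) +
  pos (DD φ x (x 8) + DD φ x (x 9) + n2s φ (cmt (x 8) (x 6)) + n2s φ (cmt (x 9) (x 6)) +
    n2s φ ((2 : ℂ) • x 7 - (1 + x 5) * x 8 - (1 - x 5) * x 9) - K * DD φ x (x 7)) +
  pos (‖φ (x 7 * (1 + x 5) * x 6 * (1 - x 5) * star (x 6) -
    ((2 * (1 - r) : ℝ) : ℂ) • (x 7 * (1 + x 5)))‖ ^ 2 - K * DD φ x (x 7)) +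
  pos (‖φ (x 7 * (1 - x 5) * star (x 6) * (1 + x 5) * x 6 -
    ((2 * r : ℝ) : ℂ) • (x 7 * (1 - x 5)))‖ ^ 2 - K * DD φ x (x 7))

/-- the sentence holds -/
def PosS (r K : ℝ) (φ : A → ℂ) : Prop :=
  ∃ f₁ ∈ unitary A, ∃ f₂ ∈ unitary A, ∀ g₁ ∈ unitary A, ∀ g₂ ∈ unitary A, ∀ g₃ ∈ unitary A,
    ∀ δ : ℝ, 0 < δ → ∃ w ∈ unitary A, ∃ t ∈ unitary A, ∀ y ∈ unitary A,
      ∃ y₁ ∈ unitary A, ∃ y₂ ∈ unitary A, FF r K φ ![f₁, f₂, g₁, g₂, g₃, w, t, y, y₁, y₂] ≤ δ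

/-- the sentence fails by a fixed amount -/
def NegS (r K : ℝ) (φ : A → ℂ) : Prop :=
  ∃ ε : ℝ, 0 < ε ∧ ∀ f₁ ∈ unitary A, ∀ f₂ ∈ unitary A, ∃ g₁ ∈ unitary A, ∃ g₂ ∈ unitary A,
    ∃ g₃ ∈ unitary A, ∀ w ∈ unitary A, ∀ t ∈ unitary A, ∃ y ∈ unitary A,
      ∀ y₁ ∈ unitary A, ∀ y₂ ∈ unitary A, ε ≤ FF r K φ ![f₁, f₂, g₁, g₂, g₃, w, t, y, y₁, y₂]

/-! ### Ratio data -/

/-- the element with coefficients `f` on the partition `P` -/
noncomputable def Th {S : Type} [Fintype S] (P : S → A) (f : S → ℂ) : A := ∑ a, f a • P a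

/-- the coefficients of the conditional expectation of `y` on the partition `P` -/
noncomputable def cf {S : Type} (φ : A → ℂ) (P : S → A) (y : A) (a : S) : ℂ :=
  φ (y * P a) / φ (P a)

/-- `e i` or `1 - e i` -/
def bit (e : ℕ → A) (b : Bool) (i : ℕ) : A := if b then e i else 1 - e i

/-- the atoms of the algebra generated by `e n, ..., e (n + k - 1)` -/
def atm (e : ℕ → A) (n : ℕ) : (k : ℕ) → (Fin k → Bool) → A
  | 0, _ => 1
  | k + 1, ω => atm e n k (fun i => ω i.castSucc) * bit e (ω (Fin.last k)) (n + k)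

/-- the weights of the atoms -/
noncomputable def wt (s : ℝ) {k : ℕ} (ω : Fin k → Bool) : ℝ := ∏ i, if ω i then s else 1 - s

/-- the index set of the partition `tri` -/
abbrev Tri (n l : ℕ) : Type := (Fin n → Bool) × Bool × (Fin l → Bool)

/-- the atoms of the algebra generated by `e 0, ..., e (n + l)`, with the bit `n` singled out -/
def tri (e : ℕ → A) (n l : ℕ) (a : Tri n l) : A :=
  atm e 0 n a.1 * bit e a.2.1 n * atm e (n + 1) l a.2.2

variable [StarModule ℂ A]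

/-- the star algebra generated by `e n, e (n + 1), ...` -/
noncomputable def Cn (e : ℕ → A) (n : ℕ) : StarSubalgebra ℂ A := StarAlgebra.adjoin ℂ (e '' Set.Ici n)

/-- Ratio data. -/
structure RD (τ : A →ₗ[ℂ] ℂ) (s : ℝ) (e : ℕ → A) (p q : A) (v t : ℕ → A)
    (B D : ℕ → StarSubalgebra ℂ A) : Prop where
  tr : TrAlg τ
  s_pos : 0 < s
  s_lt : s < 1
  p_un : p ∈ unitary A
  q_un : q ∈ unitary A
  v_un : ∀ n, v n ∈ unitary A
  t_un : ∀ n, t n ∈ unitary A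
  e_star : ∀ i, star (e i) = e i
  e_idem : ∀ i, e i * e i = e i
  e_comm : ∀ i j, e i * e j = e j * e i
  p_e : ∀ i, p * e i = e i * p
  q_e : ∀ i, q * e i = e i * q
  v_zero : v 0 = 1
  v_e : ∀ n i, n ≤ i → v n * e i = e i * v n
  t_e : ∀ n i, i ≠ n → t n * e i = e i * t n
  B_mono : ∀ m n, m ≤ n → B m ≤ B n
  B_e : ∀ n i, i < n → e i ∈ B n
  B_dense : ∀ (x : A) (ε : ℝ), 0 < ε → ∃ n, ∃ b ∈ B n, n2 τ (x - b) < ε
  B_D : ∀ n, B n ≤ D n
  D_e : ∀ n i, i ≠ n → e i ∈ D n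
  D_comm : ∀ n, ∀ x ∈ D n, x * e n = e n * x
  D_indep : ∀ n, ∀ x ∈ D n, τ (x * e n) = s * τ x
  shift₁ : ∀ n, ∀ x ∈ Cn e 0, τ (x * (t n * e n * star (t n))) = s * τ x
  shift₂ : ∀ n, ∀ x ∈ Cn e 0, τ (x * (star (t n) * e n * t n)) = s * τ x
  gap : ∀ (n : ℕ) (x : A) (ε : ℝ), 0 < ε → ∃ z ∈ Cn e n,
    n2 τ (x - z) ≤ 40 * (n2 τ (p * x - x * p) + n2 τ (q * x - x * q)) +
      n2 τ (v n * x - x * v n) + ε

end

end Pool.Agent.H289R2.RS
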