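import Mathlib
import Pool.Agent.H289R2.RS.Defs

set_option autoImplicit false
set_option linter.unusedSectionVars false

open scoped ComplexOrder

namespace Pool.Agent.H289R2.RS

open Pool.Agent.Helper278

/-! TASK ATM: the partitions `atm e n k` (atoms of the algebra generated by
`e n, ..., e (n + k - 1)`) and `tri e n l`. -/

variable {A : Type} [Ring A] [StarRing A] [Algebra ℂ A] [StarModule ℂ A] {τ : A →ₗ[ℂ] ℂ}
  {s : ℝ} {e : ℕ → A} {p q : A} {v t : ℕ → A} {B D : ℕ → StarSubalgebra ℂ A}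

/-! auxiliary lemmas -/

theorem ATM_bit_comm {x : A} {i : ℕ} (hx : x * e i = e i * x) (b : Bool) :
    x * bit e b i = bit e b i * x := by
  unfold bit
  cases b
  · simp only [Bool.false_eq_true, if_false, mul_sub, sub_mul, mul_one, one_mul, hx]
  · simpa using hx

theorem ATM_bit_star (h : RD τ s e p q v t B D) (b : Bool) (i : ℕ) :
    star (bit e b i) = bit e b i := by
  unfold bit
  cases b <;> simp [h.e_star i]

theorem ATM_bit_idem (h : RD τ s e p q v t B D) (b : Bool) (i : ℕ) :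
    bit e b i * bit e b i = bit e b i := by
  unfold bit
  cases b
  · simp only [Bool.false_eq_true, if_false, mul_sub, sub_mul, mul_one, one_mul, h.e_idem i]
    abel
  · simp [h.e_idem i]

theorem ATM_bit_orth (h : RD τ s e p q v t B D) (b b' : Bool) (hb : b ≠ b') (i : ℕ) :
    bit e b i * bit e b' i = 0 := by
  unfold bit
  cases b <;> cases b' <;>
    simp_all [mul_sub, sub_mul, h.e_idem i]

theorem ATM_e_bit (h : RD τ s e p q v t B D) (b : Bool) (i : ℕ) :
    e i * bit e b i = if b then bit e b i else 0 := by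
  unfold bit
  cases b <;> simp [mul_sub, h.e_idem i]

theorem ATM_bit_sum (i : ℕ) : ∑ b : Bool, bit e b i = 1 := by
  rw [Fintype.sum_bool]
  simp [bit]

theorem ATM_bit_mem {M : StarSubalgebra ℂ A} {i : ℕ} (hi : e i ∈ M) (b : Bool) :
    bit e b i ∈ M := by
  unfold bit
  cases b
  · simpa using M.sub_mem M.one_mem hi
  · simpa using hi

theorem ATM_bit_pvm (h : RD τ s e p q v t B D) (i : ℕ) : PVM (fun b => bit e b i) where
  star_eq b := ATM_bit_star h b i
  idem b := ATM_bit_idem h b i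
  orth b b' hb := ATM_bit_orth h b b' hb i
  sum := ATM_bit_sum i

/-- product of commuting partitions -/
theorem ATM_pvm_prod {S T : Type} [Fintype S] [Fintype T] {P : S → A} {Q : T → A} (hP : PVM P)
    (hQ : PVM Q) (hPQ : ∀ a b, P a * Q b = Q b * P a) :
    PVM (fun x : S × T => P x.1 * Q x.2) where
  star_eq x := by
    rw [star_mul, hP.star_eq, hQ.star_eq, hPQ]
  idem x := by
    calc P x.1 * Q x.2 * (P x.1 * Q x.2) = P x.1 * (Q x.2 * P x.1) * Q x.2 := by
          simp only [mul_assoc]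
      _ = (P x.1 * P x.1) * (Q x.2 * Q x.2) := by rw [← hPQ]; simp only [mul_assoc]
      _ = _ := by rw [hP.idem, hQ.idem]
  orth x y hxy := by
    have e1 : P x.1 * Q x.2 * (P y.1 * Q y.2) = (P x.1 * P y.1) * (Q x.2 * Q y.2) := by
      calc P x.1 * Q x.2 * (P y.1 * Q y.2) = P x.1 * (Q x.2 * P y.1) * Q y.2 := by
            simp only [mul_assoc]
        _ = _ := by rw [← hPQ]; simp only [mul_assoc]
    rw [e1]
    by_cases h1 : x.1 = y.1
    · have h2 : x.2 ≠ y.2 := fun h2 => hxy (Prod.ext h1 h2)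
      rw [hQ.orth _ _ h2, mul_zero]
    · rw [hP.orth _ _ h1, zero_mul]
  sum := by
    rw [Fintype.sum_prod_type]
    simp only [← Finset.mul_sum, hQ.sum, mul_one]
    exact hP.sum

theorem ATM_pvm_equiv {S T : Type} [Fintype S] [Fintype T] {P : S → A} (hP : PVM P) (E : T ≃ S) :
    PVM (fun x : T => P (E x)) where
  star_eq x := hP.star_eq _
  idem x := hP.idem _
  orth x y hxy := hP.orth _ _ (fun h => hxy (E.injective h))
  sum := by
    rw [← hP.sum]
    exact Fintype.sum_equiv E _ _ (fun _ => rfl)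

/-- splitting off the last bit -/
def ATM_E (k : ℕ) : (Fin (k + 1) → Bool) ≃ (Fin k → Bool) × Bool where
  toFun ω := (fun i => ω i.castSucc, ω (Fin.last k))
  invFun x := Fin.snoc (α := fun _ => Bool) x.1 x.2
  left_inv ω := by
    funext i
    refine Fin.lastCases ?_ (fun j => ?_) i <;> simp
  right_inv x := by
    ext <;> simp

theorem wt_pos {s : ℝ} (h0 : 0 < s) (h1 : s < 1) {k : ℕ} (ω : Fin k → Bool) : 0 < wt s ω := by
  unfold wt
  refine Finset.prod_pos fun i _ => ?_
  split_ifs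
  · exact h0
  · linarith

/-- an element that commutes with `e i`, `n ≤ i < n + k`, commutes with the atoms -/
theorem atm_comm {x : A} {n k : ℕ} (hx : ∀ i, n ≤ i → i < n + k → x * e i = e i * x)
    (ω : Fin k → Bool) : x * atm e n k ω = atm e n k ω * x := by
  induction k with
  | zero => simp [atm]
  | succ k ih =>
    have h1 := ih (fun i h1 h2 => hx i h1 (by omega)) (fun i => ω i.castSucc)
    have h2 := ATM_bit_comm (hx (n + k) (by omega) (by omega)) (ω (Fin.last k))
    change x * (atm e n k (fun i => ω i.castSucc) * bit e (ω (Fin.last k)) (n + k)) =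
      atm e n k (fun i => ω i.castSucc) * bit e (ω (Fin.last k)) (n + k) * x
    rw [← mul_assoc, h1, mul_assoc, h2, mul_assoc]

theorem atm_pvm (h : RD τ s e p q v t B D) (n k : ℕ) : PVM (atm e n k) := by
  induction k with
  | zero =>
    refine ⟨fun i => by simp [atm], fun i => by simp [atm], fun i j hij => ?_, by simp [atm]⟩
    exact absurd (Subsingleton.elim i j) hij
  | succ k ih =>
    have h1 := ATM_pvm_prod ih (ATM_bit_pvm h (n + k)) (fun a b => by
      refine (atm_comm (fun i _ _ => ?_) a).symm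
      exact (ATM_bit_comm (h.e_comm i (n + k)) b).symm)
    exact ATM_pvm_equiv h1 (ATM_E k)

theorem ATM_atm_mem {M : StarSubalgebra ℂ A} {n k : ℕ} (hM : ∀ i, n ≤ i → i < n + k → e i ∈ M)
    (ω : Fin k → Bool) : atm e n k ω ∈ M := by
  induction k with
  | zero => exact M.one_mem
  | succ k ih =>
    exact M.mul_mem (ih (fun i h1 h2 => hM i h1 (by omega)) _)
      (ATM_bit_mem (hM (n + k) (by omega) (by omega)) _)

theorem atm_mem_B (h : RD τ s e p q v t B D) (n k : ℕ) (ω : Fin k → Bool) :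
    atm e n k ω ∈ B (n + k) := ATM_atm_mem (fun i _ h2 => h.B_e _ _ h2) ω

theorem ATM_e_mem_Cn {n i : ℕ} (hi : n ≤ i) : e i ∈ Cn e n :=
  StarAlgebra.subset_adjoin ℂ _ ⟨i, hi, rfl⟩

theorem atm_mem_Cn (h : RD τ s e p q v t B D) (n k : ℕ) (ω : Fin k → Bool) :
    atm e n k ω ∈ Cn e n := ATM_atm_mem (fun i h1 _ => ATM_e_mem_Cn h1) ω

theorem ATM_tau_bit (h : RD τ s e p q v t B D) (n : ℕ) (x : A) (hx : x ∈ D n) (b : Bool) :
    τ (x * bit e b n) = τ x * (((if b then s else 1 - s : ℝ)) : ℂ) := by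
  unfold bit
  cases b
  · simp only [Bool.false_eq_true, if_false, mul_sub, mul_one, map_sub, h.D_indep n x hx]
    push_cast
    ring
  · simp only [if_true, h.D_indep n x hx]
    ring

/-- independence of `B n` and the atoms of `e n, e (n + 1), ...` -/
theorem tau_atm (h : RD τ s e p q v t B D) (n k : ℕ) (b : A) (hb : b ∈ B n) (ω : Fin k → Bool) :
    τ (b * atm e n k ω) = τ b * ((wt s ω : ℝ) : ℂ) := by
  induction k with
  | zero => simp [atm, wt]
  | succ k ih =>
    have h1 : b * atm e n k (fun i => ω i.castSucc) ∈ D (n + k) :=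
      h.B_D _ ((B (n + k)).mul_mem (h.B_mono _ _ (by omega) hb) (atm_mem_B h n k _))
    change τ (b * (atm e n k (fun i => ω i.castSucc) * bit e (ω (Fin.last k)) (n + k))) = _
    rw [← mul_assoc, ATM_tau_bit h _ _ h1, ih]
    unfold wt
    rw [Fin.prod_univ_castSucc]
    push_cast
    ring

theorem tau_atm_one (h : RD τ s e p q v t B D) (n k : ℕ) (ω : Fin k → Bool) :
    τ (atm e n k ω) = ((wt s ω : ℝ) : ℂ) := by
  have := tau_atm h n k 1 (B n).one_mem ω
  rwa [one_mul, h.tr.one, one_mul] at this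

theorem atm_append (n k l : ℕ) (ω : Fin k → Bool) (ω' : Fin l → Bool) :
    atm e n (k + l) (Fin.append ω ω') = atm e n k ω * atm e (n + k) l ω' := by
  induction l with
  | zero =>
    have e1 : Fin.append ω ω' = ω := by
      funext i
      exact Fin.append_left ω ω' i
    change atm e n k (Fin.append ω ω') = atm e n k ω * 1
    rw [e1, mul_one]
  | succ l ih =>
    have e1 : (fun i : Fin (k + l) => Fin.append ω ω' i.castSucc) =
        Fin.append ω (fun i => ω' i.castSucc) := by
      funext i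
      refine Fin.addCases (fun j => ?_) (fun j => ?_) i
      · rw [Fin.append_left]
        exact Fin.append_left ω ω' j
      · rw [Fin.append_right]
        exact Fin.append_right ω ω' j.castSucc
    have e2 : Fin.append ω ω' (Fin.last (k + l)) = ω' (Fin.last l) :=
      Fin.append_right ω ω' (Fin.last l)
    change atm e n (k + l) (fun i : Fin (k + l) => Fin.append ω ω' i.castSucc) *
      bit e (Fin.append ω ω' (Fin.last (k + l))) (n + (k + l)) =
      atm e n k ω * (atm e (n + k) l (fun i => ω' i.castSucc) *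
        bit e (ω' (Fin.last l)) (n + k + l))
    rw [e1, e2, ih, mul_assoc, add_assoc]

theorem wt_append (s : ℝ) {k l : ℕ} (ω : Fin k → Bool) (ω' : Fin l → Bool) :
    wt s (Fin.append ω ω') = wt s ω * wt s ω' := by
  unfold wt
  rw [Fin.prod_univ_add]
  simp only [Fin.append_left, Fin.append_right]

theorem ATM_Th_mul {S : Type} [Fintype S] {P : S → A} (hP : PVM P) (f g : S → ℂ) :
    Th P f * Th P g = Th P (fun a => f a * g a) := by
  classical
  unfold Th
  rw [Finset.sum_mul]
  refine Finset.sum_congr rfl fun a _ => ?_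
  rw [Finset.mul_sum, Finset.sum_eq_single a]
  · rw [smul_mul_smul_comm, hP.idem]
  · intro b _ hb
    rw [smul_mul_smul_comm, hP.orth _ _ hb.symm, smul_zero]
  · intro ha
    exact absurd (Finset.mem_univ a) ha

theorem ATM_Th_star {S : Type} [Fintype S] {P : S → A} (hP : PVM P) (f : S → ℂ) :
    star (Th P f) = Th P (fun a => star (f a)) := by
  unfold Th
  rw [star_sum]
  refine Finset.sum_congr rfl fun a _ => ?_
  rw [star_smul, hP.star_eq]

theorem ATM_Th_one {S : Type} [Fintype S] {P : S → A} (hP : PVM P) : Th P (fun _ => 1) = 1 := by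
  unfold Th
  simp only [one_smul]
  exact hP.sum

/-- the common induction for the two level theorems -/
theorem ATM_level (n : ℕ) {S : ℕ → Type} [∀ l, Fintype (S l)] (P : ∀ l, S l → A)
    (hP : ∀ l, PVM (P l))
    (he : ∀ i, n ≤ i → ∃ l₀, ∀ l, l₀ ≤ l → ∀ a : S l, e i * P l a = P l a ∨ e i * P l a = 0)
    (z : A) (hz : z ∈ Cn e n) :
    ∃ l₀, ∀ l, l₀ ≤ l → ∃ f : S l → ℂ, z = Th (P l) f := by
  classical
  unfold Cn at hz
  induction hz using StarAlgebra.adjoin_induction with
  | mem x hx =>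
    obtain ⟨i, hi, rfl⟩ := hx
    obtain ⟨l₀, hl₀⟩ := he i hi
    refine ⟨l₀, fun l hl => ⟨fun a => if e i * P l a = P l a then 1 else 0, ?_⟩⟩
    have h1 : e i = e i * Th (P l) (fun _ => 1) := by rw [ATM_Th_one (hP l), mul_one]
    conv_lhs => rw [h1]
    unfold Th
    rw [Finset.mul_sum]
    refine Finset.sum_congr rfl fun a _ => ?_
    simp only [one_smul]
    by_cases h2 : e i * P l a = P l a
    · rw [if_pos h2, h2, one_smul]
    · rw [if_neg h2, (hl₀ l hl a).resolve_left h2, zero_smul]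
  | algebraMap r =>
    refine ⟨0, fun l _ => ⟨fun _ => r, ?_⟩⟩
    have : Th (P l) (fun _ => r) = r • Th (P l) (fun _ => 1) := by
      unfold Th
      rw [Finset.smul_sum]
      simp
    rw [this, ATM_Th_one (hP l), Algebra.algebraMap_eq_smul_one]
  | add x y _ _ hx hy =>
    obtain ⟨l₁, h1⟩ := hx
    obtain ⟨l₂, h2⟩ := hy
    refine ⟨max l₁ l₂, fun l hl => ?_⟩
    obtain ⟨f, hf⟩ := h1 l (le_trans (le_max_left _ _) hl)
    obtain ⟨g, hg⟩ := h2 l (le_trans (le_max_right _ _) hl)
    refine ⟨fun a => f a + g a, ?_⟩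
    rw [hf, hg]
    unfold Th
    simp only [add_smul, Finset.sum_add_distrib]
  | mul x y _ _ hx hy =>
    obtain ⟨l₁, h1⟩ := hx
    obtain ⟨l₂, h2⟩ := hy
    refine ⟨max l₁ l₂, fun l hl => ?_⟩
    obtain ⟨f, hf⟩ := h1 l (le_trans (le_max_left _ _) hl)
    obtain ⟨g, hg⟩ := h2 l (le_trans (le_max_right _ _) hl)
    exact ⟨fun a => f a * g a, by rw [hf, hg, ATM_Th_mul (hP l)]⟩
  | star x _ hx =>
    obtain ⟨l₁, h1⟩ := hx
    refine ⟨l₁, fun l hl => ?_⟩
    obtain ⟨f, hf⟩ := h1 l hl
    exact ⟨fun a => star (f a), by rw [hf, ATM_Th_star (hP l)]⟩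

theorem ATM_e_atm (h : RD τ s e p q v t B D) (n k i : ℕ) (h1 : n ≤ i) (h2 : i < n + k)
    (ω : Fin k → Bool) : e i * atm e n k ω = atm e n k ω ∨ e i * atm e n k ω = 0 := by
  induction k with
  | zero => omega
  | succ k ih =>
    change e i * (atm e n k (fun i => ω i.castSucc) * bit e (ω (Fin.last k)) (n + k)) =
      atm e n k (fun i => ω i.castSucc) * bit e (ω (Fin.last k)) (n + k) ∨
      e i * (atm e n k (fun i => ω i.castSucc) * bit e (ω (Fin.last k)) (n + k)) = 0
    by_cases hi : i < n + k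
    · rw [← mul_assoc]
      rcases ih hi (fun i => ω i.castSucc) with h3 | h3
      · rw [h3]; exact Or.inl rfl
      · rw [h3, zero_mul]; exact Or.inr rfl
    · have hi' : i = n + k := by omega
      subst hi'
      have h3 := atm_comm (e := e) (x := e (n + k)) (n := n) (k := k)
        (fun j _ _ => h.e_comm _ _) (fun i => ω i.castSucc)
      rw [← mul_assoc, h3, mul_assoc, ATM_e_bit h]
      split_ifs
      · exact Or.inl rfl
      · rw [mul_zero]; exact Or.inr rfl

/-- every element of the algebra generated by `e n, e (n + 1), ...` lies on some level -/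
theorem exists_level (h : RD τ s e p q v t B D) (n : ℕ) (z : A) (hz : z ∈ Cn e n) :
    ∃ k₀, ∀ k, k₀ ≤ k → ∃ f : (Fin k → Bool) → ℂ, z = Th (atm e n k) f :=
  ATM_level n (S := fun k => Fin k → Bool) (fun k => atm e n k) (fun k => atm_pvm h n k)
    (fun i hi => ⟨i - n + 1, fun l hl a => ATM_e_atm h n l i hi (by omega) a⟩) z hz

theorem ATM_wt_eq (s : ℝ) {k : ℕ} (ω : Fin k → Bool) :
    ∃ T F : ℕ, T + F = k ∧ wt s ω = s ^ T * (1 - s) ^ F := by
  classical
  refine ⟨(Finset.univ.filter (fun i => ω i = true)).card,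
    (Finset.univ.filter (fun i => ¬ ω i = true)).card, ?_, ?_⟩
  · rw [Finset.card_filter_add_card_filter_not]
    simp
  · unfold wt
    rw [Finset.prod_ite, Finset.prod_const, Finset.prod_const]

/-- two values of a weight: `wt ω' ≤ wt ω` or `wt ω' ≥ wt ω (1 - s) / s`, for `s < 1/2` -/
theorem wt_dich {s : ℝ} (h0 : 0 < s) (h1 : s < 1 / 2) {k : ℕ} (ω ω' : Fin k → Bool) :
    wt s ω' ≤ wt s ω ∨ (1 - s) * wt s ω ≤ s * wt s ω' := by
  obtain ⟨T, F, hk, hw⟩ := ATM_wt_eq s ω
  obtain ⟨T', F', hk', hw'⟩ := ATM_wt_eq s ω'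
  have hs : 0 < 1 - s := by linarith
  rw [hw, hw']
  by_cases hT : T ≤ T'
  · left
    obtain ⟨d, rfl⟩ := Nat.exists_eq_add_of_le hT
    have hF : F = F' + d := by omega
    subst hF
    have h2 : s ^ d ≤ (1 - s) ^ d := pow_le_pow_left₀ h0.le (by linarith) d
    calc s ^ (T + d) * (1 - s) ^ F' = (s ^ T * (1 - s) ^ F') * s ^ d := by ring
      _ ≤ (s ^ T * (1 - s) ^ F') * (1 - s) ^ d :=
          mul_le_mul_of_nonneg_left h2 (by positivity)
      _ = s ^ T * (1 - s) ^ (F' + d) := by ring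
  · right
    push Not at hT
    obtain ⟨d, hd⟩ := Nat.exists_eq_add_of_lt hT
    have hF : F' = F + d + 1 := by omega
    subst hd
    subst hF
    have h2 : s ^ d ≤ (1 - s) ^ d := pow_le_pow_left₀ h0.le (by linarith) d
    calc (1 - s) * (s ^ (T' + d + 1) * (1 - s) ^ F) =
        (s ^ (T' + 1) * (1 - s) ^ (F + 1)) * s ^ d := by ring
      _ ≤ (s ^ (T' + 1) * (1 - s) ^ (F + 1)) * (1 - s) ^ d :=
          mul_le_mul_of_nonneg_left h2 (by positivity)
      _ = s * (s ^ T' * (1 - s) ^ (F + d + 1)) := by ring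

/-! the partition `tri` -/

theorem ATM_atm_comm_atm (h : RD τ s e p q v t B D) (n k m l : ℕ) (ω : Fin k → Bool)
    (ω' : Fin l → Bool) : atm e n k ω * atm e m l ω' = atm e m l ω' * atm e n k ω := by
  refine atm_comm (fun i _ _ => ?_) ω'
  exact (atm_comm (fun j _ _ => h.e_comm _ _) ω).symm

theorem ATM_atm_comm_bit (h : RD τ s e p q v t B D) (n k m : ℕ) (ω : Fin k → Bool)
    (b : Bool) : atm e n k ω * bit e b m = bit e b m * atm e n k ω := by
  refine ATM_bit_comm ?_ b
  exact (atm_comm (fun j _ _ => h.e_comm _ _) ω).symm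

theorem tri_pvm (h : RD τ s e p q v t B D) (n l : ℕ) : PVM (tri e n l) := by
  have h1 := ATM_pvm_prod (ATM_bit_pvm h n) (atm_pvm h (n + 1) l)
    (fun b c => (ATM_atm_comm_bit h _ _ _ c b).symm)
  have h2 := ATM_pvm_prod (atm_pvm h 0 n) h1 (fun a x => by
    change atm e 0 n a * (bit e x.1 n * atm e (n + 1) l x.2) =
      bit e x.1 n * atm e (n + 1) l x.2 * atm e 0 n a
    rw [← mul_assoc, ATM_atm_comm_bit h, mul_assoc, ATM_atm_comm_atm h, mul_assoc])
  have e1 : tri e n l = fun x : (Fin n → Bool) × (Bool × (Fin l → Bool)) =>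
      atm e 0 n x.1 * (bit e x.2.1 n * atm e (n + 1) l x.2.2) := by
    funext x
    exact mul_assoc _ _ _
  rw [e1]
  exact h2

/-- the weights of `tri` -/
noncomputable def wtri (s : ℝ) {n l : ℕ} (a : Tri n l) : ℝ :=
  wt s a.1 * (if a.2.1 then s else 1 - s) * wt s a.2.2

theorem wtri_pos {s : ℝ} (h0 : 0 < s) (h1 : s < 1) {n l : ℕ} (a : Tri n l) : 0 < wtri s a := by
  unfold wtri
  refine mul_pos (mul_pos (wt_pos h0 h1 _) ?_) (wt_pos h0 h1 _)
  split_ifs
  · exact h0
  · linarith

theorem tau_tri (h : RD τ s e p q v t B D) (n l : ℕ) (a : Tri n l) :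
    τ (tri e n l a) = ((wtri s a : ℝ) : ℂ) := by
  have hx : atm e 0 n a.1 ∈ B n := by
    have := atm_mem_B h 0 n a.1
    rwa [zero_add] at this
  have hy : atm e 0 n a.1 * bit e a.2.1 n ∈ B (n + 1) :=
    (B (n + 1)).mul_mem (h.B_mono _ _ (by omega) hx) (ATM_bit_mem (h.B_e _ _ (by omega)) _)
  unfold tri
  rw [tau_atm h (n + 1) l _ hy, ATM_tau_bit h n _ (h.B_D _ hx), tau_atm_one h]
  unfold wtri
  push_cast
  ring

theorem tri_mem_Cn (h : RD τ s e p q v t B D) (n l : ℕ) (a : Tri n l) : tri e n l a ∈ Cn e 0 := by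
  unfold tri
  refine (Cn e 0).mul_mem ((Cn e 0).mul_mem (atm_mem_Cn h 0 n _)
    (ATM_bit_mem (ATM_e_mem_Cn (Nat.zero_le _)) _)) ?_
  exact ATM_atm_mem (fun i _ _ => ATM_e_mem_Cn (Nat.zero_le _)) _

theorem ATM_e_tri_self (h : RD τ s e p q v t B D) (n l : ℕ) (a : Tri n l) :
    e n * tri e n l a = if a.2.1 then tri e n l a else 0 := by
  unfold tri
  have h3 := atm_comm (e := e) (x := e n) (n := 0) (k := n) (fun j _ _ => h.e_comm _ _) a.1
  rw [← mul_assoc, ← mul_assoc, h3, mul_assoc (atm e 0 n a.1), ATM_e_bit h]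
  split_ifs
  · rfl
  · rw [mul_zero, zero_mul]

theorem exists_level_tri (h : RD τ s e p q v t B D) (n : ℕ) (z : A) (hz : z ∈ Cn e 0) :
    ∃ l₀, ∀ l, l₀ ≤ l → ∃ f : Tri n l → ℂ, z = Th (tri e n l) f := by
  refine ATM_level 0 (S := fun l => Tri n l) (fun l => tri e n l) (fun l => tri_pvm h n l)
    (fun i _ => ⟨i - n + 1, fun l hl a => ?_⟩) z hz
  change e i * tri e n l a = tri e n l a ∨ e i * tri e n l a = 0
  rcases lt_trichotomy i n with hi | hi | hi
  · unfold tri
    rw [← mul_assoc, ← mul_assoc]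
    rcases ATM_e_atm h 0 n i (Nat.zero_le _) (by omega) a.1 with h3 | h3
    · rw [h3]; exact Or.inl rfl
    · rw [h3, zero_mul, zero_mul]; exact Or.inr rfl
  · subst hi
    rw [ATM_e_tri_self h]
    split_ifs
    · exact Or.inl rfl
    · exact Or.inr rfl
  · have h4 : e i * (atm e 0 n a.1 * bit e a.2.1 n) = atm e 0 n a.1 * bit e a.2.1 n * e i := by
      have h3 := atm_comm (e := e) (x := e i) (n := 0) (k := n) (fun j _ _ => h.e_comm _ _) a.1
      rw [← mul_assoc, h3, mul_assoc, ATM_bit_comm (h.e_comm i n), mul_assoc]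
    unfold tri
    rw [← mul_assoc, h4, mul_assoc]
    rcases ATM_e_atm h (n + 1) l i (by omega) (by omega) a.2.2 with h3 | h3
    · rw [h3]; exact Or.inl rfl
    · rw [h3, mul_zero]; exact Or.inr rfl

/-- the element with the bit `n` replaced by `b` -/
noncomputable def res (e : ℕ → A) (n l : ℕ) (f : Tri n l → ℂ) (b : Bool) : A :=
  Th (tri e n l) fun a => f (a.1, b, a.2.2)

theorem res_split (h : RD τ s e p q v t B D) (n l : ℕ) (f : Tri n l → ℂ) :
    Th (tri e n l) f = e n * res e n l f true + (1 - e n) * res e n l f false := by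
  unfold res Th
  rw [Finset.mul_sum, Finset.mul_sum, ← Finset.sum_add_distrib]
  refine Finset.sum_congr rfl fun a _ => ?_
  rw [mul_smul_comm, mul_smul_comm, sub_mul, one_mul, ATM_e_tri_self h]
  obtain ⟨a1, b, a2⟩ := a
  cases b <;> simp

theorem ATM_res_eq (n l : ℕ) (f : Tri n l → ℂ) (b : Bool) :
    res e n l f b = ∑ a : Fin n → Bool, ∑ c : Fin l → Bool,
      f (a, b, c) • (atm e 0 n a * atm e (n + 1) l c) := by
  unfold res Th
  rw [Fintype.sum_prod_type]
  refine Finset.sum_congr rfl fun a _ => ?_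
  rw [Fintype.sum_prod_type, Finset.sum_comm]
  refine Finset.sum_congr rfl fun c _ => ?_
  have h1 : ∑ b' : Bool, f (a, b, c) • tri e n l (a, b', c) =
      f (a, b, c) • (atm e 0 n a * (∑ b' : Bool, bit e b' n) * atm e (n + 1) l c) := by
    unfold tri
    rw [Finset.mul_sum, Finset.sum_mul, Finset.smul_sum]
  rw [ATM_bit_sum, mul_one] at h1
  exact h1

/-- `res` does not involve `e n` -/
theorem res_comm (h : RD τ s e p q v t B D) (n l : ℕ) (f : Tri n l → ℂ) (b : Bool) (x : A)
    (hx : ∀ i, i ≠ n → x * e i = e i * x) : x * res e n l f b = res e n l f b * x := by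
  rw [ATM_res_eq, Finset.mul_sum, Finset.sum_mul]
  refine Finset.sum_congr rfl fun a _ => ?_
  rw [Finset.mul_sum, Finset.sum_mul]
  refine Finset.sum_congr rfl fun c _ => ?_
  have h1 : x * atm e 0 n a = atm e 0 n a * x := atm_comm (fun i _ h2 => hx i (by omega)) a
  have h2 : x * atm e (n + 1) l c = atm e (n + 1) l c * x :=
    atm_comm (fun i h2 _ => hx i (by omega)) c
  rw [mul_smul_comm, smul_mul_assoc, ← mul_assoc, h1, mul_assoc, h2, mul_assoc]

theorem res_mem_D (h : RD τ s e p q v t B D) (n l : ℕ) (f : Tri n l → ℂ) (b : Bool) :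
    res e n l f b ∈ D n := by
  rw [ATM_res_eq]
  refine (D n).sum_mem fun a _ => (D n).sum_mem fun c _ => (D n).smul_mem ?_ _
  refine (D n).mul_mem (ATM_atm_mem (fun i _ h2 => h.D_e n i (by omega)) a)
    (ATM_atm_mem (fun i h2 _ => h.D_e n i (by omega)) c)

end Pool.Agent.H289R2.RS
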