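import Mathlib

set_option autoImplicit false
set_option linter.unusedSectionVars false

namespace Pool.Agent.H289R2.RS

/-- the sign of a boolean -/
def COMB_s (t : Bool) : ℝ := if t then 1 else -1

lemma COMB_s_cases (t : Bool) : COMB_s t = 1 ∨ COMB_s t = -1 := by
  cases t <;> simp [COMB_s]

lemma COMB_s_not (t : Bool) : COMB_s (!t) = - COMB_s t := by
  cases t <;> simp [COMB_s]

lemma COMB_s_sq (t : Bool) : COMB_s t * COMB_s t = 1 := by
  cases t <;> simp [COMB_s]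

/-- The flip of one coordinate. -/
def COMB_flip {S : Type} [DecidableEq S] (a : S) : (S → Bool) ≃ (S → Bool) where
  toFun w := Function.update w a (!w a)
  invFun w := Function.update w a (!w a)
  left_inv w := by
    simp
  right_inv w := by
    simp

lemma COMB_orth {S : Type} [Fintype S] [DecidableEq S] (a a' : S) (h : a ≠ a') :
    ∑ w : S → Bool, COMB_s (w a) * COMB_s (w a') = 0 := by
  have h1 : ∑ w : S → Bool, COMB_s (w a) * COMB_s (w a')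
      = ∑ w : S → Bool, COMB_s (COMB_flip a w a) * COMB_s (COMB_flip a w a') :=
    ((COMB_flip a).sum_comp (fun w : S → Bool => COMB_s (w a) * COMB_s (w a'))).symm
  have h2 : ∑ w : S → Bool, COMB_s (COMB_flip a w a) * COMB_s (COMB_flip a w a')
      = - ∑ w : S → Bool, COMB_s (w a) * COMB_s (w a') := by
    rw [← Finset.sum_neg_distrib]
    refine Finset.sum_congr rfl fun w _ => ?_
    have e1 : COMB_flip a w a = !w a := by simp [COMB_flip]
    have e2 : COMB_flip a w a' = w a' := by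
      simp [COMB_flip, Function.update_of_ne (Ne.symm h)]
    rw [e1, e2, COMB_s_not]
    ring
  linarith

/-- `|z - x|² + |z - y|² ≥ 1 - x y` for signs. -/
lemma COMB_par (z : ℂ) (x y : ℝ) (hx : x * x = 1) (hy : y * y = 1) :
    1 - x * y ≤ ‖z - (x : ℂ)‖ ^ 2 + ‖z - (y : ℂ)‖ ^ 2 := by
  have h1 : ∀ t : ℝ, ‖z - (t : ℂ)‖ ^ 2 = (z.re - t) ^ 2 + z.im ^ 2 := by
    intro t
    rw [← Complex.normSq_eq_norm_sq, Complex.normSq_apply]
    simp
    ring
  rw [h1, h1]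
  nlinarith [sq_nonneg (2 * z.re - x - y), sq_nonneg z.im]

lemma COMB_avg {S : Type} [Fintype S] [DecidableEq S] (a a' : S) (h : a ≠ a')
    (ζ : (S → Bool) → ℂ) :
    (Fintype.card (S → Bool) : ℝ)
      ≤ ∑ w : S → Bool, ‖ζ w - ((COMB_s (w a) : ℝ) : ℂ)‖ ^ 2
        + ∑ w : S → Bool, ‖ζ w - ((COMB_s (w a') : ℝ) : ℂ)‖ ^ 2 := by
  rw [← Finset.sum_add_distrib]
  have h1 : ∑ w : S → Bool, (1 - COMB_s (w a) * COMB_s (w a'))
      = (Fintype.card (S → Bool) : ℝ) := by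
    rw [Finset.sum_sub_distrib, COMB_orth a a' h]
    simp
  rw [← h1]
  exact Finset.sum_le_sum fun w _ => COMB_par _ _ _ (COMB_s_sq _) (COMB_s_sq _)

/-- One side of the argument. -/
lemma COMB_side {S : Type} [Fintype S] [DecidableEq S] (μ : S → ℝ) (E : Finset S)
    (c : S → S → ℝ) (ε : ℝ) (hc : ∀ a b, 0 ≤ c a b)
    (hca : ∀ a, ∑ b, c a b ≤ μ a)
    (A : ∀ u : S → ℝ, (∀ a, u a = 1 ∨ u a = -1) → ∃ z : S → ℂ,
      ∑ a ∈ E, μ a * ‖z a - (u a : ℂ)‖ ^ 2 ≤ ε ∧ ∑ a, ∑ b, c a b * ‖z a - z b‖ ^ 2 ≤ ε) :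
    ∃ P : S → S → Prop, (∀ b a a', P a b → P a' b → a = a') ∧
      ∀ (_ : ∀ a b, Decidable (P a b)),
        ∑ a ∈ E, ∑ b ∈ Eᶜ, (if P a b then 0 else c a b) ≤ 8 * ε := by
  classical
  choose z hz1 hz2 using fun w : S → Bool => A (fun a => COMB_s (w a)) (fun a => COMB_s_cases _)
  set N : ℝ := (Fintype.card (S → Bool) : ℝ) with hN
  have hN0 : 0 < N := by
    rw [hN]
    exact_mod_cast Fintype.card_pos
  set m : S → S → ℝ := fun a b => ∑ w : S → Bool, ‖z w b - ((COMB_s (w a) : ℝ) : ℂ)‖ ^ 2 with hm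
  have hm0 : ∀ a b, 0 ≤ m a b := fun a b => Finset.sum_nonneg fun w _ => by positivity
  -- the estimate for each pattern
  have key : ∀ w : S → Bool,
      ∑ a ∈ E, ∑ b ∈ Eᶜ, c a b * ‖z w b - ((COMB_s (w a) : ℝ) : ℂ)‖ ^ 2 ≤ 4 * ε := by
    intro w
    have e1 : ∀ a ∈ E, ∀ b ∈ Eᶜ, c a b * ‖z w b - ((COMB_s (w a) : ℝ) : ℂ)‖ ^ 2
        ≤ 2 * (c a b * ‖z w a - z w b‖ ^ 2)
          + 2 * (c a b * ‖z w a - ((COMB_s (w a) : ℝ) : ℂ)‖ ^ 2) := by
      intro a _ b _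
      have h1 : ‖z w b - ((COMB_s (w a) : ℝ) : ℂ)‖
          ≤ ‖z w a - z w b‖ + ‖z w a - ((COMB_s (w a) : ℝ) : ℂ)‖ := by
        have : z w b - ((COMB_s (w a) : ℝ) : ℂ)
            = -(z w a - z w b) + (z w a - ((COMB_s (w a) : ℝ) : ℂ)) := by ring
        rw [this]
        refine (norm_add_le _ _).trans ?_
        rw [norm_neg]
      have h2 : ‖z w b - ((COMB_s (w a) : ℝ) : ℂ)‖ ^ 2
          ≤ 2 * ‖z w a - z w b‖ ^ 2 + 2 * ‖z w a - ((COMB_s (w a) : ℝ) : ℂ)‖ ^ 2 := by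
        have h3 := norm_nonneg (z w b - ((COMB_s (w a) : ℝ) : ℂ))
        have h4 := norm_nonneg (z w a - z w b)
        have h5 := norm_nonneg (z w a - ((COMB_s (w a) : ℝ) : ℂ))
        nlinarith [sq_nonneg (‖z w a - z w b‖ - ‖z w a - ((COMB_s (w a) : ℝ) : ℂ)‖)]
      have h6 := mul_le_mul_of_nonneg_left h2 (hc a b)
      linarith
    have e2 : ∑ a ∈ E, ∑ b ∈ Eᶜ, c a b * ‖z w b - ((COMB_s (w a) : ℝ) : ℂ)‖ ^ 2
        ≤ 2 * (∑ a ∈ E, ∑ b ∈ Eᶜ, c a b * ‖z w a - z w b‖ ^ 2)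
          + 2 * (∑ a ∈ E, ∑ b ∈ Eᶜ, c a b * ‖z w a - ((COMB_s (w a) : ℝ) : ℂ)‖ ^ 2) := by
      rw [Finset.mul_sum, Finset.mul_sum, ← Finset.sum_add_distrib]
      refine Finset.sum_le_sum fun a ha => ?_
      rw [Finset.mul_sum, Finset.mul_sum, ← Finset.sum_add_distrib]
      exact Finset.sum_le_sum fun b hb => e1 a ha b hb
    have e3 : ∑ a ∈ E, ∑ b ∈ Eᶜ, c a b * ‖z w a - z w b‖ ^ 2 ≤ ε := by
      have f0 : ∀ a b, 0 ≤ c a b * ‖z w a - z w b‖ ^ 2 := fun a b =>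
        mul_nonneg (hc a b) (by positivity)
      have f1 : ∑ a ∈ E, ∑ b ∈ Eᶜ, c a b * ‖z w a - z w b‖ ^ 2
          ≤ ∑ a ∈ E, ∑ b, c a b * ‖z w a - z w b‖ ^ 2 :=
        Finset.sum_le_sum fun a _ =>
          Finset.sum_le_sum_of_subset_of_nonneg (Finset.subset_univ _) fun b _ _ => f0 a b
      have f2 : ∑ a ∈ E, ∑ b, c a b * ‖z w a - z w b‖ ^ 2
          ≤ ∑ a, ∑ b, c a b * ‖z w a - z w b‖ ^ 2 :=
        Finset.sum_le_sum_of_subset_of_nonneg (Finset.subset_univ _)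
          fun a _ _ => Finset.sum_nonneg fun b _ => f0 a b
      exact (f1.trans f2).trans (hz2 w)
    have e4 : ∑ a ∈ E, ∑ b ∈ Eᶜ, c a b * ‖z w a - ((COMB_s (w a) : ℝ) : ℂ)‖ ^ 2 ≤ ε := by
      refine le_trans (Finset.sum_le_sum fun a _ => ?_) (hz1 w)
      rw [← Finset.sum_mul]
      refine mul_le_mul_of_nonneg_right ?_ (by positivity)
      exact (Finset.sum_le_sum_of_subset_of_nonneg (Finset.subset_univ _)
          fun b _ _ => hc a b).trans (hca a)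
    linarith
  have key2 : ∑ a ∈ E, ∑ b ∈ Eᶜ, c a b * m a b ≤ N * (4 * ε) := by
    have h1 : ∑ a ∈ E, ∑ b ∈ Eᶜ, c a b * m a b
        = ∑ w : S → Bool, ∑ a ∈ E, ∑ b ∈ Eᶜ,
            c a b * ‖z w b - ((COMB_s (w a) : ℝ) : ℂ)‖ ^ 2 := by
      symm
      rw [Finset.sum_comm]
      refine Finset.sum_congr rfl fun a _ => ?_
      rw [Finset.sum_comm]
      refine Finset.sum_congr rfl fun b _ => ?_
      rw [hm, Finset.mul_sum]
    rw [h1]
    refine (Finset.sum_le_sum fun w _ => key w).trans ?_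
    simp [hN]
  refine ⟨fun a b => m a b < N / 2, ?_, ?_⟩
  · intro b a a' h1 h2
    by_contra hne
    have h3 := COMB_avg a a' hne (fun w => z w b)
    have h4 : N ≤ m a b + m a' b := h3
    have h5 : m a b < N / 2 := h1
    have h6 : m a' b < N / 2 := h2
    linarith
  · intro inst
    have h1 : (N / 2) * ∑ a ∈ E, ∑ b ∈ Eᶜ, (if m a b < N / 2 then 0 else c a b)
        ≤ ∑ a ∈ E, ∑ b ∈ Eᶜ, c a b * m a b := by
      rw [Finset.mul_sum]
      refine Finset.sum_le_sum fun a _ => ?_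
      rw [Finset.mul_sum]
      refine Finset.sum_le_sum fun b _ => ?_
      split_ifs with h
      · rw [mul_zero]
        exact mul_nonneg (hc a b) (hm0 a b)
      · have := mul_le_mul_of_nonneg_left (not_lt.mp h) (hc a b)
        linarith
    have h2 := h1.trans key2
    have h3 : (N / 2) * ∑ a ∈ E, ∑ b ∈ Eᶜ, (if m a b < N / 2 then 0 else c a b)
        ≤ (N / 2) * (8 * ε) := by linarith
    exact le_of_mul_le_mul_left h3 (by positivity)

lemma COMB_row {S : Type} [DecidableEq S] (F : Finset S) (p : S → Prop)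
    [DecidablePred p] (hp : ∀ b b', p b → p b' → b = b') (f : S → ℝ) (hf : ∀ b, 0 ≤ f b) (t : ℝ) :
    ∑ b ∈ F, (if p b then |f b - t| else 0)
      ≤ ∑ b ∈ F, (if p b then 0 else f b) + |∑ b ∈ F, f b - t| := by
  by_cases h : ∃ b ∈ F, p b
  · obtain ⟨b0, hb0, hpb⟩ := h
    have h1 : ∀ b, p b ↔ b = b0 := fun b => ⟨fun h => hp _ _ h hpb, fun h => h ▸ hpb⟩
    have h2 : ∑ b ∈ F, (if p b then |f b - t| else 0) = |f b0 - t| := by
      rw [Finset.sum_eq_single b0]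
      · rw [if_pos hpb]
      · intro b _ hb
        rw [if_neg (fun h => hb ((h1 b).1 h))]
      · intro h
        exact absurd hb0 h
    have h3 : ∑ b ∈ F, (if p b then 0 else f b) = ∑ b ∈ F, f b - f b0 := by
      have h4 : ∀ b ∈ F, (if p b then 0 else f b) = f b - (if b = b0 then f b else 0) := by
        intro b _
        by_cases hb : p b
        · rw [if_pos hb, if_pos ((h1 b).1 hb), sub_self]
        · rw [if_neg hb, if_neg (fun h => hb ((h1 b).2 h)), sub_zero]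
      rw [Finset.sum_congr rfl h4, Finset.sum_sub_distrib, Finset.sum_ite_eq' F b0 f, if_pos hb0]
    have h5 : f b0 ≤ ∑ b ∈ F, f b := Finset.single_le_sum (fun b _ => hf b) hb0
    rw [h2, h3]
    have h6 : f b0 - t = (∑ b ∈ F, f b - t) - (∑ b ∈ F, f b - f b0) := by ring
    rw [h6]
    refine (abs_sub _ _).trans ?_
    rw [abs_of_nonneg (sub_nonneg.2 h5)]
    linarith
  · push Not at h
    have h2 : ∑ b ∈ F, (if p b then |f b - t| else 0) = 0 :=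
      Finset.sum_eq_zero fun b hb => if_neg (h b hb)
    rw [h2]
    refine add_nonneg (Finset.sum_nonneg fun b _ => ?_) (abs_nonneg _)
    split_ifs
    · exact le_rfl
    · exact hf b

/-- TASK COMB: a coupling that looks like a matching, with marginals `(1 - r) μ` on `E` and `r μ`
off `E`, does not exist if `(1 - r) μ a` and `r μ b` are never close. -/
theorem comb {S : Type} [Fintype S] [DecidableEq S] (μ : S → ℝ) (E : Finset S) (c : S → S → ℝ)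
    (r κ ε : ℝ) (hr : 0 < r) (hr1 : r < 1) (hκ : 0 < κ) (hκ1 : κ ≤ 1) (hε : 0 ≤ ε)
    (hμ : ∀ a, 0 ≤ μ a) (hμ1 : ∑ a, μ a = 1) (hc : ∀ a b, 0 ≤ c a b)
    (hca : ∀ a, ∑ b, c a b ≤ μ a) (hcb : ∀ b, ∑ a, c a b ≤ μ b)
    (hgap : ∀ a b, κ * μ a ≤ |(1 - r) * μ a - r * μ b|)
    (M1 : ∑ a ∈ E, |∑ b ∈ Eᶜ, c a b - (1 - r) * μ a| ≤ ε)
    (M2 : ∑ b ∈ Eᶜ, |∑ a ∈ E, c a b - r * μ b| ≤ ε)
    (A1 : ∀ u : S → ℝ, (∀ a, u a = 1 ∨ u a = -1) → ∃ z : S → ℂ,
      ∑ a ∈ E, μ a * ‖z a - (u a : ℂ)‖ ^ 2 ≤ ε ∧ ∑ a, ∑ b, c a b * ‖z a - z b‖ ^ 2 ≤ ε)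
    (A2 : ∀ u : S → ℝ, (∀ a, u a = 1 ∨ u a = -1) → ∃ z : S → ℂ,
      ∑ a ∈ Eᶜ, μ a * ‖z a - (u a : ℂ)‖ ^ 2 ≤ ε ∧ ∑ a, ∑ b, c a b * ‖z a - z b‖ ^ 2 ≤ ε) :
    κ * r * (1 - r) ≤ 51 * ε := by
  classical
  obtain ⟨P1, hP1, hS1⟩ := COMB_side μ E c ε hc hca A1
  obtain ⟨P2, hP2, hS2⟩ := COMB_side μ Eᶜ (fun a b => c b a) ε (fun a b => hc b a) hcb (by
    intro u hu
    obtain ⟨z, hz1, hz2⟩ := A2 u hu
    refine ⟨z, hz1, ?_⟩
    rw [Finset.sum_comm]
    refine le_of_eq_of_le ?_ hz2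
    refine Finset.sum_congr rfl fun a _ => Finset.sum_congr rfl fun b _ => ?_
    rw [norm_sub_rev])
  have hS1' := hS1 (fun a b => Classical.dec _)
  have hS2' := hS2 (fun a b => Classical.dec _)
  rw [compl_compl, Finset.sum_comm] at hS2'
  -- the matching
  have hrow : ∀ a b b', (P1 a b ∧ P2 b a) → (P1 a b' ∧ P2 b' a) → b = b' :=
    fun a b b' h h' => hP2 a b b' h.2 h'.2
  have hcol : ∀ b a a', (P1 a b ∧ P2 b a) → (P1 a' b ∧ P2 b a') → a = a' :=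
    fun b a a' h h' => hP1 b a a' h.1 h'.1
  have hout : ∑ a ∈ E, ∑ b ∈ Eᶜ, (if P1 a b ∧ P2 b a then 0 else c a b) ≤ 16 * ε := by
    have h1 : ∑ a ∈ E, ∑ b ∈ Eᶜ, (if P1 a b ∧ P2 b a then 0 else c a b)
        ≤ ∑ a ∈ E, ∑ b ∈ Eᶜ, (if P1 a b then 0 else c a b)
          + ∑ a ∈ E, ∑ b ∈ Eᶜ, (if P2 b a then 0 else c a b) := by
      rw [← Finset.sum_add_distrib]
      refine Finset.sum_le_sum fun a _ => ?_
      rw [← Finset.sum_add_distrib]
      refine Finset.sum_le_sum fun b _ => ?_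
      have := hc a b
      by_cases h1 : P1 a b <;> by_cases h2 : P2 b a <;> simp [h1, h2, this]
    have h2 : ∑ a ∈ E, ∑ b ∈ Eᶜ, (if P1 a b then 0 else c a b) ≤ 8 * ε := by
      convert hS1' using 6
    have h3 : ∑ a ∈ E, ∑ b ∈ Eᶜ, (if P2 b a then 0 else c a b) ≤ 8 * ε := by
      convert hS2' using 6
    linarith
  -- rows
  have hR : ∑ a ∈ E, ∑ b ∈ Eᶜ, (if P1 a b ∧ P2 b a then |c a b - (1 - r) * μ a| else 0)
      ≤ 17 * ε := by
    have h1 : ∀ a ∈ E, ∑ b ∈ Eᶜ, (if P1 a b ∧ P2 b a then |c a b - (1 - r) * μ a| else 0)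
        ≤ ∑ b ∈ Eᶜ, (if P1 a b ∧ P2 b a then 0 else c a b)
          + |∑ b ∈ Eᶜ, c a b - (1 - r) * μ a| := fun a _ =>
      COMB_row Eᶜ (fun b => P1 a b ∧ P2 b a) (hrow a) (c a) (hc a) ((1 - r) * μ a)
    have h2 := Finset.sum_le_sum h1
    rw [Finset.sum_add_distrib] at h2
    linarith
  have hC : ∑ a ∈ E, ∑ b ∈ Eᶜ, (if P1 a b ∧ P2 b a then |c a b - r * μ b| else 0)
      ≤ 17 * ε := by
    have h1 : ∀ b ∈ Eᶜ, ∑ a ∈ E, (if P1 a b ∧ P2 b a then |c a b - r * μ b| else 0)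
        ≤ ∑ a ∈ E, (if P1 a b ∧ P2 b a then 0 else c a b)
          + |∑ a ∈ E, c a b - r * μ b| := fun b _ =>
      COMB_row E (fun a => P1 a b ∧ P2 b a) (hcol b) (fun a => c a b) (fun a => hc a b) (r * μ b)
    have h2 := Finset.sum_le_sum h1
    rw [Finset.sum_add_distrib, Finset.sum_comm,
      Finset.sum_comm (f := fun b a => (if P1 a b ∧ P2 b a then 0 else c a b))] at h2
    linarith
  have hcm : ∀ a b, c a b ≤ μ a := fun a b =>
    (Finset.single_le_sum (fun b _ => hc a b) (Finset.mem_univ b)).trans (hca a)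
  -- the mass of the matching is small
  have hmass : κ * ∑ a ∈ E, ∑ b ∈ Eᶜ, (if P1 a b ∧ P2 b a then c a b else 0) ≤ 34 * ε := by
    have h1 : κ * ∑ a ∈ E, ∑ b ∈ Eᶜ, (if P1 a b ∧ P2 b a then c a b else 0)
        ≤ ∑ a ∈ E, ∑ b ∈ Eᶜ, (if P1 a b ∧ P2 b a then |c a b - (1 - r) * μ a| else 0)
          + ∑ a ∈ E, ∑ b ∈ Eᶜ, (if P1 a b ∧ P2 b a then |c a b - r * μ b| else 0) := by
      rw [Finset.mul_sum, ← Finset.sum_add_distrib]
      refine Finset.sum_le_sum fun a _ => ?_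
      rw [Finset.mul_sum, ← Finset.sum_add_distrib]
      refine Finset.sum_le_sum fun b _ => ?_
      split_ifs with h
      · have h2 := hgap a b
        have h3 := mul_le_mul_of_nonneg_left (hcm a b) hκ.le
        have h4 : |(1 - r) * μ a - r * μ b| ≤ |c a b - (1 - r) * μ a| + |c a b - r * μ b| := by
          have h5 : (1 - r) * μ a - r * μ b = (c a b - r * μ b) - (c a b - (1 - r) * μ a) := by
            ring
          rw [h5]
          refine (abs_sub _ _).trans ?_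
          linarith
        linarith
      · simp
    linarith
  -- the total
  have hsplit : ∑ a ∈ E, ∑ b ∈ Eᶜ, c a b
      = ∑ a ∈ E, ∑ b ∈ Eᶜ, (if P1 a b ∧ P2 b a then c a b else 0)
        + ∑ a ∈ E, ∑ b ∈ Eᶜ, (if P1 a b ∧ P2 b a then 0 else c a b) := by
    rw [← Finset.sum_add_distrib]
    refine Finset.sum_congr rfl fun a _ => ?_
    rw [← Finset.sum_add_distrib]
    refine Finset.sum_congr rfl fun b _ => ?_
    split_ifs <;> simp
  have hT1 : (1 - r) * ∑ a ∈ E, μ a - ε ≤ ∑ a ∈ E, ∑ b ∈ Eᶜ, c a b := by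
    have h1 : ∑ a ∈ E, ((1 - r) * μ a - ∑ b ∈ Eᶜ, c a b) ≤ ε := by
      refine le_trans (Finset.sum_le_sum fun a _ => ?_) M1
      rw [abs_sub_comm]
      exact le_abs_self _
    rw [Finset.sum_sub_distrib, ← Finset.mul_sum] at h1
    linarith
  have hT2 : r * ∑ b ∈ Eᶜ, μ b - ε ≤ ∑ a ∈ E, ∑ b ∈ Eᶜ, c a b := by
    have h1 : ∑ b ∈ Eᶜ, (r * μ b - ∑ a ∈ E, c a b) ≤ ε := by
      refine le_trans (Finset.sum_le_sum fun b _ => ?_) M2
      rw [abs_sub_comm]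
      exact le_abs_self _
    rw [Finset.sum_sub_distrib, ← Finset.mul_sum, Finset.sum_comm] at h1
    linarith
  have hsum : ∑ a ∈ E, μ a + ∑ b ∈ Eᶜ, μ b = 1 := by
    rw [Finset.sum_add_sum_compl, hμ1]
  have hT : r * (1 - r) - ε ≤ ∑ a ∈ E, ∑ b ∈ Eᶜ, c a b := by
    have h1 := mul_le_mul_of_nonneg_left hT1 hr.le
    have h2 := mul_le_mul_of_nonneg_left hT2 (sub_nonneg.2 hr1.le)
    have h3 : ∑ b ∈ Eᶜ, μ b = 1 - ∑ a ∈ E, μ a := by linarith
    rw [h3] at h2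
    nlinarith
  have hfin : r * (1 - r) - 17 * ε
      ≤ ∑ a ∈ E, ∑ b ∈ Eᶜ, (if P1 a b ∧ P2 b a then c a b else 0) := by linarith
  have h1 := mul_le_mul_of_nonneg_left hfin hκ.le
  have h2 : κ * ε ≤ ε := by nlinarith
  nlinarith

end Pool.Agent.H289R2.RS
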