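import Mathlib
import Pool.Agent.Helper278.CEGap
import Pool.Agent.H289R2.RS.Defs

/-!
Bernoulli crossed products `L^∞({0,1}^J, μ_s) ⋊ G` on `ℓ²(Finset J × G)`, and the group action that
is used.
-/

set_option autoImplicit false
set_option linter.unusedSectionVars false

open scoped Topology ComplexOrder Pointwise
open Filter

namespace Pool.Agent.H289R2.RS

open Pool.Agent.Helper278 Pool.Agent.Helper436.AD

/-- The model: `hat x` is the vector of `x` in the orthonormal basis `h_σ u_g`, where `h_σ` is the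
product of the normalised centred functions `h_j = (e_j - s) / √(s (1 - s))`, `j ∈ σ`. -/
structure BM {J G : Type} [DecidableEq J] [Group G] [MulAction G J] {A : Type} [Ring A]
    [StarRing A] [Algebra ℂ A] [StarModule ℂ A] (τ : A →ₗ[ℂ] ℂ) (s : ℝ) (u : G →* A) (e : J → A)
    (hat : A →ₗ[ℂ] EllTwo (Finset J × G)) : Prop where
  tr : TrAlg τ
  s_pos : 0 < s
  s_lt : s < 1
  tau_eq : ∀ x, τ x = hat x (∅, 1)
  n2_eq : ∀ x, n2 τ x = ‖hat x‖
  hat_one : hat 1 (∅, 1) = 1
  hat_one' : ∀ i, i ≠ (∅, 1) → hat 1 i = 0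
  star_u : ∀ g, star (u g) = u g⁻¹
  star_e : ∀ j, star (e j) = e j
  e_idem : ∀ j, e j * e j = e j
  e_comm : ∀ j k, e j * e k = e k * e j
  u_e : ∀ g j, u g * e j = e (g • j) * u g
  hat_u : ∀ g x σ k, hat (u g * x) (σ, k) = hat x (g⁻¹ • σ, g⁻¹ * k)
  hat_xu : ∀ g x σ k, hat (x * u g) (σ, k) = hat x (σ, k * g⁻¹)
  hat_e : ∀ j x σ k, hat (e j * x) (σ, k) =
    if j ∈ σ then ((1 - s : ℝ) : ℂ) * hat x (σ, k) +
      ((Real.sqrt (s * (1 - s)) : ℝ) : ℂ) * hat x (σ.erase j, k)
    else (s : ℂ) * hat x (σ, k) + ((Real.sqrt (s * (1 - s)) : ℝ) : ℂ) * hat x (insert j σ, k)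
  hat_star : ∀ x σ k, hat (star x) (σ, k) = star (hat x (k⁻¹ • σ, k⁻¹))

/-! ### The group -/

abbrev F2 : Type := FreeGroup Bool

/-- the letters: `inl true = p`, `inl false = q`, `inr n = t_n` -/
abbrev XX : Type := Bool ⊕ ℕ

abbrev GG : Type := FreeGroup XX

/-- the coordinates -/
abbrev JJ : Type := ℕ × Option F2

/-- `p` and `q` fix `(i, none)` and translate `(i, some x)` -/
def lpf (b : Bool) (x : Option F2) : Option F2 := x.map fun y => FreeGroup.of b * y

def lp (b : Bool) : Equiv.Perm JJ :=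
  (Equiv.refl ℕ).prodCongr (Equiv.optionCongr (Equiv.mulLeft (FreeGroup.of b)))

/-- `t_n` exchanges `(n, none)` and `(n, some 1)` -/
def lt (n : ℕ) : Equiv.Perm JJ := Equiv.swap (n, none) (n, some 1)

def pm : GG →* Equiv.Perm JJ := FreeGroup.lift (Sum.elim lp lt)

instance actJJ : MulAction GG JJ := MulAction.compHom JJ pm

/-- the generators -/
def gp : GG := FreeGroup.of (Sum.inl true)
def gq : GG := FreeGroup.of (Sum.inl false)
def gt (n : ℕ) : GG := FreeGroup.of (Sum.inr n)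

/-- `v_n = t_0 t_1 ... t_(n-1)` -/
def gv : ℕ → GG
  | 0 => 1
  | n + 1 => gv n * gt n

theorem smul_def' (g : GG) (j : JJ) : g • j = pm g j := rfl

theorem gp_none (i : ℕ) : gp • ((i, none) : JJ) = (i, none) := by
  rw [smul_def', gp, pm, FreeGroup.lift_apply_of]
  rfl

theorem gp_some (i : ℕ) (x : F2) : gp • ((i, some x) : JJ) = (i, some (FreeGroup.of true * x)) := by
  rw [smul_def', gp, pm, FreeGroup.lift_apply_of]
  rfl

theorem gq_none (i : ℕ) : gq • ((i, none) : JJ) = (i, none) := by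
  rw [smul_def', gq, pm, FreeGroup.lift_apply_of]
  rfl

theorem gq_some (i : ℕ) (x : F2) :
    gq • ((i, some x) : JJ) = (i, some (FreeGroup.of false * x)) := by
  rw [smul_def', gq, pm, FreeGroup.lift_apply_of]
  rfl

theorem gt_smul (n : ℕ) (j : JJ) : gt n • j = Equiv.swap ((n, none) : JJ) (n, some 1) j := by
  rw [smul_def', gt, pm, FreeGroup.lift_apply_of]
  rfl

/-- the generators of the algebra `B n` -/
def Bgen {A : Type} [Ring A] (u : GG →* A) (e : JJ → A) (P : ℕ → Prop) : Set A :=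
  {x | (∃ b : Bool, x = u (FreeGroup.of (Sum.inl b))) ∨ (∃ i, P i ∧ x = u (gt i)) ∨
    ∃ i, P i ∧ ∃ y : Option F2, x = e (i, y)}

section

variable {A : Type} [Ring A] [StarRing A] [Algebra ℂ A] [StarModule ℂ A]

/-- the algebras `B n` -/
noncomputable def BB (u : GG →* A) (e : JJ → A) (n : ℕ) : StarSubalgebra ℂ A :=
  StarAlgebra.adjoin ℂ (Bgen u e fun i => i < n)

/-- the algebras `D n` -/
noncomputable def DA (u : GG →* A) (e : JJ → A) (n : ℕ) : StarSubalgebra ℂ A :=
  StarAlgebra.adjoin ℂ (Bgen u e fun i => i ≠ n)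

end

/-- conjugation on the basis -/
def cjI (g : GG) : Finset JJ × GG ≃ Finset JJ × GG where
  toFun i := (g⁻¹ • i.1, g⁻¹ * i.2 * g)
  invFun i := (g • i.1, g * i.2 * g⁻¹)
  left_inv i := by
    apply Prod.ext
    · exact smul_inv_smul g i.1
    · show g * (g⁻¹ * i.2 * g) * g⁻¹ = i.2
      group
  right_inv i := by
    apply Prod.ext
    · exact inv_smul_smul g i.1
    · show g⁻¹ * (g * i.2 * g⁻¹) * g = i.2
      group

/-- the basis elements that commute with `p` and `q` -/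
def IC : Set (Finset JJ × GG) := {i | i.2 = 1 ∧ ∀ j ∈ i.1, j.2 = none}

end Pool.Agent.H289R2.RS
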