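import Mathlib
import Pool.Agent.H289R2.RS.Defs

set_option autoImplicit false
set_option linter.unusedSectionVars false

open scoped ComplexOrder

namespace Pool.Agent.H289R2.RS

open Pool.Agent.Helper278

/-! TASK PVM: calculus of finite partitions `P : S → A` (projection valued measures) in a tracial
star algebra; `Th P f = ∑ a, f a • P a`, `cf τ P y a = τ (y * P a) / τ (P a)`. -/

variable {A : Type} [Ring A] [StarRing A] [Algebra ℂ A] [StarModule ℂ A] {τ : A →ₗ[ℂ] ℂ}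
  {S : Type} [Fintype S] [DecidableEq S] {P : S → A} {μ : S → ℝ}

theorem PVM_P_Th (hP : PVM P) (f : S → ℂ) (a : S) : P a * Th P f = f a • P a := by
  unfold Th
  rw [Finset.mul_sum, Finset.sum_eq_single a]
  · rw [mul_smul_comm, hP.idem]
  · intro b _ hb
    rw [mul_smul_comm, hP.orth a b (Ne.symm hb), smul_zero]
  · simp

theorem PVM_Th_P (hP : PVM P) (f : S → ℂ) (a : S) : Th P f * P a = f a • P a := by
  unfold Th
  rw [Finset.sum_mul, Finset.sum_eq_single a]
  · rw [smul_mul_assoc, hP.idem]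
  · intro b _ hb
    rw [smul_mul_assoc, hP.orth b a hb, smul_zero]
  · simp

theorem Th_one (hP : PVM P) : Th P (fun _ => 1) = 1 := by
  simp [Th, hP.sum]

theorem Th_add (f g : S → ℂ) : Th P (fun a => f a + g a) = Th P f + Th P g := by
  simp [Th, add_smul, Finset.sum_add_distrib]

theorem Th_sub (f g : S → ℂ) : Th P (fun a => f a - g a) = Th P f - Th P g := by
  simp [Th, sub_smul, Finset.sum_sub_distrib]

theorem Th_smul (c : ℂ) (f : S → ℂ) : Th P (fun a => c * f a) = c • Th P f := by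
  simp [Th, mul_smul, Finset.smul_sum]

theorem Th_mul (hP : PVM P) (f g : S → ℂ) : Th P (fun a => f a * g a) = Th P f * Th P g := by
  conv_rhs => rw [Th, Finset.sum_mul]
  conv_lhs => rw [Th]
  refine Finset.sum_congr rfl fun a _ => ?_
  rw [smul_mul_assoc, PVM_P_Th hP, mul_smul]

theorem Th_star (hP : PVM P) (f : S → ℂ) : star (Th P f) = Th P (fun a => star (f a)) := by
  unfold Th
  rw [star_sum]
  refine Finset.sum_congr rfl fun a _ => ?_
  rw [star_smul, hP.star_eq]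

theorem Th_comm (hP : PVM P) (f g : S → ℂ) : Th P f * Th P g = Th P g * Th P f := by
  rw [← Th_mul hP, ← Th_mul hP]
  congr 1
  funext a
  ring

/-- unimodular coefficients give unitaries -/
theorem Th_unitary (hP : PVM P) (f : S → ℂ) (hf : ∀ a, ‖f a‖ = 1) : Th P f ∈ unitary A := by
  have h1 : ∀ a, star (f a) * f a = 1 := by
    intro a
    rw [Complex.star_def, ← Complex.normSq_eq_conj_mul_self, Complex.normSq_eq_norm_sq, hf]
    simp
  rw [Unitary.mem_iff]
  have h2 : star (Th P f) * Th P f = 1 := by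
    rw [Th_star hP, ← Th_mul hP]
    simp only [h1]
    exact Th_one hP
  refine ⟨h2, ?_⟩
  rw [Th_star hP, Th_comm hP, ← Th_star hP, h2]

theorem Th_comm_of (x : A) (hx : ∀ a, x * P a = P a * x) (f : S → ℂ) :
    x * Th P f = Th P f * x := by
  unfold Th
  rw [Finset.mul_sum, Finset.sum_mul]
  refine Finset.sum_congr rfl fun a _ => ?_
  rw [mul_smul_comm, smul_mul_assoc, hx]

theorem tau_Th (hμ : ∀ a, τ (P a) = (μ a : ℂ)) (f : S → ℂ) : τ (Th P f) = ∑ a, (μ a : ℂ) * f a := by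
  unfold Th
  rw [map_sum]
  refine Finset.sum_congr rfl fun a _ => ?_
  rw [map_smul, hμ, smul_eq_mul, mul_comm]

/-- the total mass -/
theorem sum_mu (h : TrAlg τ) (hP : PVM P) (hμ : ∀ a, τ (P a) = (μ a : ℂ)) : ∑ a, μ a = 1 := by
  have h1 := congrArg τ hP.sum
  rw [map_sum, h.one] at h1
  simp only [hμ] at h1
  exact_mod_cast h1

theorem PVM_tr (h : TrAlg τ) (x : A) : τ (star x * x) = ((n2 τ x ^ 2 : ℝ) : ℂ) := by
  apply Complex.ext
  · rw [h.n2_sq, Complex.ofReal_re]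
  · rw [h.im_zero, Complex.ofReal_im]

/-- decomposition of the 2-norm, left -/
theorem PVM_left (h : TrAlg τ) (hP : PVM P) (x : A) : n2 τ x ^ 2 = ∑ a, n2 τ (P a * x) ^ 2 := by
  have h1 : ∀ a, n2 τ (P a * x) ^ 2 = (τ (star x * P a * x)).re := by
    intro a
    rw [h.n2_sq]
    congr 2
    rw [star_mul, hP.star_eq]
    calc star x * P a * (P a * x) = star x * (P a * P a) * x := by noncomm_ring
      _ = star x * P a * x := by rw [hP.idem]
  simp only [h1]
  rw [← Complex.re_sum, ← map_sum, ← Finset.sum_mul, ← Finset.mul_sum, hP.sum, mul_one, h.n2_sq]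

/-- decomposition of the 2-norm, right -/
theorem PVM_right (h : TrAlg τ) (hP : PVM P) (x : A) : n2 τ x ^ 2 = ∑ a, n2 τ (x * P a) ^ 2 := by
  rw [← h.n2_star x, PVM_left h hP]
  refine Finset.sum_congr rfl fun a _ => ?_
  rw [← h.n2_star (x * P a), star_mul, hP.star_eq]

theorem PVM_smul (h : TrAlg τ) (c : ℂ) (x : A) : n2 τ (c • x) ^ 2 = ‖c‖ ^ 2 * n2 τ x ^ 2 := by
  have h1 : τ (star (c • x) * (c • x)) = ((‖c‖ ^ 2 * n2 τ x ^ 2 : ℝ) : ℂ) := by
    rw [star_smul, smul_mul_smul_comm, map_smul, PVM_tr h, smul_eq_mul, Complex.star_def,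
      ← Complex.normSq_eq_conj_mul_self, Complex.normSq_eq_norm_sq]
    push_cast
    ring
  rw [h.n2_sq, h1, Complex.ofReal_re]

theorem PVM_n2_P (h : TrAlg τ) (hP : PVM P) (hμ : ∀ a, τ (P a) = (μ a : ℂ)) (a : S) :
    n2 τ (P a) ^ 2 = μ a := by
  rw [h.n2_sq, hP.star_eq, hP.idem, hμ, Complex.ofReal_re]

theorem PVM_nonneg (h : TrAlg τ) (hP : PVM P) (hμ : ∀ a, τ (P a) = (μ a : ℂ)) (a : S) :
    0 ≤ μ a := by
  rw [← PVM_n2_P h hP hμ a]
  positivity

theorem n2_Th (h : TrAlg τ) (hP : PVM P) (hμ : ∀ a, τ (P a) = (μ a : ℂ)) (f : S → ℂ) :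
    n2 τ (Th P f) ^ 2 = ∑ a, μ a * ‖f a‖ ^ 2 := by
  rw [PVM_left h hP]
  refine Finset.sum_congr rfl fun a _ => ?_
  rw [PVM_P_Th hP, PVM_smul h, PVM_n2_P h hP hμ, mul_comm]

theorem PVM_C_nonneg (h : TrAlg τ) (hP : PVM P) (f : S → ℂ) (C : ℝ) (hf : ∀ a, ‖f a‖ ≤ C) :
    0 ≤ C := by
  rcases isEmpty_or_nonempty S with hS | ⟨⟨a⟩⟩
  · exfalso
    have h1 := hP.sum
    rw [Finset.univ_eq_empty, Finset.sum_empty] at h1
    have h2 := h.one
    rw [← h1, map_zero] at h2
    exact zero_ne_one h2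
  · exact (norm_nonneg _).trans (hf a)

theorem PVM_sq_le {x y : ℝ} (hy : 0 ≤ y) (h : x ^ 2 ≤ y ^ 2) : x ≤ y := by
  nlinarith [sq_nonneg (x - y), sq_nonneg (x + y), abs_le_of_sq_le_sq' h hy]

/-- left and right multiplication by an element with coefficients bounded by `C` -/
theorem n2_Th_mul (h : TrAlg τ) (hP : PVM P) (f : S → ℂ) (C : ℝ) (hf : ∀ a, ‖f a‖ ≤ C) (x : A) :
    n2 τ (Th P f * x) ≤ C * n2 τ x := by
  have hC := PVM_C_nonneg h hP f C hf
  apply PVM_sq_le (mul_nonneg hC (n2_nonneg _ _))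
  rw [PVM_left h hP, mul_pow, PVM_left h hP x, Finset.mul_sum]
  refine Finset.sum_le_sum fun a _ => ?_
  rw [← mul_assoc, PVM_P_Th hP, smul_mul_assoc, PVM_smul h]
  exact mul_le_mul_of_nonneg_right (pow_le_pow_left₀ (norm_nonneg _) (hf a) 2) (sq_nonneg _)

theorem n2_mul_Th (h : TrAlg τ) (hP : PVM P) (f : S → ℂ) (C : ℝ) (hf : ∀ a, ‖f a‖ ≤ C) (x : A) :
    n2 τ (x * Th P f) ≤ C * n2 τ x := by
  rw [← h.n2_star (x * Th P f), star_mul, Th_star hP, ← h.n2_star x]
  exact n2_Th_mul h hP _ C (fun a => by rw [norm_star]; exact hf a) _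

theorem PVM_unit_right (h : TrAlg τ) (hP : PVM P) (hμ : ∀ a, τ (P a) = (μ a : ℂ))
    (y : A) (hy : y ∈ unitary A) (a : S) : n2 τ (y * P a) ^ 2 = μ a := by
  rw [h.n2_sq, star_mul, hP.star_eq]
  have e : P a * star y * (y * P a) = P a := by
    calc P a * star y * (y * P a) = P a * (star y * y) * P a := by noncomm_ring
      _ = P a := by rw [Unitary.star_mul_self_of_mem hy, mul_one, hP.idem]
  rw [e, hμ, Complex.ofReal_re]

theorem PVM_unit_left (h : TrAlg τ) (hP : PVM P) (hμ : ∀ a, τ (P a) = (μ a : ℂ))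
    (y : A) (hy : y ∈ unitary A) (a : S) : n2 τ (P a * y) ^ 2 = μ a := by
  rw [← h.n2_star, star_mul, hP.star_eq]
  exact PVM_unit_right h hP hμ _ (Unitary.star_mem hy) a

/-- the coefficients of a unitary are at most one in absolute value -/
theorem cf_le (h : TrAlg τ) (hP : PVM P) (hμ : ∀ a, τ (P a) = (μ a : ℂ)) (hpos : ∀ a, 0 < μ a)
    (y : A) (hy : y ∈ unitary A) (a : S) : ‖cf τ P y a‖ ≤ 1 := by
  unfold cf
  rw [norm_div, hμ, Complex.norm_real, Real.norm_of_nonneg (hpos a).le, div_le_one (hpos a)]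
  have h1 := h.cauchy' (y * P a) (P a)
  rw [mul_assoc, hP.idem] at h1
  have h2 := PVM_unit_right h hP hμ y hy a
  have h3 := PVM_n2_P h hP hμ a
  have h4 : n2 τ (y * P a) = n2 τ (P a) := by
    have := h2.trans h3.symm
    exact (pow_left_inj₀ (n2_nonneg _ _) (n2_nonneg _ _) two_ne_zero).1 this
  rw [h4, ← sq, h3] at h1
  exact h1

/-- orthogonality -/
theorem PVM_orth (h : TrAlg τ) (hP : PVM P) (hμ : ∀ a, τ (P a) = (μ a : ℂ)) (hpos : ∀ a, 0 < μ a)
    (y : A) (g : S → ℂ) : τ (star (Th P g) * (y - Th P (cf τ P y))) = 0 := by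
  rw [Th_star hP, mul_sub, map_sub, ← Th_mul hP, tau_Th hμ]
  have h1 : τ (Th P (fun a => star (g a)) * y) = ∑ a, star (g a) * τ (y * P a) := by
    unfold Th
    rw [Finset.sum_mul, map_sum]
    refine Finset.sum_congr rfl fun a _ => ?_
    rw [smul_mul_assoc, map_smul, smul_eq_mul, h.comm]
  rw [h1, sub_eq_zero]
  refine Finset.sum_congr rfl fun a _ => ?_
  have h2 : (μ a : ℂ) ≠ 0 := by exact_mod_cast (hpos a).ne'
  unfold cf
  rw [hμ]
  field_simp

/-- Pythagoras -/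
theorem PVM_pyth (h : TrAlg τ) (hP : PVM P) (hμ : ∀ a, τ (P a) = (μ a : ℂ)) (hpos : ∀ a, 0 < μ a)
    (y : A) (f : S → ℂ) : n2 τ (y - Th P f) ^ 2 = n2 τ (y - Th P (cf τ P y)) ^ 2 +
      n2 τ (Th P (fun a => cf τ P y a - f a)) ^ 2 := by
  set z := y - Th P (cf τ P y) with hz
  set w := Th P (fun a => cf τ P y a - f a) with hw
  have e : y - Th P f = z + w := by
    rw [hz, hw, Th_sub]
    abel
  have h1 : τ (star w * z) = 0 := PVM_orth h hP hμ hpos y _
  have h2 : τ (star z * w) = 0 := by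
    have h3 := h.conj (star w * z)
    rw [star_mul, star_star, h1, star_zero] at h3
    exact h3
  rw [e, h.n2_sq, h.n2_sq, h.n2_sq]
  have e2 : star (z + w) * (z + w) = star z * z + star w * w + (star z * w + star w * z) := by
    rw [star_add]
    noncomm_ring
  rw [e2, map_add, map_add, map_add, h1, h2, add_zero, add_zero, Complex.add_re]

/-- the conditional expectation is the best approximation -/
theorem cf_best (h : TrAlg τ) (hP : PVM P) (hμ : ∀ a, τ (P a) = (μ a : ℂ)) (hpos : ∀ a, 0 < μ a)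
    (y : A) (f : S → ℂ) : n2 τ (y - Th P (cf τ P y)) ≤ n2 τ (y - Th P f) := by
  apply PVM_sq_le (n2_nonneg _ _)
  rw [PVM_pyth h hP hμ hpos y f]
  have := sq_nonneg (n2 τ (Th P (fun a => cf τ P y a - f a)))
  linarith

theorem cf_Th (h : TrAlg τ) (hP : PVM P) (hμ : ∀ a, τ (P a) = (μ a : ℂ)) (hpos : ∀ a, 0 < μ a)
    (f : S → ℂ) : cf τ P (Th P f) = f := by
  funext a
  have h2 : (μ a : ℂ) ≠ 0 := by exact_mod_cast (hpos a).ne'
  unfold cf
  rw [PVM_Th_P hP, map_smul, hμ, smul_eq_mul, mul_div_assoc, div_self h2, mul_one]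

/-- the conditional expectation is a contraction in the 2-norm -/
theorem n2_cf_le (h : TrAlg τ) (hP : PVM P) (hμ : ∀ a, τ (P a) = (μ a : ℂ)) (hpos : ∀ a, 0 < μ a)
    (y : A) : n2 τ (Th P (cf τ P y)) ≤ n2 τ y := by
  apply PVM_sq_le (n2_nonneg _ _)
  have h1 := PVM_pyth h hP hμ hpos y (fun _ => 0)
  have h2 : Th P (fun _ => (0 : ℂ)) = 0 := by simp [Th]
  simp only [h2, sub_zero] at h1
  have h3 := sq_nonneg (n2 τ (y - Th P (cf τ P y)))
  have h4 : (fun a => cf τ P y a) = cf τ P y := rfl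
  rw [h4] at h1
  linarith

/-- the conditional expectation is a bimodule map -/
theorem cf_mul (h : TrAlg τ) (hP : PVM P) (hμ : ∀ a, τ (P a) = (μ a : ℂ)) (hpos : ∀ a, 0 < μ a)
    (f : S → ℂ) (y : A) (a : S) : cf τ P (Th P f * y) a = f a * cf τ P y a := by
  unfold cf
  rw [h.comm, ← mul_assoc, PVM_P_Th hP, smul_mul_assoc, map_smul, smul_eq_mul, h.comm (P a) y,
    mul_div_assoc]

/-- rounding the conditional expectation of a unitary to a unitary -/
theorem round_cf (h : TrAlg τ) (hP : PVM P) (hμ : ∀ a, τ (P a) = (μ a : ℂ)) (hpos : ∀ a, 0 < μ a)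
    (y : A) (hy : y ∈ unitary A) : ∃ g : S → ℂ, (∀ a, ‖g a‖ = 1) ∧
      ∀ f : S → ℂ, n2 τ (y - Th P g) ≤ 2 * n2 τ (y - Th P f) := by
  classical
  set f₀ := cf τ P y with hf₀
  set g : S → ℂ := fun a => if f₀ a = 0 then 1 else f₀ a / (‖f₀ a‖ : ℂ) with hg
  have hle : ∀ a, ‖f₀ a‖ ≤ 1 := fun a => cf_le h hP hμ hpos y hy a
  have hg1 : ∀ a, ‖g a‖ = 1 := by
    intro a
    simp only [hg]
    split_ifs with h0
    · simp
    · rw [norm_div, Complex.norm_real, norm_norm, div_self (norm_ne_zero_iff.2 h0)]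
  have hgd : ∀ a, ‖f₀ a - g a‖ = 1 - ‖f₀ a‖ := by
    intro a
    simp only [hg]
    split_ifs with h0
    · rw [h0]; simp
    · have h1 : ‖f₀ a‖ ≠ 0 := norm_ne_zero_iff.2 h0
      have h2 : (‖f₀ a‖ : ℂ) ≠ 0 := by exact_mod_cast h1
      have e : f₀ a - f₀ a / (‖f₀ a‖ : ℂ) = f₀ a * ((‖f₀ a‖ - 1 : ℝ) : ℂ) / (‖f₀ a‖ : ℂ) := by
        push_cast
        field_simp
      rw [e, norm_div, norm_mul, Complex.norm_real, Complex.norm_real, norm_norm, Real.norm_eq_abs,
        abs_of_nonpos (by linarith [hle a])]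
      field_simp
      ring
  refine ⟨g, hg1, fun f => ?_⟩
  have hn1 : n2 τ y ^ 2 = 1 := by
    rw [h.n2_sq, Unitary.star_mul_self_of_mem hy, h.one, Complex.one_re]
  have hp := PVM_pyth h hP hμ hpos y (fun _ => 0)
  have h2 : Th P (fun _ => (0 : ℂ)) = 0 := by simp [Th]
  simp only [h2, sub_zero] at hp
  have h4 : (fun a => cf τ P y a) = f₀ := rfl
  rw [h4, ← hf₀, hn1, n2_Th h hP hμ] at hp
  have hs := sum_mu h hP hμ
  have h5 : n2 τ (Th P f₀ - Th P g) ≤ n2 τ (y - Th P f₀) := by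
    apply PVM_sq_le (n2_nonneg _ _)
    rw [← Th_sub, n2_Th h hP hμ]
    have h6 : n2 τ (y - Th P f₀) ^ 2 = ∑ a, μ a * (1 - ‖f₀ a‖ ^ 2) := by
      simp only [mul_sub, mul_one, Finset.sum_sub_distrib, hs]
      linarith
    rw [h6]
    refine Finset.sum_le_sum fun a _ => ?_
    rw [hgd]
    apply mul_le_mul_of_nonneg_left _ (hpos a).le
    nlinarith [hle a, norm_nonneg (f₀ a)]
  have h7 := h.n2_tri y (Th P f₀) (Th P g)
  have h8 := cf_best h hP hμ hpos y f
  rw [← hf₀] at h8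
  linarith

/-- the weights of the coupling given by `t` -/
theorem coup_eq (h : TrAlg τ) (hP : PVM P) (t : A) (a b : S) :
    τ (P a * t * P b * star t) = ((n2 τ (P a * t * P b) ^ 2 : ℝ) : ℂ) := by
  rw [← PVM_tr h, h.comm (star (P a * t * P b)), star_mul, star_mul, hP.star_eq, hP.star_eq]
  have e : P a * t * P b * (P b * (star t * P a)) = P a * (t * P b * star t * P a) := by
    calc P a * t * P b * (P b * (star t * P a)) = P a * t * (P b * P b) * star t * P a := by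
          noncomm_ring
      _ = P a * (t * P b * star t * P a) := by rw [hP.idem]; noncomm_ring
  rw [e, h.comm (P a), mul_assoc (t * P b * star t), hP.idem, h.comm _ (P a)]
  congr 1
  noncomm_ring

theorem coup_row (h : TrAlg τ) (hP : PVM P) (hμ : ∀ a, τ (P a) = (μ a : ℂ)) (t : A)
    (ht : t ∈ unitary A) (a : S) : ∑ b, n2 τ (P a * t * P b) ^ 2 = μ a := by
  rw [← PVM_right h hP (P a * t), PVM_unit_left h hP hμ t ht a]

theorem coup_col (h : TrAlg τ) (hP : PVM P) (hμ : ∀ a, τ (P a) = (μ a : ℂ)) (t : A)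
    (ht : t ∈ unitary A) (b : S) : ∑ a, n2 τ (P a * t * P b) ^ 2 = μ b := by
  rw [← PVM_unit_right h hP hμ t ht b, PVM_left h hP (t * P b)]
  refine Finset.sum_congr rfl fun a _ => ?_
  rw [mul_assoc]

/-- the energy of a commutator -/
theorem n2_comm_Th (h : TrAlg τ) (hP : PVM P) (f : S → ℂ) (t : A) :
    n2 τ (Th P f * t - t * Th P f) ^ 2 =
      ∑ a, ∑ b, n2 τ (P a * t * P b) ^ 2 * ‖f a - f b‖ ^ 2 := by
  rw [PVM_left h hP]
  refine Finset.sum_congr rfl fun a _ => ?_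
  rw [PVM_right h hP]
  refine Finset.sum_congr rfl fun b _ => ?_
  have e : P a * (Th P f * t - t * Th P f) * P b = (f a - f b) • (P a * t * P b) := by
    calc P a * (Th P f * t - t * Th P f) * P b
        = (P a * Th P f) * t * P b - P a * t * (Th P f * P b) := by noncomm_ring
      _ = (f a - f b) • (P a * t * P b) := by
        rw [PVM_P_Th hP, PVM_Th_P hP, sub_smul, smul_mul_assoc, smul_mul_assoc, mul_smul_comm]
  rw [e, PVM_smul h, mul_comm]

end Pool.Agent.H289R2.RS
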