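import Mathlib
import Pool.Agent.H289R2.RS.PVM
import Pool.Agent.H289R2.RS.ATM

/-! Task FAC (helper439). -/

set_option autoImplicit false
set_option linter.unusedSectionVars false

namespace Pool.Agent.H289R2.RS

open Pool.Agent.Helper278 Pool.Agent.Helper436.AD

variable {A : Type} [Ring A] [StarRing A] [Algebra ℂ A] [StarModule ℂ A] {τ : A →ₗ[ℂ] ℂ}
  {s : ℝ} {e : ℕ → A} {p q : A} {v t : ℕ → A} {B D : ℕ → StarSubalgebra ℂ A}

/-! TASK FAC -/

theorem FAC_n2_mul_un (h : TrAlg τ) (x u : A) (hu : u ∈ unitary A) : n2 τ (x * u) = n2 τ x := by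
  have h1 : u * star u = 1 := (Unitary.mem_iff.1 hu).2
  have h2 : τ (star (x * u) * (x * u)) = τ (star x * x) := by
    rw [star_mul]
    have e1 : star u * star x * (x * u) = star u * (star x * x * u) := by noncomm_ring
    rw [e1, h.comm]
    have e2 : star x * x * u * star u = star x * x * (u * star u) := by noncomm_ring
    rw [e2, h1, mul_one]
  unfold n2
  rw [h2]

theorem FAC_n2_un_mul (_h : TrAlg τ) (x u : A) (hu : u ∈ unitary A) : n2 τ (u * x) = n2 τ x := by
  have h1 : star u * u = 1 := (Unitary.mem_iff.1 hu).1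
  unfold n2
  have e1 : star (u * x) * (u * x) = star x * x := by
    rw [star_mul]
    have e1 : star x * star u * (u * x) = star x * (star u * u) * x := by noncomm_ring
    rw [e1, h1, mul_one]
  rw [e1]

theorem FAC_trace_le (h : TrAlg τ) (x : A) : ‖τ x‖ ≤ n2 τ x := by
  have h1 := h.cauchy' x 1
  rw [mul_one] at h1
  have h2 : n2 τ (1 : A) = 1 := by
    unfold n2
    rw [star_one, one_mul, h.one]
    simp
  rwa [h2, mul_one] at h1

theorem rd_center (h : RD τ s e p q v t B D) (z : A) (hz : ∀ x, z * x = x * z) :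
    ∃ c : ℂ, z = c • (1 : A) := by
  have hT := h.tr
  -- main estimate
  have key : ∀ ε : ℝ, 0 < ε →
      ‖τ (star z * z) - star (τ z) * τ z‖ ≤ 2 * (ε * (2 * n2 τ z + ε)) := by
    intro ε hε
    obtain ⟨n, b, hb, hzb⟩ := h.B_dense z ε hε
    obtain ⟨z', hz', hzz⟩ := h.gap n z ε hε
    have hzz' : n2 τ (z - z') ≤ ε := by
      have e1 : p * z - z * p = 0 := by rw [hz p, sub_self]
      have e2 : q * z - z * q = 0 := by rw [hz q, sub_self]
      have e3 : v n * z - z * v n = 0 := by rw [hz (v n), sub_self]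
      rw [e1, e2, e3, hT.n2_zero] at hzz
      linarith
    obtain ⟨k, hk⟩ := exists_level h n z' hz'
    obtain ⟨f, hf⟩ := hk k le_rfl
    have hind : τ (star b * z') = τ (star b) * τ z' := by
      rw [hf]
      unfold Th
      rw [Finset.mul_sum, map_sum, map_sum, Finset.mul_sum]
      refine Finset.sum_congr rfl fun ω _ => ?_
      rw [mul_smul_comm, map_smul, map_smul, tau_atm h n k (star b) (star_mem hb) ω,
        tau_atm_one h n k ω, smul_eq_mul, smul_eq_mul]
      ring
    have e1 : τ (star z * z) - star (τ z) * τ z = τ (star (z - b) * z) + τ (star b * (z - z')) -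
        (τ (star (z - b)) * τ z + τ (star b) * τ (z - z')) := by
      have a1 : star (z - b) * z = star z * z - star b * z := by
        rw [star_sub, sub_mul]
      have a2 : star b * (z - z') = star b * z - star b * z' := by rw [mul_sub]
      rw [a1, a2, map_sub, map_sub, hind, star_sub, map_sub, map_sub, hT.conj z]
      ring
    have nb : n2 τ b ≤ n2 τ z + ε := by
      have e2 : b = z - (z - b) := by abel
      have e3 := hT.n2_sub_le z (z - b)
      rw [← e2] at e3
      linarith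
    have nz := n2_nonneg τ z
    have nzb := n2_nonneg τ (z - b)
    have nb0 := n2_nonneg τ b
    have nzz := n2_nonneg τ (z - z')
    have b1 : ‖τ (star (z - b) * z)‖ ≤ ε * n2 τ z := by
      refine (hT.cauchy _ _).trans ?_
      exact mul_le_mul_of_nonneg_right hzb.le nz
    have b2 : ‖τ (star b * (z - z'))‖ ≤ (n2 τ z + ε) * ε := by
      refine (hT.cauchy _ _).trans ?_
      exact mul_le_mul nb hzz' nzz (by linarith)
    have b3 : ‖τ (star (z - b)) * τ z‖ ≤ ε * n2 τ z := by
      rw [norm_mul]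
      have c1 := FAC_trace_le hT (star (z - b))
      rw [hT.n2_star] at c1
      exact mul_le_mul (c1.trans hzb.le) (FAC_trace_le hT z) (norm_nonneg _) hε.le
    have b4 : ‖τ (star b) * τ (z - z')‖ ≤ (n2 τ z + ε) * ε := by
      rw [norm_mul]
      have c1 := FAC_trace_le hT (star b)
      rw [hT.n2_star] at c1
      exact mul_le_mul (c1.trans nb) ((FAC_trace_le hT _).trans hzz') (norm_nonneg _)
        (by linarith)
    rw [e1]
    refine (norm_sub_le _ _).trans ?_
    have d1 := norm_add_le (τ (star (z - b) * z)) (τ (star b * (z - z')))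
    have d2 := norm_add_le (τ (star (z - b)) * τ z) (τ (star b) * τ (z - z'))
    nlinarith
  have hzero : τ (star z * z) - star (τ z) * τ z = 0 := by
    rw [← norm_eq_zero]
    by_contra hne
    set N := ‖τ (star z * z) - star (τ z) * τ z‖ with hN
    have hNpos : 0 < N := lt_of_le_of_ne (norm_nonneg _) (Ne.symm hne)
    have nz := n2_nonneg τ z
    set M := 2 * (2 * n2 τ z + 1) with hM
    have hMpos : 0 < M := by positivity
    have h1 := key (min 1 (N / (2 * M))) (lt_min one_pos (by positivity))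
    have h2 : min 1 (N / (2 * M)) ≤ 1 := min_le_left _ _
    have h3 : min 1 (N / (2 * M)) ≤ N / (2 * M) := min_le_right _ _
    have h4 : 0 < min 1 (N / (2 * M)) := lt_min one_pos (by positivity)
    have h5 : 2 * (min 1 (N / (2 * M)) * (2 * n2 τ z + min 1 (N / (2 * M)))) ≤
        N / (2 * M) * M := by
      rw [hM]
      have : min 1 (N / (2 * M)) * (2 * n2 τ z + min 1 (N / (2 * M))) ≤
          N / (2 * M) * (2 * n2 τ z + 1) :=
        mul_le_mul h3 (by linarith) (by positivity) (by positivity)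
      rw [hM] at this
      linarith
    have h6 : N / (2 * M) * M = N / 2 := by
      field_simp
    linarith
  refine ⟨τ z, ?_⟩
  rw [← sub_eq_zero]
  apply hT.faithful
  have e1 : star (z - τ z • (1 : A)) * (z - τ z • (1 : A)) =
      star z * z - τ z • star z - star (τ z) • z + (star (τ z) * τ z) • (1 : A) := by
    rw [star_sub, star_smul, star_one, sub_mul, mul_sub, mul_sub, mul_smul_comm, mul_one,
      smul_mul_assoc, one_mul, smul_mul_smul_comm, one_mul]
    abel
  rw [e1, map_add, map_sub, map_sub, map_smul, map_smul, map_smul, hT.one, hT.conj z, smul_eq_mul,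
    smul_eq_mul, smul_eq_mul]
  rw [sub_eq_zero] at hzero
  rw [hzero]
  ring

theorem rd_infinite (h : RD τ s e p q v t B D) : ¬ FiniteDimensional ℂ A := by
  intro hfd
  have hT := h.tr
  set d := Module.finrank ℂ A with hd
  have hli : LinearIndependent ℂ (atm e 0 d) := by
    rw [Fintype.linearIndependent_iff]
    intro g hg i
    have h1 : Th (atm e 0 d) g = 0 := hg
    have h2 := cf_Th hT (atm_pvm h 0 d) (μ := wt s) (tau_atm_one h 0 d)
      (fun ω => wt_pos h.s_pos h.s_lt ω) g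
    rw [h1] at h2
    rw [← h2]
    unfold cf
    rw [zero_mul, map_zero, zero_div]
  have h1 := hli.fintype_card_le_finrank
  have h2 : Fintype.card (Fin d → Bool) = 2 ^ d := by simp
  rw [h2] at h1
  have h3 : d < 2 ^ d := Nat.lt_two_pow_self
  omega

/-- the coefficients of the unitary of trace zero -/
noncomputable def FAC_f (ζ : ℂ) (ω : Fin 2 → Bool) : ℂ :=
  if ω 0 then (if ω 1 then -1 else ζ) else (if ω 1 then star ζ else 1)

theorem FAC_zeta (s : ℝ) (h1 : 3 / 10 ≤ s) (h2 : s ≤ 1 / 2) :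
    ∃ ζ : ℂ, ‖ζ‖ = 1 ∧ (1 - s) ^ 2 - s ^ 2 + 2 * s * (1 - s) * ζ.re = 0 := by
  have hs : 0 < 2 * s * (1 - s) := by nlinarith
  set r : ℝ := -(1 - 2 * s) / (2 * s * (1 - s)) with hr
  have hr0 : r ≤ 0 := by
    rw [hr]
    apply div_nonpos_of_nonpos_of_nonneg
    · linarith
    · exact hs.le
  have hr1 : -1 ≤ r := by
    rw [hr, le_div_iff₀ hs]
    nlinarith
  have hr2 : 0 ≤ 1 - r ^ 2 := by nlinarith
  refine ⟨⟨r, Real.sqrt (1 - r ^ 2)⟩, ?_, ?_⟩
  · have h3 : ‖(⟨r, Real.sqrt (1 - r ^ 2)⟩ : ℂ)‖ ^ 2 = 1 := by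
      rw [← Complex.normSq_eq_norm_sq, Complex.normSq_mk, Real.mul_self_sqrt hr2]
      ring
    have h4 := norm_nonneg (⟨r, Real.sqrt (1 - r ^ 2)⟩ : ℂ)
    nlinarith
  · simp only
    have h5 : 2 * s * (1 - s) * r = -(1 - 2 * s) := by
      rw [hr, mul_div_cancel₀ _ hs.ne']
    rw [h5]
    ring

theorem rd_gamma (h : RD τ s e p q v t B D) (h1 : 3 / 10 ≤ s) (h2 : s ≤ 1 / 2) (F : Finset A)
    (ε : ℝ) (hε : 0 < ε) :
    ∃ u ∈ unitary A, τ u = 0 ∧ ∀ x ∈ F, n2 τ (u * x - x * u) < ε := by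
  have hT := h.tr
  -- a common level
  have hlev : ∃ N, ∀ x ∈ F, ∃ b ∈ B N, n2 τ (x - b) < ε / 2 := by
    classical
    refine Finset.induction_on F ⟨0, by simp⟩ ?_
    intro a F _ ih
    obtain ⟨N, hN⟩ := ih
    obtain ⟨n, b, hb, hab⟩ := h.B_dense a (ε / 2) (by linarith)
    refine ⟨max N n, ?_⟩
    intro x hx
    rw [Finset.mem_insert] at hx
    rcases hx with rfl | hx
    · exact ⟨b, h.B_mono _ _ (le_max_right _ _) hb, hab⟩
    · obtain ⟨b', hb', hxb⟩ := hN x hx
      exact ⟨b', h.B_mono _ _ (le_max_left _ _) hb', hxb⟩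
  obtain ⟨N, hN⟩ := hlev
  obtain ⟨ζ, hζ1, hζ2⟩ := FAC_zeta s h1 h2
  have hP := atm_pvm h N 2
  have hμ : ∀ a, τ (atm e N 2 a) = ((wt s a : ℝ) : ℂ) := tau_atm_one h N 2
  have hf1 : ∀ ω, ‖FAC_f ζ ω‖ = 1 := by
    intro ω
    unfold FAC_f
    split_ifs
    · simp
    · exact hζ1
    · rw [norm_star]; exact hζ1
    · simp
  have hu := Th_unitary hP (FAC_f ζ) hf1
  refine ⟨Th (atm e N 2) (FAC_f ζ), hu, ?_, ?_⟩
  · rw [tau_Th hμ]
    have hw : ∀ F' : (Fin 2 → Bool) → ℂ, ∑ ω, F' ω = F' ![true, true] + F' ![true, false] +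
        F' ![false, true] + F' ![false, false] := by
      intro F'
      rw [← (finTwoArrowEquiv Bool).symm.sum_comp, Fintype.sum_prod_type]
      simp only [Fintype.sum_bool, finTwoArrowEquiv_symm_apply]
      ring
    rw [hw]
    simp only [wt, FAC_f, Fin.prod_univ_two, Matrix.cons_val_zero, Matrix.cons_val_one,
      if_true, Bool.false_eq_true, if_false]
    apply Complex.ext
    · simp
      linarith
    · simp
      ring
  · intro x hx
    obtain ⟨b, hb, hxb⟩ := hN x hx
    have hbe : ∀ i, N ≤ i → i < N + 2 → b * e i = e i * b := by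
      intro i hi _
      exact h.D_comm i b (h.B_D i (h.B_mono _ _ hi hb))
    have hcomm := Th_comm_of b (fun ω => atm_comm hbe ω) (FAC_f ζ)
    set u := Th (atm e N 2) (FAC_f ζ) with hudef
    have e1 : u * x - x * u = u * (x - b) - (x - b) * u := by
      rw [mul_sub, sub_mul, hcomm]
      abel
    rw [e1]
    refine (hT.n2_sub_le _ _).trans_lt ?_
    rw [FAC_n2_un_mul hT _ _ hu, FAC_n2_mul_un hT _ _ hu]
    linarith

theorem rd_comm (h : RD τ s e p q v t B D) (x y : A) (hx : x ∈ unitary A) (hy : y ∈ unitary A) :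
    n2 τ (x * y - y * x) ≤ 80 * ((n2 τ (p * x - x * p) + n2 τ (q * x - x * q)) +
      (n2 τ (p * y - y * p) + n2 τ (q * y - y * q))) := by
  have hT := h.tr
  apply le_of_forall_pos_le_add
  intro ε hε
  have hgap : ∀ w : A, ∃ z ∈ Cn e 0,
      n2 τ (w - z) ≤ 40 * (n2 τ (p * w - w * p) + n2 τ (q * w - w * q)) + ε / 4 := by
    intro w
    obtain ⟨z, hz, hwz⟩ := h.gap 0 w (ε / 4) (by linarith)
    refine ⟨z, hz, ?_⟩
    have e3 : v 0 * w - w * v 0 = 0 := by rw [h.v_zero, one_mul, mul_one, sub_self]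
    rw [e3, hT.n2_zero] at hwz
    linarith
  obtain ⟨z1, hz1, hxz⟩ := hgap x
  obtain ⟨z2, hz2, hyz⟩ := hgap y
  obtain ⟨k1, hk1⟩ := exists_level h 0 z1 hz1
  obtain ⟨k2, hk2⟩ := exists_level h 0 z2 hz2
  set k := max k1 k2 with hk
  obtain ⟨f1, hf1⟩ := hk1 k (le_max_left _ _)
  obtain ⟨f2, hf2⟩ := hk2 k (le_max_right _ _)
  have hP := atm_pvm h 0 k
  have hμ : ∀ a, τ (atm e 0 k a) = ((wt s a : ℝ) : ℂ) := tau_atm_one h 0 k
  have hpos : ∀ a : Fin k → Bool, 0 < wt s a := fun ω => wt_pos h.s_pos h.s_lt ω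
  have bx := cf_best hT hP hμ hpos x f1
  have by' := cf_best hT hP hμ hpos y f2
  rw [← hf1] at bx
  rw [← hf2] at by'
  have cx := cf_le hT hP hμ hpos x hx
  have cy := cf_le hT hP hμ hpos y hy
  have hXY := Th_comm hP (cf τ (atm e 0 k) x) (cf τ (atm e 0 k) y)
  have m1 := n2_Th_mul hT hP (cf τ (atm e 0 k) x) 1 cx (y - Th (atm e 0 k) (cf τ (atm e 0 k) y))
  have m2 := n2_Th_mul hT hP (cf τ (atm e 0 k) y) 1 cy (x - Th (atm e 0 k) (cf τ (atm e 0 k) x))
  set X := Th (atm e 0 k) (cf τ (atm e 0 k) x) with hX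
  set Y := Th (atm e 0 k) (cf τ (atm e 0 k) y) with hY
  have e1 : x * y - y * x = ((x - X) * y + X * (y - Y)) - ((y - Y) * x + Y * (x - X)) := by
    rw [sub_mul, mul_sub, sub_mul, mul_sub, hXY]
    abel
  rw [e1]
  have d0 := hT.n2_sub_le ((x - X) * y + X * (y - Y)) ((y - Y) * x + Y * (x - X))
  have d1 := hT.n2_add_le ((x - X) * y) (X * (y - Y))
  have d2 := hT.n2_add_le ((y - Y) * x) (Y * (x - X))
  rw [FAC_n2_mul_un hT _ _ hy] at d1
  rw [FAC_n2_mul_un hT _ _ hx] at d2
  linarith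

end Pool.Agent.H289R2.RS
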