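import Mathlib
import Pool.Agent.Helper278.CEFactor
import Pool.Agent.Helper278.CEPull
import Pool.Agent.Helper159.GM.JDense
import Pool.Agent.H289R2.RS.Defs2

set_option autoImplicit false
set_option linter.unusedSectionVars false

open scoped InnerProductSpace ComplexOrder Pointwise

namespace Pool.Agent.H289R2.RS

open Pool.Agent.Helper278 Pool.Agent.Helper278.CE

/-! ### cut operators -/

theorem MOD_ext {X : Type} {f g : EllTwo X} (h : ∀ x, f x = g x) : f = g := lp.ext (funext h)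

open Classical in
/-- cutting as a continuous linear map -/
noncomputable def cutL {X : Type} (S : Set X) : EllTwo X →L[ℂ] EllTwo X :=
  LinearMap.mkContinuous
    { toFun := fun f => cut S f
      map_add' := fun f g => by
        refine MOD_ext fun x => ?_
        show S.indicator (⇑(f + g)) x = S.indicator (⇑f) x + S.indicator (⇑g) x
        by_cases hx : x ∈ S
        · rw [Set.indicator_of_mem hx, Set.indicator_of_mem hx, Set.indicator_of_mem hx]
          rfl
        · rw [Set.indicator_of_notMem hx, Set.indicator_of_notMem hx, Set.indicator_of_notMem hx,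
            add_zero]
      map_smul' := fun c f => by
        refine MOD_ext fun x => ?_
        show S.indicator (⇑(c • f)) x = c * S.indicator (⇑f) x
        by_cases hx : x ∈ S
        · rw [Set.indicator_of_mem hx, Set.indicator_of_mem hx]
          rfl
        · rw [Set.indicator_of_notMem hx, Set.indicator_of_notMem hx, mul_zero] } 1
    (fun f => by rw [one_mul]; exact norm_cut_le_norm S f)

theorem cutL_mem {X : Type} {S : Set X} (f : EllTwo X) {x : X} (h : x ∈ S) : cutL S f x = f x :=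
  cut_apply_mem f h

theorem cutL_notMem {X : Type} {S : Set X} (f : EllTwo X) {x : X} (h : x ∉ S) : cutL S f x = 0 :=
  cut_apply_not_mem f h

theorem star_cutL {X : Type} (S : Set X) : star (cutL S) = cutL S := by
  rw [ContinuousLinearMap.star_eq_adjoint]
  symm
  rw [ContinuousLinearMap.eq_adjoint_iff]
  intro x y
  have h1 := lp.hasSum_inner (𝕜 := ℂ) (cutL S x) y
  have h2 := lp.hasSum_inner (𝕜 := ℂ) x (cutL S y)
  refine h1.unique (h2.congr_fun ?_)
  intro i
  by_cases hi : i ∈ S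
  · rw [cutL_mem x hi, cutL_mem y hi]
  · rw [cutL_notMem x hi, cutL_notMem y hi, inner_zero_left, inner_zero_right]

variable {J G : Type} [DecidableEq J] [Group G] [MulAction G J]

/-- toggle the coordinate `a k` -/
def tog (a : G → J) : (Finset J × G) ≃ (Finset J × G) where
  toFun i := (symmDiff i.1 {a i.2}, i.2)
  invFun i := (symmDiff i.1 {a i.2}, i.2)
  left_inv i := by
    refine Prod.ext ?_ rfl
    exact symmDiff_symmDiff_cancel_right _ _
  right_inv i := by
    refine Prod.ext ?_ rfl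
    exact symmDiff_symmDiff_cancel_right _ _

theorem tog_symm (a : G → J) : (tog a).symm = tog a := rfl

/-- the normalised multiplication -/
noncomputable def Hop (c : ℝ) (a : G → J) : EllTwo (Finset J × G) →L[ℂ] EllTwo (Finset J × G) :=
  permOp (tog a) + (c : ℂ) • cutL {i : Finset J × G | a i.2 ∈ i.1}

theorem Hop_mem (c : ℝ) (a : G → J) (f : EllTwo (Finset J × G)) {σ : Finset J} {k : G}
    (h : a k ∈ σ) : Hop c a f (σ, k) = f (symmDiff σ {a k}, k) + c * f (σ, k) := by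
  show (permOp (tog a) f) (σ, k) + c * cutL {i : Finset J × G | a i.2 ∈ i.1} f (σ, k) = _
  rw [cutL_mem f (show (σ, k) ∈ {i : Finset J × G | a i.2 ∈ i.1} from h)]
  rfl

theorem Hop_notMem (c : ℝ) (a : G → J) (f : EllTwo (Finset J × G)) {σ : Finset J} {k : G}
    (h : a k ∉ σ) : Hop c a f (σ, k) = f (symmDiff σ {a k}, k) := by
  show (permOp (tog a) f) (σ, k) + c * cutL {i : Finset J × G | a i.2 ∈ i.1} f (σ, k) = _
  rw [cutL_notMem f (show (σ, k) ∉ {i : Finset J × G | a i.2 ∈ i.1} from h), mul_zero, add_zero]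
  rfl

theorem star_Hop (c : ℝ) (a : G → J) : star (Hop c a) = Hop c a := by
  unfold Hop
  rw [star_add, star_smul, star_permOp, star_cutL, tog_symm]
  congr 2
  exact Complex.conj_ofReal c

theorem mem_sd (σ : Finset J) (x y : J) : x ∈ symmDiff σ {y} ↔ (x ∈ σ ↔ x ≠ y) := by
  rw [Finset.mem_symmDiff, Finset.mem_singleton]
  by_cases h1 : x ∈ σ <;> by_cases h2 : x = y <;> simp [h1, h2]

theorem sd_mem {σ : Finset J} {x : J} (h : x ∈ σ) : symmDiff σ {x} = σ.erase x := by
  ext y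
  rw [mem_sd, Finset.mem_erase]
  by_cases h2 : y = x
  · subst h2
    simp [h]
  · simp [h2]

theorem sd_notMem {σ : Finset J} {x : J} (h : x ∉ σ) : symmDiff σ {x} = insert x σ := by
  ext y
  rw [mem_sd, Finset.mem_insert]
  by_cases h2 : y = x
  · subst h2
    simp [h]
  · simp [h2]

theorem sd_comm (σ : Finset J) (x y : J) :
    symmDiff (symmDiff σ {x}) {y} = symmDiff (symmDiff σ {y}) {x} :=
  symmDiff_right_comm σ {x} {y}

theorem Hop_comm (c : ℝ) (a a' : G → J) : Hop c a * Hop c a' = Hop c a' * Hop c a := by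
  refine ContinuousLinearMap.ext fun f => MOD_ext fun i => ?_
  obtain ⟨σ, k⟩ := i
  show Hop c a (Hop c a' f) (σ, k) = Hop c a' (Hop c a f) (σ, k)
  by_cases haa : a k = a' k
  · by_cases h : a k ∈ σ
    · have h' : a' k ∈ σ := haa ▸ h
      have g : a k ∉ symmDiff σ {a k} := by rw [mem_sd]; simp [h]
      have g' : a' k ∉ symmDiff σ {a k} := haa ▸ g
      rw [Hop_mem c a _ h, Hop_mem c a' _ h', Hop_mem c a' _ h', Hop_mem c a _ h, ← haa,
        Hop_notMem c a' _ g', Hop_notMem c a _ g, haa]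
    · have h' : a' k ∉ σ := haa ▸ h
      have g : a k ∈ symmDiff σ {a k} := by rw [mem_sd]; simp [h]
      have g' : a' k ∈ symmDiff σ {a k} := haa ▸ g
      rw [Hop_notMem c a _ h, Hop_notMem c a' _ h', ← haa,
        Hop_mem c a' _ g', Hop_mem c a _ g, haa]
  · have e1 : ∀ τ : Finset J, a k ∈ symmDiff τ {a' k} ↔ a k ∈ τ := fun τ => by
      rw [mem_sd]; simp [haa]
    have e2 : ∀ τ : Finset J, a' k ∈ symmDiff τ {a k} ↔ a' k ∈ τ := fun τ => by
      rw [mem_sd]; simp [Ne.symm haa]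
    by_cases h : a k ∈ σ <;> by_cases h' : a' k ∈ σ
    · rw [Hop_mem c a _ h, Hop_mem c a' _ h', Hop_mem c a' _ h', Hop_mem c a _ h,
        Hop_mem c a' _ ((e2 σ).2 h'), Hop_mem c a _ ((e1 σ).2 h), sd_comm]
      ring
    · rw [Hop_mem c a _ h, Hop_notMem c a' _ h', Hop_notMem c a' _ h',
        Hop_notMem c a' _ (fun hh => h' ((e2 σ).1 hh)), Hop_mem c a _ ((e1 σ).2 h), sd_comm]
    · rw [Hop_notMem c a _ h, Hop_mem c a' _ h', Hop_notMem c a _ h,
        Hop_mem c a' _ ((e2 σ).2 h'), Hop_notMem c a _ (fun hh => h ((e1 σ).1 hh)), sd_comm]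
    · rw [Hop_notMem c a _ h, Hop_notMem c a' _ h',
        Hop_notMem c a' _ (fun hh => h' ((e2 σ).1 hh)),
        Hop_notMem c a _ (fun hh => h ((e1 σ).1 hh)), sd_comm]

theorem Hop_sq (c : ℝ) (a : G → J) : Hop c a * Hop c a = 1 + (c : ℂ) • Hop c a := by
  refine ContinuousLinearMap.ext fun f => MOD_ext fun i => ?_
  obtain ⟨σ, k⟩ := i
  show Hop c a (Hop c a f) (σ, k) = f (σ, k) + c * Hop c a f (σ, k)
  by_cases h : a k ∈ σ
  · have g : a k ∉ symmDiff σ {a k} := by rw [mem_sd]; simp [h]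
    rw [Hop_mem c a _ h, Hop_notMem c a _ g, symmDiff_symmDiff_cancel_right]
  · have g : a k ∈ symmDiff σ {a k} := by rw [mem_sd]; simp [h]
    rw [Hop_notMem c a _ h, Hop_mem c a _ g, symmDiff_symmDiff_cancel_right, Hop_notMem c a _ h]

/-- left translation -/
def lsm (g : G) : (Finset J × G) ≃ (Finset J × G) where
  toFun i := (g⁻¹ • i.1, g⁻¹ * i.2)
  invFun i := (g • i.1, g * i.2)
  left_inv i := Prod.ext (smul_inv_smul g i.1) (mul_inv_cancel_left g i.2)
  right_inv i := Prod.ext (inv_smul_smul g i.1) (inv_mul_cancel_left g i.2)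

/-- the unitaries of the group -/
noncomputable def Uop (J : Type) {G : Type} [DecidableEq J] [Group G] [MulAction G J] (g : G) :
    EllTwo (Finset J × G) →L[ℂ] EllTwo (Finset J × G) := permOp (lsm g)

theorem Uop_apply (g : G) (f : EllTwo (Finset J × G)) (σ : Finset J) (k : G) :
    Uop J g f (σ, k) = f (g⁻¹ • σ, g⁻¹ * k) := rfl

theorem Uop_mul (g h : G) : Uop J (g * h) = Uop J g * Uop J h := by
  unfold Uop
  rw [permOp_mul]
  congr 1
  refine Equiv.ext fun i => ?_
  show ((g * h)⁻¹ • i.1, (g * h)⁻¹ * i.2) = (h⁻¹ • (g⁻¹ • i.1), h⁻¹ * (g⁻¹ * i.2))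
  rw [mul_inv_rev, mul_smul, mul_assoc]

theorem Uop_one : Uop J (1 : G) = 1 := by
  unfold Uop
  rw [← permOp_refl]
  congr 1
  refine Equiv.ext fun i => ?_
  show ((1 : G)⁻¹ • i.1, (1 : G)⁻¹ * i.2) = i
  rw [inv_one, one_smul, one_mul]

theorem star_Uop (g : G) : star (Uop J g) = Uop J g⁻¹ := by
  unfold Uop
  rw [star_permOp]
  congr 1
  refine Equiv.ext fun i => ?_
  show (g • i.1, g * i.2) = (g⁻¹⁻¹ • i.1, g⁻¹⁻¹ * i.2)
  rw [inv_inv]

/-- right translation -/
def rsm (J : Type) {G : Type} [Group G] (g : G) : (Finset J × G) ≃ (Finset J × G) where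
  toFun i := (i.1, i.2 * g)
  invFun i := (i.1, i.2 * g⁻¹)
  left_inv i := Prod.ext rfl (mul_inv_cancel_right i.2 g)
  right_inv i := Prod.ext rfl (inv_mul_cancel_right i.2 g)

/-- the right unitaries -/
noncomputable def Vop (J : Type) {G : Type} [Group G] (g : G) :
    EllTwo (Finset J × G) →L[ℂ] EllTwo (Finset J × G) := permOp (rsm J g)

theorem Vop_apply (g : G) (f : EllTwo (Finset J × G)) (σ : Finset J) (k : G) :
    Vop J g f (σ, k) = f (σ, k * g) := rfl

theorem star_Vop (g : G) : star (Vop J g) = Vop J g⁻¹ := by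
  unfold Vop
  rw [star_permOp]
  congr 1
  refine Equiv.ext fun i => ?_
  show (i.1, i.2 * g⁻¹) = (i.1, i.2 * g⁻¹)
  rfl

theorem U_V (g h : G) : Uop J g * Vop J h = Vop J h * Uop J g := by
  refine ContinuousLinearMap.ext fun f => MOD_ext fun i => ?_
  obtain ⟨σ, k⟩ := i
  show f (g⁻¹ • σ, g⁻¹ * k * h) = f (g⁻¹ • σ, g⁻¹ * (k * h))
  rw [mul_assoc]

theorem H_V (c : ℝ) (j : J) (h : G) :
    Hop c (fun _ => j) * Vop J h = Vop J h * Hop c (fun _ => j) := by
  refine ContinuousLinearMap.ext fun f => MOD_ext fun i => ?_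
  obtain ⟨σ, k⟩ := i
  show Hop c (fun _ => j) (Vop J h f) (σ, k) = Hop c (fun _ => j) f (σ, k * h)
  by_cases hj : j ∈ σ
  · rw [Hop_mem c (fun _ => j) _ hj, Hop_mem c (fun _ => j) _ hj]
    rfl
  · rw [Hop_notMem c (fun _ => j) _ hj, Hop_notMem c (fun _ => j) _ hj]
    rfl

theorem smul_sd (g : G) (σ : Finset J) (x : J) :
    g • symmDiff σ {x} = symmDiff (g • σ) {g • x} := by
  rw [Finset.smul_finset_symmDiff, Finset.smul_finset_singleton]

theorem U_H (c : ℝ) (g : G) (a a' : G → J) (h : ∀ k, g • a (g⁻¹ * k) = a' k) :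
    Uop J g * Hop c a = Hop c a' * Uop J g := by
  refine ContinuousLinearMap.ext fun f => MOD_ext fun i => ?_
  obtain ⟨σ, k⟩ := i
  show Hop c a f (g⁻¹ • σ, g⁻¹ * k) = Hop c a' (Uop J g f) (σ, k)
  have h1 : a (g⁻¹ * k) = g⁻¹ • a' k := by rw [← h k, inv_smul_smul]
  have h2 : g⁻¹ • symmDiff σ {a' k} = symmDiff (g⁻¹ • σ) {a (g⁻¹ * k)} := by
    rw [smul_sd, h1]
  by_cases hj : a' k ∈ σ
  · have hj' : a (g⁻¹ * k) ∈ g⁻¹ • σ := by
      rw [h1]; exact Finset.smul_mem_smul_finset hj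
    rw [Hop_mem c a _ hj', Hop_mem c a' _ hj, Uop_apply, Uop_apply, h2]
  · have hj' : a (g⁻¹ * k) ∉ g⁻¹ • σ := by
      rw [h1, Finset.smul_mem_smul_finset_iff]; exact hj
    rw [Hop_notMem c a _ hj', Hop_notMem c a' _ hj, Uop_apply, h2]

/-! ### action on the basis -/

theorem Vop_sb (g : G) (σ : Finset J) (k : G) :
    Vop J g (sb (Finset J × G) (σ, k)) = sb (Finset J × G) (σ, k * g⁻¹) := by
  unfold Vop
  rw [← permK_sb, permK_basis]
  rfl

theorem Uop_sb (g : G) (σ : Finset J) (k : G) :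
    Uop J g (sb (Finset J × G) (σ, k)) = sb (Finset J × G) (g • σ, g * k) := by
  unfold Uop
  rw [← permK_sb, permK_basis]
  rfl

theorem Hop_sb (c : ℝ) (a : G → J) (σ : Finset J) (k : G) (h : a k ∉ σ) :
    Hop c a (sb (Finset J × G) (σ, k)) = sb (Finset J × G) (insert (a k) σ, k) := by
  have h1 : permOp (tog a) (sb (Finset J × G) (σ, k)) =
      sb (Finset J × G) (insert (a k) σ, k) := by
    rw [← permK_sb, permK_basis, tog_symm]
    show sb (Finset J × G) (symmDiff σ {a k}, k) = _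
    rw [sd_notMem h]
  have h2 : cutL {i : Finset J × G | a i.2 ∈ i.1} (sb (Finset J × G) (σ, k)) = 0 := by
    refine MOD_ext fun i => ?_
    by_cases hi : a i.2 ∈ i.1
    · rw [cutL_mem _ (show i ∈ {i : Finset J × G | a i.2 ∈ i.1} from hi), sb_ne]
      · rfl
      · rintro rfl
        exact h hi
    · rw [cutL_notMem _ (show i ∉ {i : Finset J × G | a i.2 ∈ i.1} from hi)]
      rfl
  show permOp (tog a) (sb (Finset J × G) (σ, k)) +
    (c : ℂ) • cutL {i : Finset J × G | a i.2 ∈ i.1} (sb (Finset J × G) (σ, k)) = _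
  rw [h1, h2, smul_zero, add_zero]

/-! ### the algebra -/

/-- the projections -/
noncomputable def Eop (G : Type) {J : Type} [DecidableEq J] (s : ℝ) (j : J) :
    EllTwo (Finset J × G) →L[ℂ] EllTwo (Finset J × G) :=
  (s : ℂ) • 1 + ((Real.sqrt (s * (1 - s)) : ℝ) : ℂ) •
    Hop ((1 - 2 * s) / Real.sqrt (s * (1 - s))) (fun _ : G => j)

/-- the commutant -/
def Com (J G : Type) [DecidableEq J] [Group G] [MulAction G J] (s : ℝ) :
    Set (EllTwo (Finset J × G) →L[ℂ] EllTwo (Finset J × G)) :=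
  {t | (∀ j, Eop G s j * t = t * Eop G s j) ∧ ∀ g : G, Uop J g * t = t * Uop J g}

theorem star_Eop (s : ℝ) (j : J) : star (Eop G s j) = Eop G s j := by
  unfold Eop
  rw [star_add, star_smul, star_smul, star_one, star_Hop]
  congr 2
  · exact Complex.conj_ofReal _
  · exact Complex.conj_ofReal _

theorem Com_star {s : ℝ} {t : EllTwo (Finset J × G) →L[ℂ] EllTwo (Finset J × G)}
    (h : t ∈ Com J G s) : star t ∈ Com J G s := by
  refine ⟨fun j => ?_, fun g => ?_⟩
  · have h1 := congrArg star (h.1 j)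
    rw [star_mul, star_mul, star_Eop] at h1
    exact h1.symm
  · have h1 := congrArg star (h.2 g⁻¹)
    rw [star_mul, star_mul, star_Uop, inv_inv] at h1
    exact h1.symm

theorem Com_mul {s : ℝ} {t t' : EllTwo (Finset J × G) →L[ℂ] EllTwo (Finset J × G)}
    (h : t ∈ Com J G s) (h' : t' ∈ Com J G s) : t * t' ∈ Com J G s := by
  refine ⟨fun j => ?_, fun g => ?_⟩
  · rw [← mul_assoc, h.1 j, mul_assoc, h'.1 j, mul_assoc]
  · rw [← mul_assoc, h.2 g, mul_assoc, h'.2 g, mul_assoc]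

theorem Com_one (s : ℝ) : (1 : EllTwo (Finset J × G) →L[ℂ] EllTwo (Finset J × G)) ∈ Com J G s :=
  ⟨fun j => by rw [one_mul, mul_one], fun g => by rw [one_mul, mul_one]⟩

theorem Eop_comm_of {s : ℝ} {j : J} {t : EllTwo (Finset J × G) →L[ℂ] EllTwo (Finset J × G)}
    (h : Hop ((1 - 2 * s) / Real.sqrt (s * (1 - s))) (fun _ : G => j) * t =
      t * Hop ((1 - 2 * s) / Real.sqrt (s * (1 - s))) (fun _ : G => j)) :
    Eop G s j * t = t * Eop G s j := by
  unfold Eop
  rw [add_mul, mul_add, smul_mul_assoc, smul_mul_assoc, mul_smul_comm, mul_smul_comm, h, one_mul,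
    mul_one]

theorem Com_V (s : ℝ) (g : G) : Vop J g ∈ Com J G s :=
  ⟨fun j => Eop_comm_of (H_V _ j g), fun h => U_V h g⟩

theorem Com_R (s : ℝ) (j : J) :
    Hop ((1 - 2 * s) / Real.sqrt (s * (1 - s))) (fun k : G => k • j) ∈ Com J G s := by
  refine ⟨fun j' => Eop_comm_of (Hop_comm _ _ _), fun g => ?_⟩
  refine U_H _ g _ _ fun k => ?_
  show g • ((g⁻¹ * k) • j) = k • j
  rw [← mul_smul, mul_inv_cancel_left]

/-- the von Neumann algebra -/
noncomputable def NB (J G : Type) [DecidableEq J] [Group G] [MulAction G J] (s : ℝ) :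
    VonNeumannAlgebra (EllTwo (Finset J × G)) :=
  vnGen (Set.range (Eop G s) ∪ Set.range (Uop J))

theorem mem_cent (s : ℝ) (t : EllTwo (Finset J × G) →L[ℂ] EllTwo (Finset J × G)) :
    t ∈ StarSubalgebra.centralizer ℂ (Set.range (Eop G s) ∪ Set.range (Uop J)) ↔
      t ∈ Com J G s := by
  rw [StarSubalgebra.mem_centralizer_iff (R := ℂ)]
  constructor
  · intro h
    exact ⟨fun j => (h _ (Or.inl ⟨j, rfl⟩)).1, fun g => (h _ (Or.inr ⟨g, rfl⟩)).1⟩
  · rintro h _ (⟨j, rfl⟩ | ⟨g, rfl⟩)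
    · refine ⟨h.1 j, ?_⟩
      rw [star_Eop]
      exact h.1 j
    · refine ⟨h.2 g, ?_⟩
      rw [star_Uop]
      exact h.2 g⁻¹

theorem mem_NB (s : ℝ) (z : EllTwo (Finset J × G) →L[ℂ] EllTwo (Finset J × G)) :
    z ∈ NB J G s ↔ ∀ t ∈ Com J G s, t * z = z * t := by
  have h : z ∈ NB J G s ↔ ∀ t ∈ StarSubalgebra.centralizer ℂ
      (Set.range (Eop G s) ∪ Set.range (Uop J)), t * z = z * t ∧ star t * z = z * star t :=
    StarSubalgebra.mem_centralizer_iff (R := ℂ)
  rw [h]
  constructor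
  · intro h t' ht
    exact (h t' ((mem_cent s t').2 ht)).1
  · intro h t' ht
    have ht' := (mem_cent s t').1 ht
    exact ⟨h t' ht', h _ (Com_star ht')⟩

theorem Eop_mem (s : ℝ) (j : J) : Eop G s j ∈ NB J G s :=
  (mem_NB s _).2 fun t ht => (ht.1 j).symm

theorem Uop_mem (s : ℝ) (g : G) : Uop J g ∈ NB J G s :=
  (mem_NB s _).2 fun t ht => (ht.2 g).symm

theorem exists_TS (s : ℝ) (σ : Finset J) :
    ∃ t ∈ Com J G s, ∀ (k : G) (ρ : Finset J), Disjoint ρ (k • σ) →
      t (sb (Finset J × G) (ρ, k)) = sb (Finset J × G) (ρ ∪ k • σ, k) ∧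
      star t (sb (Finset J × G) (ρ, k)) = sb (Finset J × G) (ρ ∪ k • σ, k) := by
  induction σ using Finset.induction_on with
  | empty =>
    refine ⟨1, Com_one s, fun k ρ _ => ?_⟩
    rw [Finset.smul_finset_empty, Finset.union_empty, star_one]
    exact ⟨rfl, rfl⟩
  | insert j σ hj ih =>
    obtain ⟨t, ht, h⟩ := ih
    refine ⟨t * Hop ((1 - 2 * s) / Real.sqrt (s * (1 - s))) (fun k : G => k • j),
      Com_mul ht (Com_R s j), fun k ρ hd => ?_⟩
    rw [Finset.smul_finset_insert, Finset.disjoint_insert_right] at hd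
    obtain ⟨hd1, hd2⟩ := hd
    have hkj : k • j ∉ k • σ := by
      rw [Finset.smul_mem_smul_finset_iff]
      exact hj
    rw [star_mul, star_Hop, Finset.smul_finset_insert]
    constructor
    · show t (Hop _ (fun k : G => k • j) (sb (Finset J × G) (ρ, k))) = _
      rw [Hop_sb _ (fun k : G => k • j) ρ k hd1]
      rw [(h k (insert (k • j) ρ) (Finset.disjoint_insert_left.2 ⟨hkj, hd2⟩)).1]
      congr 2
      rw [Finset.insert_union, Finset.union_insert]
    · show Hop _ (fun k : G => k • j) (star t (sb (Finset J × G) (ρ, k))) = _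
      rw [(h k ρ hd2).2, Hop_sb _ (fun k : G => k • j) (ρ ∪ k • σ) k
        (fun hh => (Finset.mem_union.1 hh).elim hd1 hkj), Finset.union_insert]

/-- the involution -/
def iotaE : (Finset J × G) ≃ (Finset J × G) where
  toFun i := (i.2⁻¹ • i.1, i.2⁻¹)
  invFun i := (i.2⁻¹ • i.1, i.2⁻¹)
  left_inv i := by
    refine Prod.ext ?_ (inv_inv i.2)
    show i.2⁻¹⁻¹ • i.2⁻¹ • i.1 = i.1
    rw [inv_inv, smul_inv_smul]
  right_inv i := by
    refine Prod.ext ?_ (inv_inv i.2)
    show i.2⁻¹⁻¹ • i.2⁻¹ • i.1 = i.1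
    rw [inv_inv, smul_inv_smul]

theorem exists_T (s : ℝ) (i : Finset J × G) :
    ∃ t ∈ Com J G s, t (sb (Finset J × G) (∅, 1)) = sb (Finset J × G) i ∧
      star t (sb (Finset J × G) (∅, 1)) = sb (Finset J × G) (iotaE i) := by
  obtain ⟨σ, k⟩ := i
  obtain ⟨t, ht, h⟩ := exists_TS (G := G) s σ
  refine ⟨Vop J k⁻¹ * t, Com_mul (Com_V s k⁻¹) ht, ?_, ?_⟩
  · show Vop J k⁻¹ (t (sb (Finset J × G) (∅, 1))) = _
    rw [(h 1 ∅ (Finset.disjoint_empty_left _)).1, Vop_sb, one_smul, Finset.empty_union, one_mul,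
      inv_inv]
  · rw [star_mul, star_Vop, inv_inv]
    show star t (Vop J k (sb (Finset J × G) (∅, 1))) = _
    rw [Vop_sb, one_mul, (h k⁻¹ ∅ (Finset.disjoint_empty_left _)).2, Finset.empty_union]
    rfl

/-- the vector of the trace -/
noncomputable def Om (J G : Type) [DecidableEq J] [Group G] : EllTwo (Finset J × G) :=
  sb (Finset J × G) (∅, 1)

theorem NB_apply {s : ℝ} {x t : EllTwo (Finset J × G) →L[ℂ] EllTwo (Finset J × G)}
    (hx : x ∈ NB J G s) (ht : t ∈ Com J G s) (v : EllTwo (Finset J × G)) : x (t v) = t (x v) := by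
  have h := congrArg (fun z : EllTwo (Finset J × G) →L[ℂ] EllTwo (Finset J × G) => z v)
    ((mem_NB s x).1 hx t ht)
  exact h.symm

theorem NB_eq_zero {s : ℝ} {x : EllTwo (Finset J × G) →L[ℂ] EllTwo (Finset J × G)}
    (hx : x ∈ NB J G s) (h : x (Om J G) = 0) : x = 0 := by
  apply ext_basis (sb (Finset J × G))
  intro i
  obtain ⟨t, ht, h1, -⟩ := exists_T s i
  rw [← h1, NB_apply hx ht]
  have h' : x (sb (Finset J × G) (∅, 1)) = 0 := h
  rw [h', map_zero]
  rfl

theorem NB_star {s : ℝ} {x : EllTwo (Finset J × G) →L[ℂ] EllTwo (Finset J × G)}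
    (hx : x ∈ NB J G s) (i : Finset J × G) :
    (star x (Om J G)) i = star (x (Om J G) (iotaE i)) := by
  obtain ⟨t, ht, h1, h2⟩ := exists_T s i
  have e1 : (star x (Om J G)) i = ⟪sb (Finset J × G) i, star x (Om J G)⟫_ℂ :=
    (coef_sb i _).symm
  rw [e1, ContinuousLinearMap.star_eq_adjoint, ContinuousLinearMap.adjoint_inner_right, ← h1,
    NB_apply hx ht, ← ContinuousLinearMap.adjoint_inner_right, ← ContinuousLinearMap.star_eq_adjoint]
  have e2 : star t (Om J G) = sb (Finset J × G) (iotaE i) := h2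
  rw [e2, ← inner_conj_symm, coef_sb]
  rfl

/-- the trace -/
noncomputable def tauB (J G : Type) [DecidableEq J] [Group G] [MulAction G J] (s : ℝ)
    (x : Elt (NB J G s)) : ℂ :=
  ⟪Om J G, (x : EllTwo (Finset J × G) →L[ℂ] EllTwo (Finset J × G)) (Om J G)⟫_ℂ

theorem tauB_mul {s : ℝ} (x y : Elt (NB J G s)) :
    HasSum (fun i : Finset J × G =>
      (x : EllTwo (Finset J × G) →L[ℂ] EllTwo (Finset J × G)) (Om J G) (iotaE i) *
      (y : EllTwo (Finset J × G) →L[ℂ] EllTwo (Finset J × G)) (Om J G) i)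
      (tauB J G s (x * y)) := by
  have h1 : tauB J G s (x * y) =
      ⟪(star (x : EllTwo (Finset J × G) →L[ℂ] EllTwo (Finset J × G))) (Om J G),
        (y : EllTwo (Finset J × G) →L[ℂ] EllTwo (Finset J × G)) (Om J G)⟫_ℂ := by
    rw [ContinuousLinearMap.star_eq_adjoint, ContinuousLinearMap.adjoint_inner_left]
    rfl
  rw [h1]
  refine (lp.hasSum_inner (𝕜 := ℂ)
    ((star (x : EllTwo (Finset J × G) →L[ℂ] EllTwo (Finset J × G))) (Om J G))
    ((y : EllTwo (Finset J × G) →L[ℂ] EllTwo (Finset J × G)) (Om J G))).congr_fun ?_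
  intro i
  rw [NB_star x.2 i, RCLike.inner_apply, Complex.star_def, Complex.conj_conj, mul_comm]

theorem tauB_comm {s : ℝ} (x y : Elt (NB J G s)) :
    tauB J G s (x * y) = tauB J G s (y * x) := by
  have h1 := tauB_mul x y
  have h2 := tauB_mul y x
  have h3 := (iotaE.hasSum_iff (f := fun i : Finset J × G =>
      (y : EllTwo (Finset J × G) →L[ℂ] EllTwo (Finset J × G)) (Om J G) (iotaE i) *
      (x : EllTwo (Finset J × G) →L[ℂ] EllTwo (Finset J × G)) (Om J G) i)
      (a := tauB J G s (y * x))).2 h2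
  refine h1.unique (h3.congr_fun ?_)
  intro i
  have e : iotaE (iotaE i) = i := iotaE.left_inv i
  show _ = (y : EllTwo (Finset J × G) →L[ℂ] EllTwo (Finset J × G)) (Om J G) (iotaE (iotaE i)) *
    (x : EllTwo (Finset J × G) →L[ℂ] EllTwo (Finset J × G)) (Om J G) (iotaE i)
  rw [e, mul_comm]

theorem tauB_star_mul {s : ℝ} (x : Elt (NB J G s)) : tauB J G s (star x * x) =
    ((‖(x : EllTwo (Finset J × G) →L[ℂ] EllTwo (Finset J × G)) (Om J G)‖ ^ 2 : ℝ) : ℂ) := by
  have h1 : tauB J G s (star x * x) =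
      ⟪(x : EllTwo (Finset J × G) →L[ℂ] EllTwo (Finset J × G)) (Om J G),
      (x : EllTwo (Finset J × G) →L[ℂ] EllTwo (Finset J × G)) (Om J G)⟫_ℂ := by
    rw [← ContinuousLinearMap.adjoint_inner_right, ← ContinuousLinearMap.star_eq_adjoint]
    rfl
  rw [h1, inner_self_eq_norm_sq_to_K]
  push_cast
  rfl

theorem faithful_NB (s : ℝ) : IsFaithfulTrace (tauB J G s) := by
  refine ⟨inner_bb_self _ _, tauB_comm, ?_⟩
  intro x hx
  rw [tauB_star_mul] at hx
  have h1 : ‖(x : EllTwo (Finset J × G) →L[ℂ] EllTwo (Finset J × G)) (Om J G)‖ ^ 2 = 0 := by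
    exact_mod_cast hx
  apply Subtype.ext
  exact NB_eq_zero x.2 (norm_eq_zero.1 (pow_eq_zero_iff two_ne_zero |>.1 h1))

theorem Eop_mem' (s : ℝ) (hs : 0 < s) (hs1 : s < 1) (j : J) (f : EllTwo (Finset J × G))
    (σ : Finset J) (k : G) : Eop G s j f (σ, k) =
    if j ∈ σ then ((1 - s : ℝ) : ℂ) * f (σ, k) +
      ((Real.sqrt (s * (1 - s)) : ℝ) : ℂ) * f (σ.erase j, k)
    else (s : ℂ) * f (σ, k) + ((Real.sqrt (s * (1 - s)) : ℝ) : ℂ) * f (insert j σ, k) := by
  have hr : 0 < Real.sqrt (s * (1 - s)) := Real.sqrt_pos.2 (mul_pos hs (by linarith))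
  set r := Real.sqrt (s * (1 - s)) with hr'
  have hrc : (r : ℂ) ≠ 0 := by exact_mod_cast hr.ne'
  show (s : ℂ) * f (σ, k) + (r : ℂ) * Hop ((1 - 2 * s) / r) (fun _ : G => j) f (σ, k) = _
  by_cases hj : j ∈ σ
  · rw [if_pos hj, Hop_mem _ (fun _ : G => j) _ hj, sd_mem hj]
    push_cast
    field_simp
    ring
  · rw [if_neg hj, Hop_notMem _ (fun _ : G => j) _ hj, sd_notMem hj]

theorem Eop_idem (s : ℝ) (hs : 0 < s) (hs1 : s < 1) (j : J) :
    Eop G s j * Eop G s j = Eop G s j := by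
  have h0 : 0 ≤ s * (1 - s) := (mul_pos hs (by linarith)).le
  have hr : 0 < Real.sqrt (s * (1 - s)) := Real.sqrt_pos.2 (mul_pos hs (by linarith))
  have hr2 : Real.sqrt (s * (1 - s)) ^ 2 = s * (1 - s) := Real.sq_sqrt h0
  unfold Eop
  set r := Real.sqrt (s * (1 - s)) with hr'
  have hrc : (r : ℂ) ≠ 0 := by exact_mod_cast hr.ne'
  have hr2c : (r : ℂ) ^ 2 = s * (1 - s) := by exact_mod_cast hr2
  have hsq := Hop_sq ((1 - 2 * s) / r) (fun _ : G => j)
  generalize Hop ((1 - 2 * s) / r) (fun _ : G => j) = h at hsq ⊢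
  have e : ((s : ℂ) • (1 : EllTwo (Finset J × G) →L[ℂ] EllTwo (Finset J × G)) + (r : ℂ) • h) *
      ((s : ℂ) • 1 + (r : ℂ) • h) = ((s : ℂ) * s) • 1 + (2 * s * r : ℂ) • h +
      ((r : ℂ) * r) • (h * h) := by
    simp only [add_mul, mul_add, smul_mul_assoc, mul_smul_comm, one_mul, mul_one, smul_add,
      smul_smul]
    rw [show (2 * s * r : ℂ) = s * r + r * s by ring, add_smul]
    abel
  rw [e, hsq, smul_add, smul_smul]
  have e2 : ((r : ℂ) * r) * (((1 - 2 * s) / r : ℝ) : ℂ) = r * (1 - 2 * s) := by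
    push_cast
    field_simp
  rw [e2]
  have e3 : ((s : ℂ) * s) • (1 : EllTwo (Finset J × G) →L[ℂ] EllTwo (Finset J × G)) +
      (2 * s * r : ℂ) • h + (((r : ℂ) * r) • 1 + (r * (1 - 2 * s) : ℂ) • h) =
      ((s : ℂ) * s + r ^ 2) • 1 + (2 * s * r + r * (1 - 2 * s) : ℂ) • h := by
    rw [add_smul, add_smul, sq]
    abel
  rw [e3, hr2c]
  congr 1
  · congr 1
    ring
  · congr 1
    ring

/-- TASK MOD: existence of the Bernoulli crossed products. -/
theorem exists_bm {J G : Type} [DecidableEq J] [Group G] [MulAction G J] (s : ℝ) (hs : 0 < s)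
    (hs1 : s < 1) :
    ∃ (N : VonNeumannAlgebra (EllTwo (Finset J × G))) (T : TracialState N)
      (Ω : EllTwo (Finset J × G)) (u : G →* Elt N) (e : J → Elt N)
      (hat : Elt N →ₗ[ℂ] EllTwo (Finset J × G)),
      (∀ x : Elt N, T.τ x = ⟪Ω, (x : EllTwo (Finset J × G) →L[ℂ] EllTwo (Finset J × G)) Ω⟫_ℂ) ∧
      (∀ x : Elt N, hat x = (x : EllTwo (Finset J × G) →L[ℂ] EllTwo (Finset J × G)) Ω) ∧
      BM T.τ s u e hat := by
  let T : TracialState (NB J G s) := mkState (NB J G s) (tauB J G s)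
    (normal_vector (NB J G s) _ (Om J G) fun _ => rfl) (faithful_NB s)
  let u : G →* Elt (NB J G s) :=
    { toFun := fun g => ⟨Uop J g, Uop_mem s g⟩
      map_one' := Subtype.ext Uop_one
      map_mul' := fun g h => Subtype.ext (Uop_mul g h) }
  let e : J → Elt (NB J G s) := fun j => ⟨Eop G s j, Eop_mem s j⟩
  let hat : Elt (NB J G s) →ₗ[ℂ] EllTwo (Finset J × G) :=
    { toFun := fun x => (x : EllTwo (Finset J × G) →L[ℂ] EllTwo (Finset J × G)) (Om J G)
      map_add' := fun x y => rfl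
      map_smul' := fun c x => rfl }
  have hT : ∀ x : Elt (NB J G s), T.τ x = tauB J G s x := fun x => rfl
  refine ⟨NB J G s, T, Om J G, u, e, hat, fun x => rfl, fun x => rfl, ?_⟩
  refine
    { tr := trAlg T
      s_pos := hs
      s_lt := hs1
      tau_eq := fun x => coef_sb _ _
      n2_eq := fun x => ?_
      hat_one := sb_self _
      hat_one' := fun i hi => sb_ne _ _ (Ne.symm hi)
      star_u := fun g => Subtype.ext (star_Uop g)
      star_e := fun j => Subtype.ext (star_Eop s j)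
      e_idem := fun j => Subtype.ext (Eop_idem s hs hs1 j)
      e_comm := fun j k => Subtype.ext ?_
      u_e := fun g j => Subtype.ext ?_
      hat_u := fun g x σ k => rfl
      hat_xu := fun g x σ k => ?_
      hat_e := fun j x σ k => Eop_mem' s hs hs1 j _ σ k
      hat_star := fun x σ k => NB_star x.2 (σ, k) }
  · unfold n2
    have h1 : T.τ (star x * x) =
        ((‖(x : EllTwo (Finset J × G) →L[ℂ] EllTwo (Finset J × G)) (Om J G)‖ ^ 2 : ℝ) : ℂ) :=
      tauB_star_mul x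
    rw [h1, Complex.ofReal_re, Real.sqrt_sq (norm_nonneg _)]
    rfl
  · show Eop G s j * Eop G s k = Eop G s k * Eop G s j
    refine Eop_comm_of ?_
    unfold Eop
    rw [mul_add, add_mul, smul_mul_assoc, smul_mul_assoc, mul_smul_comm, mul_smul_comm, one_mul,
      mul_one, Hop_comm]
  · show Uop J g * Eop G s j = Eop G s (g • j) * Uop J g
    unfold Eop
    rw [mul_add, add_mul, smul_mul_assoc, smul_mul_assoc, mul_smul_comm, mul_smul_comm, one_mul,
      mul_one, U_H _ g (fun _ => j) (fun _ => g • j) fun k => rfl]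
  · show (x : EllTwo (Finset J × G) →L[ℂ] EllTwo (Finset J × G)) (Uop J g (Om J G)) (σ, k) =
      (x : EllTwo (Finset J × G) →L[ℂ] EllTwo (Finset J × G)) (Om J G) (σ, k * g⁻¹)
    have h1 : Uop J g (Om J G) = Vop J g⁻¹ (Om J G) := by
      unfold Om
      rw [Uop_sb, Vop_sb, Finset.smul_finset_empty, mul_one, one_mul, inv_inv]
    rw [h1, NB_apply x.2 (Com_V s g⁻¹)]
    rfl

end Pool.Agent.H289R2.RS
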