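import Mathlib
import Pool.Agent.H289R2.RS.PVM
import Pool.Agent.H289R2.RS.ATM
import Pool.Agent.H289R2.RS.COMB

set_option autoImplicit false
set_option linter.unusedSectionVars false

namespace Pool.Agent.H289R2.RS

open Pool.Agent.Helper278 Pool.Agent.Helper436.AD

namespace NEG330

section gen

variable {A : Type} [Ring A] [StarRing A] [Algebra ℂ A] [StarModule ℂ A] {τ : A →ₗ[ℂ] ℂ}

theorem uni_l (y : A) (hy : y ∈ unitary A) (x : A) : n2 τ (y * x) = n2 τ x := by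
  unfold n2
  rw [star_mul, mul_assoc, ← mul_assoc (star y), (Unitary.mem_iff.1 hy).1, one_mul]

theorem uni_r (h : TrAlg τ) (y : A) (hy : y ∈ unitary A) (x : A) : n2 τ (x * y) = n2 τ x := by
  rw [← h.n2_star, star_mul, uni_l _ (Unitary.star_mem hy), h.n2_star]

theorem n2_one' (h : TrAlg τ) : n2 τ (1 : A) = 1 := by
  unfold n2
  rw [star_one, one_mul, h.one]
  simp

theorem n2_uni (h : TrAlg τ) (y : A) (hy : y ∈ unitary A) : n2 τ y = 1 := by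
  have := uni_l (τ := τ) y hy 1
  rw [mul_one] at this
  rw [this, n2_one' h]

theorem n2_smul' (h : TrAlg τ) (c : ℂ) (x : A) : n2 τ (c • x) = ‖c‖ * n2 τ x := by
  unfold n2
  rw [star_smul, smul_mul_smul_comm, map_smul]
  have : star c * c = ((‖c‖ ^ 2 : ℝ) : ℂ) := by
    rw [Complex.star_def, ← Complex.normSq_eq_conj_mul_self, Complex.normSq_eq_norm_sq]
  rw [this, smul_eq_mul, Complex.re_ofReal_mul, Real.sqrt_mul (sq_nonneg _),
    Real.sqrt_sq (norm_nonneg _)]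

theorem n2s_eq (h : TrAlg τ) (x : A) : n2s τ x = n2 τ x ^ 2 := (h.n2_sq x).symm

theorem pert (h : TrAlg τ) (y w W t : A) (hy : y ∈ unitary A) (hw : w ∈ unitary A)
    (hW : W ∈ unitary A) (ht : t ∈ unitary A) (c η : ℝ) (hc0 : 0 ≤ c) (hc : c ≤ 2)
    (hη : n2 τ (w - W) ≤ η) :
    ‖τ (y * (1 + W) * t * (1 - W) * star t - (c : ℂ) • (y * (1 + W)))‖ ≤
      ‖τ (y * (1 + w) * t * (1 - w) * star t - (c : ℂ) • (y * (1 + w)))‖ + 6 * η := by
  have e1 : y * (1 + W) * t * (1 - W) * star t = y * (1 + w) * t * (1 - w) * star t -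
      ((y * (w - W)) * (t * (1 - w) * star t) + (y * (1 + W)) * (t * (W - w) * star t)) := by
    noncomm_ring
  have e2 : (c : ℂ) • (y * (1 + W)) = (c : ℂ) • (y * (1 + w)) - (c : ℂ) • (y * (w - W)) := by
    rw [← smul_sub]
    congr 1
    noncomm_ring
  have e3 : y * (1 + W) * t * (1 - W) * star t - (c : ℂ) • (y * (1 + W)) =
      (y * (1 + w) * t * (1 - w) * star t - (c : ℂ) • (y * (1 + w))) -
      (y * (w - W)) * (t * (1 - w) * star t) - (y * (1 + W)) * (t * (W - w) * star t) +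
      (c : ℂ) • (y * (w - W)) := by
    rw [e1, e2]; abel
  have hst : star t ∈ unitary A := Unitary.star_mem ht
  have b1 : ‖τ ((y * (w - W)) * (t * (1 - w) * star t))‖ ≤ η * 2 := by
    refine (h.cauchy' _ _).trans ?_
    rw [uni_l _ hy, uni_r h _ hst, uni_l _ ht]
    have : n2 τ (1 - w) ≤ 2 := by
      have := h.n2_sub_le 1 w
      rw [n2_one' h, n2_uni h w hw] at this
      linarith
    exact mul_le_mul hη this (n2_nonneg _ _) ((n2_nonneg _ _).trans hη)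
  have b2 : ‖τ ((y * (1 + W)) * (t * (W - w) * star t))‖ ≤ 2 * η := by
    refine (h.cauchy' _ _).trans ?_
    rw [uni_l _ hy, uni_r h _ hst, uni_l _ ht, h.n2_sub_comm W w]
    have : n2 τ (1 + W) ≤ 2 := by
      have := h.n2_add_le 1 W
      rw [n2_one' h, n2_uni h W hW] at this
      linarith
    exact mul_le_mul this hη (n2_nonneg _ _) (by norm_num)
  have b3 : ‖τ ((c : ℂ) • (y * (w - W)))‖ ≤ 2 * η := by
    rw [map_smul, norm_smul, Complex.norm_real, Real.norm_of_nonneg hc0]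
    have := h.cauchy' y (w - W)
    rw [n2_uni h y hy, one_mul] at this
    exact mul_le_mul hc (this.trans hη) (norm_nonneg _) (by norm_num)
  rw [e3, map_add, map_sub, map_sub]
  calc _ ≤ ‖τ (y * (1 + w) * t * (1 - w) * star t - (c : ℂ) • (y * (1 + w))) -
      τ ((y * (w - W)) * (t * (1 - w) * star t)) - τ ((y * (1 + W)) * (t * (W - w) * star t))‖ +
      ‖τ ((c : ℂ) • (y * (w - W)))‖ := norm_add_le _ _
    _ ≤ (‖τ (y * (1 + w) * t * (1 - w) * star t - (c : ℂ) • (y * (1 + w))) -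
      τ ((y * (w - W)) * (t * (1 - w) * star t))‖ + ‖τ ((y * (1 + W)) * (t * (W - w) * star t))‖) +
      ‖τ ((c : ℂ) • (y * (w - W)))‖ := by gcongr; exact norm_sub_le _ _
    _ ≤ ((‖τ (y * (1 + w) * t * (1 - w) * star t - (c : ℂ) • (y * (1 + w)))‖ +
      ‖τ ((y * (w - W)) * (t * (1 - w) * star t))‖) + ‖τ ((y * (1 + W)) * (t * (W - w) * star t))‖) +
      ‖τ ((c : ℂ) • (y * (w - W)))‖ := by gcongr; exact norm_sub_le _ _
    _ ≤ _ := by linarith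

end gen

section part

variable {A : Type} [Ring A] [StarRing A] [Algebra ℂ A] [StarModule ℂ A] {τ : A →ₗ[ℂ] ℂ}
  {S : Type} [Fintype S] [DecidableEq S] {P : S → A} {μ : S → ℝ}

theorem coupsum (h : TrAlg τ) (hP : PVM P) (t : A) (f g : S → ℂ) :
    τ (Th P f * t * Th P g * star t) =
      ∑ a, ∑ b, f a * g b * ((n2 τ (P a * t * P b) ^ 2 : ℝ) : ℂ) := by
  unfold Th
  rw [Finset.sum_mul, Finset.sum_mul, Finset.sum_mul, map_sum]
  apply Finset.sum_congr rfl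
  intro a _
  rw [Finset.mul_sum, Finset.sum_mul, map_sum]
  apply Finset.sum_congr rfl
  intro b _
  have : f a • P a * t * (g b • P b) * star t = (f a * g b) • (P a * t * P b * star t) := by
    simp only [smul_mul_assoc, mul_smul_comm, smul_smul]
    rw [mul_comm]
  rw [this, map_smul, coup_eq h hP, smul_eq_mul]

/-- `1` on `E`, `-1` off `E` -/
noncomputable def chi (E : Finset S) : S → ℂ := fun a => if a ∈ E then 1 else -1

theorem chi_unitary (hP : PVM P) (E : Finset S) : Th P (chi E) ∈ unitary A := by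
  apply Th_unitary hP
  intro a
  unfold chi
  split_ifs <;> simp

theorem Mgen (h : TrAlg τ) (hP : PVM P) (hμ : ∀ a, τ (P a) = (μ a : ℂ)) (E : Finset S)
    (ρ σ : ℝ) (hρ0 : 0 ≤ ρ) (hρ1 : ρ ≤ 1) (hσ : 0 ≤ σ) (w t : A) (hw : w ∈ unitary A)
    (ht : t ∈ unitary A) (hW : n2 τ (w - Th P (chi E)) ≤ 247 * σ)
    (H : ∀ u : S → ℝ, (∀ a, u a = 1 ∨ u a = -1) →
      ‖τ (Th P (fun a => (u a : ℂ)) * (1 + w) * t * (1 - w) * star t -
        ((2 * ρ : ℝ) : ℂ) • (Th P (fun a => (u a : ℂ)) * (1 + w)))‖ ^ 2 ≤ 2 * σ ^ 2) :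
    ∑ a ∈ E, |∑ b ∈ Eᶜ, n2 τ (P a * t * P b) ^ 2 - ρ * μ a| ≤ 62500 * σ := by
  set X : S → ℝ := fun a => ∑ b ∈ Eᶜ, n2 τ (P a * t * P b) ^ 2 - ρ * μ a with hX
  let u : S → ℝ := fun a => if 0 ≤ X a then 1 else -1
  have hu : ∀ a, u a = 1 ∨ u a = -1 := by
    intro a
    by_cases hh : 0 ≤ X a <;> simp [u, hh]
  have huX : ∀ a, u a * X a = |X a| := by
    intro a
    by_cases hh : 0 ≤ X a
    · simp [u, hh, abs_of_nonneg hh]
    · simp [u, hh, abs_of_neg (not_le.1 hh)]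
  have H1 := H u hu
  have H2 : ‖τ (Th P (fun a => (u a : ℂ)) * (1 + w) * t * (1 - w) * star t -
        ((2 * ρ : ℝ) : ℂ) • (Th P (fun a => (u a : ℂ)) * (1 + w)))‖ ≤ 2 * σ := by
    apply le_of_sq_le_sq _ (by positivity)
    nlinarith [sq_nonneg σ]
  have hy : Th P (fun a => (u a : ℂ)) ∈ unitary A := Th_unitary hP _ (by
    intro a
    rcases hu a with h | h <;> simp [h])
  have H3 := pert h _ w (Th P (chi E)) t hy hw (chi_unitary hP E) ht (2 * ρ) (247 * σ)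
    (by linarith) (by linarith) hW
  have e1 : (1 : A) + Th P (chi E) = Th P (fun a => 1 + chi E a) := by rw [Th_add, Th_one hP]
  have e2 : (1 : A) - Th P (chi E) = Th P (fun a => 1 - chi E a) := by rw [Th_sub, Th_one hP]
  let f : S → ℝ := fun a => if a ∈ E then 2 * u a else 0
  let g : S → ℝ := fun a => if a ∈ Eᶜ then 2 else 0
  have ef : (fun a => (u a : ℂ) * (1 + chi E a)) = fun a => ((f a : ℝ) : ℂ) := by
    funext a
    simp only [f, chi]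
    split_ifs <;> push_cast <;> ring
  have eg : (fun a => 1 - chi E a) = fun a => ((g a : ℝ) : ℂ) := by
    funext a
    simp only [g, chi, Finset.mem_compl]
    by_cases ha : a ∈ E
    · simp [ha]
    · simp [ha]; norm_num
  have e3 : τ (Th P (fun a => (u a : ℂ)) * (1 + Th P (chi E)) * t * (1 - Th P (chi E)) * star t -
      ((2 * ρ : ℝ) : ℂ) • (Th P (fun a => (u a : ℂ)) * (1 + Th P (chi E)))) =
      ((4 * ∑ a ∈ E, |X a| : ℝ) : ℂ) := by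
    rw [e1, e2, ← Th_mul hP, ef, eg, map_sub, coupsum h hP, map_smul, tau_Th hμ, smul_eq_mul]
    rw [show (∑ a, ∑ b, ((f a : ℝ) : ℂ) * ((g b : ℝ) : ℂ) * ((n2 τ (P a * t * P b) ^ 2 : ℝ) : ℂ)) -
      ((2 * ρ : ℝ) : ℂ) * ∑ a, (μ a : ℂ) * ((f a : ℝ) : ℂ) =
      ((∑ a, ∑ b, f a * g b * n2 τ (P a * t * P b) ^ 2 - 2 * ρ * ∑ a, μ a * f a : ℝ) : ℂ) by
        push_cast; ring]
    congr 1
    have e4 : ∀ a, ∑ b, f a * g b * n2 τ (P a * t * P b) ^ 2 =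
        f a * (2 * ∑ b ∈ Eᶜ, n2 τ (P a * t * P b) ^ 2) := by
      intro a
      rw [Finset.mul_sum, Finset.mul_sum]
      have : ∀ b, f a * g b * n2 τ (P a * t * P b) ^ 2 =
          if b ∈ Eᶜ then f a * (2 * n2 τ (P a * t * P b) ^ 2) else 0 := by
        intro b
        simp only [g]
        split_ifs <;> ring
      rw [Finset.sum_congr rfl (fun b _ => this b), Finset.sum_ite_mem, Finset.univ_inter]
    rw [Finset.sum_congr rfl (fun a _ => e4 a), Finset.mul_sum, ← Finset.sum_sub_distrib,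
      Finset.mul_sum]
    have e5 : ∀ a, f a * (2 * ∑ b ∈ Eᶜ, n2 τ (P a * t * P b) ^ 2) - 2 * ρ * (μ a * f a) =
        if a ∈ E then 4 * |X a| else 0 := by
      intro a
      rw [← huX a]
      simp only [f, hX]
      split_ifs <;> ring
    rw [Finset.sum_congr rfl (fun a _ => e5 a), Finset.sum_ite_mem, Finset.univ_inter]
  rw [e3, Complex.norm_real, Real.norm_of_nonneg (by positivity)] at H3
  linarith

theorem Agen (h : TrAlg τ) (hP : PVM P) (hμ : ∀ a, τ (P a) = (μ a : ℂ)) (hpos : ∀ a, 0 < μ a)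
    (E : Finset S) (σ : ℝ) (hσ : 0 ≤ σ) (hσ1 : σ ≤ 1) (w y₁ y₂ : A)
    (hy₁ : y₁ ∈ unitary A) (hy₂ : y₂ ∈ unitary A)
    (hW : n2 τ (w - Th P (chi E)) ≤ 247 * σ) (u : S → ℂ)
    (H : n2 τ ((2 : ℂ) • Th P u - (1 + w) * y₁ - (1 - w) * y₂) ^ 2 ≤ 2 * σ ^ 2) :
    ∑ a ∈ E, μ a * ‖cf τ P y₁ a - u a‖ ^ 2 ≤ 62500 * σ := by
  let I : S → ℂ := fun a => if a ∈ E then 1 else 0
  set Q := Th P I with hQ
  set W := Th P (chi E) with hWd
  set Y := Th P u with hY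
  set Z := (2 : ℂ) • Y - (1 + w) * y₁ - (1 - w) * y₂ with hZ
  have hI : ∀ a, ‖I a‖ ≤ 1 := by
    intro a
    simp only [I]
    split_ifs <;> simp
  have q1 : Q * (1 + W) = (2 : ℂ) • Q := by
    rw [hWd, show (1 : A) + Th P (chi E) = Th P (fun a => 1 + chi E a) by rw [Th_add, Th_one hP],
      hQ, ← Th_mul hP, ← Th_smul]
    congr 1
    funext a
    simp only [I, chi]
    split_ifs <;> norm_num
  have q2 : Q * (1 - W) = 0 := by
    rw [hWd, show (1 : A) - Th P (chi E) = Th P (fun a => 1 - chi E a) by rw [Th_sub, Th_one hP],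
      hQ, ← Th_mul hP]
    have : (fun a => I a * (1 - chi E a)) = fun _ => (0 : ℂ) := by
      funext a
      simp only [I, chi]
      split_ifs <;> norm_num
    rw [this]
    simp [Th]
  have e1 : (2 : ℂ) • (Q * (Y - y₁)) = Q * Z + Q * ((w - W) * y₁) - Q * ((w - W) * y₂) := by
    have a1 : Q * Z = (2 : ℂ) • (Q * Y) - Q * (1 + w) * y₁ - Q * (1 - w) * y₂ := by
      rw [hZ, mul_sub, mul_sub, mul_smul_comm]; noncomm_ring
    have a2 : Q * ((w - W) * y₁) = Q * (1 + w) * y₁ - Q * (1 + W) * y₁ := by noncomm_ring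
    have a3 : Q * ((w - W) * y₂) = Q * (1 - W) * y₂ - Q * (1 - w) * y₂ := by noncomm_ring
    rw [a1, a2, a3, q1, q2, zero_mul, mul_sub, smul_sub, smul_mul_assoc]
    abel
  have hZn : n2 τ Z ≤ 2 * σ := by
    apply le_of_sq_le_sq _ (by positivity)
    nlinarith [sq_nonneg σ]
  have hd : ∀ y ∈ unitary A, n2 τ (Q * ((w - W) * y)) ≤ 247 * σ := by
    intro y hy
    refine (n2_Th_mul h hP I 1 hI _).trans ?_
    rw [one_mul, uni_r h y hy]
    exact hW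
  have e2 : 2 * n2 τ (Q * (Y - y₁)) ≤ 2 * σ + 247 * σ + 247 * σ := by
    have : n2 τ ((2 : ℂ) • (Q * (Y - y₁))) = 2 * n2 τ (Q * (Y - y₁)) := by
      rw [n2_smul' h]; norm_num
    rw [← this, e1]
    refine (h.n2_sub_le _ _).trans ?_
    refine add_le_add ((h.n2_add_le _ _).trans (add_le_add ?_ (hd y₁ hy₁))) (hd y₂ hy₂)
    refine (n2_Th_mul h hP I 1 hI _).trans ?_
    rw [one_mul]
    exact hZn
  have e3 : ∀ a, cf τ P (Q * (Y - y₁)) a = I a * (u a - cf τ P y₁ a) := by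
    intro a
    rw [hQ, cf_mul h hP hμ hpos]
    congr 1
    have := congrFun (cf_Th h hP hμ hpos u) a
    rw [← this, ← hY]
    unfold cf
    rw [sub_mul, map_sub, sub_div]
  have e4 := n2_cf_le h hP hμ hpos (Q * (Y - y₁))
  have e5 : n2 τ (Th P (cf τ P (Q * (Y - y₁)))) ^ 2 = ∑ a ∈ E, μ a * ‖cf τ P y₁ a - u a‖ ^ 2 := by
    rw [n2_Th h hP hμ]
    have : ∀ a, μ a * ‖cf τ P (Q * (Y - y₁)) a‖ ^ 2 =
        if a ∈ E then μ a * ‖cf τ P y₁ a - u a‖ ^ 2 else 0 := by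
      intro a
      rw [e3]
      simp only [I]
      split_ifs
      · rw [one_mul, norm_sub_rev]
      · simp
    rw [Finset.sum_congr rfl (fun a _ => this a), Finset.sum_ite_mem, Finset.univ_inter]
  rw [← e5]
  have e6 : n2 τ (Th P (cf τ P (Q * (Y - y₁)))) ≤ 248 * σ := by linarith
  have e7 : n2 τ (Th P (cf τ P (Q * (Y - y₁)))) ^ 2 ≤ (248 * σ) ^ 2 :=
    pow_le_pow_left₀ (n2_nonneg _ _) e6 2
  nlinarith

theorem part1 (h : TrAlg τ) (hP : PVM P) (hμ : ∀ a, τ (P a) = (μ a : ℂ)) (hpos : ∀ a, 0 < μ a)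
    (E : Finset S) (r κ σ : ℝ) (hr : 0 < r) (hr1 : r < 1) (hκ : 0 < κ) (hκ1 : κ ≤ 1)
    (hσ : 0 ≤ σ) (hσ1 : σ ≤ 1) (w t : A) (hw : w ∈ unitary A) (ht : t ∈ unitary A)
    (hW : n2 τ (w - Th P (chi E)) ≤ 247 * σ)
    (hgap : ∀ a b, κ * μ a ≤ |(1 - r) * μ a - r * μ b|)
    (H : ∀ u : S → ℝ, (∀ a, u a = 1 ∨ u a = -1) →
      ‖τ (Th P (fun a => (u a : ℂ)) * (1 + w) * t * (1 - w) * star t -
        ((2 * (1 - r) : ℝ) : ℂ) • (Th P (fun a => (u a : ℂ)) * (1 + w)))‖ ^ 2 ≤ 2 * σ ^ 2 ∧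
      ‖τ (Th P (fun a => (u a : ℂ)) * (1 - w) * star t * (1 + w) * t -
        ((2 * r : ℝ) : ℂ) • (Th P (fun a => (u a : ℂ)) * (1 - w)))‖ ^ 2 ≤ 2 * σ ^ 2 ∧
      ∃ y₁ ∈ unitary A, ∃ y₂ ∈ unitary A,
        n2 τ ((2 : ℂ) • Th P (fun a => (u a : ℂ)) - (1 + w) * y₁ - (1 - w) * y₂) ^ 2 ≤ 2 * σ ^ 2 ∧
        (∑ a, ∑ b, n2 τ (P a * t * P b) ^ 2 * ‖cf τ P y₁ a - cf τ P y₁ b‖ ^ 2 ≤ 62500 * σ) ∧
        ∑ a, ∑ b, n2 τ (P a * t * P b) ^ 2 * ‖cf τ P y₂ a - cf τ P y₂ b‖ ^ 2 ≤ 62500 * σ) :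
    κ * r * (1 - r) ≤ 51 * (62500 * σ) := by
  have hW' : n2 τ (-w - Th P (chi Eᶜ)) ≤ 247 * σ := by
    have : Th P (chi Eᶜ) = - Th P (chi E) := by
      have e : chi Eᶜ = fun a => (-1 : ℂ) * chi E a := by
        funext a
        simp only [chi, Finset.mem_compl]
        by_cases ha : a ∈ E <;> simp [ha]
      rw [e, Th_smul]
      simp
    rw [this, show -w - -Th P (chi E) = -(w - Th P (chi E)) by abel, h.n2_neg]
    exact hW
  have hnw : -w ∈ unitary A := by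
    rw [Unitary.mem_iff] at hw ⊢
    rw [star_neg, neg_mul_neg, neg_mul_neg]
    exact hw
  have hswap : ∀ a b, n2 τ (P a * star t * P b) = n2 τ (P b * t * P a) := by
    intro a b
    rw [← h.n2_star, star_mul, star_mul, star_star, hP.star_eq, hP.star_eq, mul_assoc]
  apply comb μ E (fun a b => n2 τ (P a * t * P b) ^ 2) r κ (62500 * σ) hr hr1 hκ hκ1
    (by positivity) (fun a => (hpos a).le) (sum_mu h hP hμ) (fun a b => by positivity)
    (fun a => (coup_row h hP hμ t ht a).le) (fun b => (coup_col h hP hμ t ht b).le) hgap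
  · exact Mgen h hP hμ E (1 - r) σ (by linarith) (by linarith) hσ w t hw ht hW
      (fun u hu => (H u hu).1)
  · have := Mgen h hP hμ Eᶜ r σ (by linarith) (by linarith) hσ (-w) (star t) hnw
      (Unitary.star_mem ht) hW' (fun u hu => by
        have := (H u hu).2.1
        rw [star_star, sub_neg_eq_add, ← sub_eq_add_neg]
        exact this)
    rw [compl_compl] at this
    simp only [hswap] at this
    exact this
  · intro u hu
    obtain ⟨y₁, hy₁, y₂, hy₂, h1, h2, h3⟩ := (H u hu).2.2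
    exact ⟨cf τ P y₁, Agen h hP hμ hpos E σ hσ hσ1 w y₁ y₂ hy₁ hy₂ hW _ h1, h2⟩
  · intro u hu
    obtain ⟨y₁, hy₁, y₂, hy₂, h1, h2, h3⟩ := (H u hu).2.2
    refine ⟨cf τ P y₂, Agen h hP hμ hpos Eᶜ σ hσ hσ1 (-w) y₂ y₁ hy₂ hy₁ hW'
      (fun a => (u a : ℂ)) ?_, h3⟩
    rw [sub_neg_eq_add, ← sub_eq_add_neg, sub_right_comm]
    exact h1

end part

section wch

variable {A : Type} [Ring A] [StarRing A] [Algebra ℂ A] [StarModule ℂ A] {τ : A →ₗ[ℂ] ℂ}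
  {S : Type} [Fintype S] [DecidableEq S] {P : S → A} {μ : S → ℝ}

theorem wchi (h : TrAlg τ) (hP : PVM P) (hμ : ∀ a, τ (P a) = (μ a : ℂ)) (hpos : ∀ a, 0 < μ a)
    (w : A) (hw : w ∈ unitary A) (G : S → ℂ) (hG : ∀ a, ‖G a‖ ≤ 1) (σ : ℝ)
    (h1 : n2 τ (w - Th P G) ≤ 82 * σ) (h2 : n2 τ (w * w - 1) ≤ σ) :
    ∃ E : Finset S, n2 τ (w - Th P (chi E)) ≤ 247 * σ := by
  classical
  refine ⟨Finset.univ.filter (fun a => 0 ≤ (G a).re), ?_⟩
  set E := Finset.univ.filter (fun a => 0 ≤ (G a).re) with hE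
  have key : ∀ a, ‖G a - chi E a‖ ≤ ‖G a * G a - 1‖ := by
    intro a
    by_cases ha : 0 ≤ (G a).re
    · have : chi E a = 1 := by simp [chi, hE, ha]
      rw [this, show G a * G a - 1 = (G a - 1) * (G a + 1) by ring, norm_mul]
      have h1 : 1 ≤ ‖G a + 1‖ := by
        have := Complex.re_le_norm (G a + 1)
        simp at this
        linarith
      exact le_mul_of_one_le_right (norm_nonneg _) h1
    · have : chi E a = -1 := by simp [chi, hE, ha]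
      rw [this, show G a * G a - 1 = (G a - -1) * (G a - 1) by ring, norm_mul]
      have h1 : 1 ≤ ‖G a - 1‖ := by
        have := Complex.re_le_norm (-(G a - 1))
        rw [norm_neg] at this
        simp at this
        linarith
      exact le_mul_of_one_le_right (norm_nonneg _) h1
  have e1 : n2 τ (Th P (fun a => G a - chi E a)) ≤ n2 τ (Th P (fun a => G a * G a - 1)) := by
    have : n2 τ (Th P (fun a => G a - chi E a)) ^ 2 ≤
        n2 τ (Th P (fun a => G a * G a - 1)) ^ 2 := by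
      rw [n2_Th h hP hμ, n2_Th h hP hμ]
      apply Finset.sum_le_sum
      intro a _
      apply mul_le_mul_of_nonneg_left _ (hpos a).le
      exact pow_le_pow_left₀ (norm_nonneg _) (key a) 2
    exact le_of_sq_le_sq this (n2_nonneg _ _)
  have e2 : Th P (fun a => G a * G a - 1) =
      (w * w - 1) - (w * (w - Th P G) + (w - Th P G) * Th P G) := by
    rw [Th_sub, Th_mul hP, Th_one hP]
    noncomm_ring
  have e3 : n2 τ (Th P (fun a => G a * G a - 1)) ≤ 165 * σ := by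
    rw [e2]
    refine (h.n2_sub_le _ _).trans ?_
    have a1 := h.n2_add_le (w * (w - Th P G)) ((w - Th P G) * Th P G)
    have a2 := n2_mul_Th h hP G 1 hG (w - Th P G)
    rw [uni_l w hw] at a1
    linarith
  have e4 : w - Th P (chi E) = (w - Th P G) + Th P (fun a => G a - chi E a) := by
    rw [Th_sub]; abel
  rw [e4]
  refine (h.n2_add_le _ _).trans ?_
  linarith

end wch

section lev

variable {A : Type} [Ring A] [StarRing A] [Algebra ℂ A] [StarModule ℂ A] {τ : A →ₗ[ℂ] ℂ}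
  {s : ℝ} {e : ℕ → A} {p q : A} {v t : ℕ → A} {B D : ℕ → StarSubalgebra ℂ A}

theorem comm_B (h : RD τ s e p q v t B D) {n i : ℕ} (hi : n ≤ i) {b : A} (hb : b ∈ B n) :
    b * e i = e i * b :=
  h.D_comm i b (h.B_D i (h.B_mono n i hi hb))

theorem sum_app {k l : ℕ} {M : Type} [AddCommMonoid M] (F : (Fin (k + l) → Bool) → M) :
    ∑ ω, F ω = ∑ ω : Fin k → Bool, ∑ ω' : Fin l → Bool, F (Fin.append ω ω') := by
  rw [← Fintype.sum_prod_type']
  exact (Fintype.sum_equiv (Fin.appendEquiv k l) _ _ (fun x => rfl)).symm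

theorem proj_eq (h : RD τ s e p q v t B D) (n k l : ℕ) (y b : A) (hb : b ∈ B (n + k)) :
    τ (b * Th (atm e n (k + l)) (cf τ (atm e n (k + l)) y)) =
      τ (b * Th (atm e n k) (cf τ (atm e n k) y)) := by
  have c1 : ∀ ω : Fin k → Bool, cf τ (atm e n k) y ω =
      ∑ ω' : Fin l → Bool, cf τ (atm e n (k + l)) y (Fin.append ω ω') * ((wt s ω' : ℝ) : ℂ) := by
    intro ω
    have hw := wt_pos h.s_pos h.s_lt ω
    have e1 : atm e n k ω = ∑ ω' : Fin l → Bool, atm e n (k + l) (Fin.append ω ω') := by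
      simp only [atm_append]
      rw [← Finset.mul_sum, (atm_pvm h (n + k) l).sum, mul_one]
    have e2 : cf τ (atm e n k) y ω =
        (∑ ω' : Fin l → Bool, τ (y * atm e n (k + l) (Fin.append ω ω'))) / ((wt s ω : ℝ) : ℂ) := by
      unfold cf
      rw [tau_atm_one h, e1, Finset.mul_sum, map_sum]
    rw [e2, Finset.sum_div]
    apply Finset.sum_congr rfl
    intro ω' _
    unfold cf
    rw [tau_atm_one h, wt_append]
    have hw' := wt_pos h.s_pos h.s_lt ω'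
    have a1 : ((wt s ω : ℝ) : ℂ) ≠ 0 := by exact_mod_cast hw.ne'
    have a2 : ((wt s ω' : ℝ) : ℂ) ≠ 0 := by exact_mod_cast hw'.ne'
    push_cast
    field_simp
  unfold Th
  rw [sum_app, Finset.mul_sum, Finset.mul_sum, map_sum, map_sum]
  apply Finset.sum_congr rfl
  intro ω _
  rw [c1, Finset.mul_sum, map_sum, mul_smul_comm, map_smul, smul_eq_mul, Finset.sum_mul]
  apply Finset.sum_congr rfl
  intro ω' _
  rw [mul_smul_comm, map_smul, smul_eq_mul, atm_append, ← mul_assoc,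
    tau_atm h (n + k) l _ (mul_mem hb (atm_mem_B h n k ω))]
  ring

theorem lev (h : RD τ s e p q v t B D) (n k : ℕ) (x t0 y : A) (hx : x ∈ unitary A)
    (hy : y ∈ unitary A) (ht0 : t0 ∈ B (n + k)) (σ : ℝ) (hσ : 0 < σ) (hσ1 : σ ≤ 1)
    (h1 : n2 τ (x - t0) ≤ σ)
    (h2 : n2 τ (p * y - y * p) ≤ 29 / 20 * σ) (h3 : n2 τ (q * y - y * q) ≤ 29 / 20 * σ)
    (h4 : n2 τ (v n * y - y * v n) ≤ 29 / 20 * σ) (h5 : n2 τ (y * x - x * y) ≤ 29 / 20 * σ) :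
    ∑ a, ∑ b, n2 τ (atm e n k a * x * atm e n k b) ^ 2 *
      ‖cf τ (atm e n k) y a - cf τ (atm e n k) y b‖ ^ 2 ≤ 62500 * σ := by
  obtain ⟨z, hz, hz1⟩ := h.gap n y σ hσ
  have hz2 : n2 τ (y - z) ≤ 120 * σ := by linarith
  obtain ⟨k₀, hk₀⟩ := exists_level h n z hz
  obtain ⟨f, hf⟩ := hk₀ (k + k₀) (Nat.le_add_left _ _)
  have hP := atm_pvm h n k
  have hP' := atm_pvm h n (k + k₀)
  have hμ : ∀ a, τ (atm e n k a) = ((wt s a : ℝ) : ℂ) := tau_atm_one h n k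
  have hμ' : ∀ a, τ (atm e n (k + k₀) a) = ((wt s a : ℝ) : ℂ) := tau_atm_one h n _
  obtain ⟨y', hy'⟩ : ∃ y', y' = Th (atm e n (k + k₀)) (cf τ (atm e n (k + k₀)) y) := ⟨_, rfl⟩
  have hyy : n2 τ (y - y') ≤ 120 * σ := by
    rw [hy']
    refine (cf_best h.tr hP' hμ' (fun a => wt_pos h.s_pos h.s_lt a) y f).trans ?_
    rw [← hf]
    exact hz2
  have hc' : ∀ a, ‖cf τ (atm e n (k + k₀)) y a‖ ≤ 1 :=
    cf_le h.tr hP' hμ' (fun a => wt_pos h.s_pos h.s_lt a) y hy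
  have hc : ∀ a, ‖cf τ (atm e n k) y a‖ ≤ 1 :=
    cf_le h.tr hP hμ (fun a => wt_pos h.s_pos h.s_lt a) y hy
  obtain ⟨T, hT⟩ : ∃ T, T = Th (atm e n k) (cf τ (atm e n k) y) := ⟨_, rfl⟩
  obtain ⟨β, hβ⟩ : ∃ β, β = T * t0 - t0 * T := ⟨_, rfl⟩
  have hTB : T ∈ B (n + k) := by
    rw [hT]
    exact sum_mem (fun a _ => (B (n + k)).smul_mem (atm_mem_B h n k a) _)
  have hβB : β ∈ B (n + k) := by
    rw [hβ]
    exact sub_mem (mul_mem hTB ht0) (mul_mem ht0 hTB)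
  have hβs : star β ∈ B (n + k) := star_mem hβB
  have hγ : t0 * star β - star β * t0 ∈ B (n + k) :=
    sub_mem (mul_mem ht0 hβs) (mul_mem hβs ht0)
  have a1 : ∀ Y : A, τ (star β * (Y * t0 - t0 * Y)) = τ ((t0 * star β - star β * t0) * Y) := by
    intro Y
    rw [mul_sub, sub_mul, map_sub, map_sub]
    congr 1
    · rw [← mul_assoc, h.tr.comm, ← mul_assoc]
    · rw [mul_assoc]
  have e1 : τ (star β * β) = τ (star β * (y' * t0 - t0 * y')) := by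
    have e0 : τ (star β * β) = τ (star β * (T * t0 - t0 * T)) := by rw [← hβ]
    rw [e0, a1 T, a1 y', hT, hy']
    exact (proj_eq h n k k₀ y _ hγ).symm
  have e2 : n2 τ β ≤ n2 τ (y' * t0 - t0 * y') := by
    have b1 : n2 τ β ^ 2 ≤ n2 τ β * n2 τ (y' * t0 - t0 * y') := by
      rw [h.tr.n2_sq, e1]
      exact (Complex.re_le_norm _).trans (h.tr.cauchy _ _)
    rcases (n2_nonneg τ β).eq_or_lt with b2 | b2
    · rw [← b2]
      exact n2_nonneg _ _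
    · rw [sq] at b1
      exact le_of_mul_le_mul_left b1 b2
  have e3 : n2 τ (y' * t0 - t0 * y') ≤ 244 * σ := by
    have d0 : y' * t0 - t0 * y' = (y * x - x * y) - ((y - y') * x - x * (y - y')) -
        (y' * (x - t0) - (x - t0) * y') := by noncomm_ring
    have d1 := h.tr.n2_sub_le ((y - y') * x) (x * (y - y'))
    rw [uni_l x hx, uni_r h.tr x hx] at d1
    have d2 := h.tr.n2_sub_le (y' * (x - t0)) ((x - t0) * y')
    have d3 : n2 τ (y' * (x - t0)) ≤ 1 * n2 τ (x - t0) := by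
      rw [hy']; exact n2_Th_mul h.tr hP' _ 1 hc' _
    have d4 : n2 τ ((x - t0) * y') ≤ 1 * n2 τ (x - t0) := by
      rw [hy']; exact n2_mul_Th h.tr hP' _ 1 hc' _
    have d5 := h.tr.n2_sub_le ((y * x - x * y) - ((y - y') * x - x * (y - y')))
        (y' * (x - t0) - (x - t0) * y')
    have d6 := h.tr.n2_sub_le (y * x - x * y) ((y - y') * x - x * (y - y'))
    rw [d0]
    linarith
  have e4 : n2 τ (T * x - x * T) ≤ 246 * σ := by
    have d0 : T * x - x * T = β + (T * (x - t0) - (x - t0) * T) := by rw [hβ]; noncomm_ring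
    have d1 := h.tr.n2_add_le β (T * (x - t0) - (x - t0) * T)
    have d2 := h.tr.n2_sub_le (T * (x - t0)) ((x - t0) * T)
    have d3 : n2 τ (T * (x - t0)) ≤ 1 * n2 τ (x - t0) := by
      rw [hT]; exact n2_Th_mul h.tr hP _ 1 hc _
    have d4 : n2 τ ((x - t0) * T) ≤ 1 * n2 τ (x - t0) := by
      rw [hT]; exact n2_mul_Th h.tr hP _ 1 hc _
    rw [d0]
    linarith
  rw [← n2_comm_Th h.tr hP, ← hT]
  have e5 : n2 τ (T * x - x * T) ^ 2 ≤ (246 * σ) ^ 2 := pow_le_pow_left₀ (n2_nonneg _ _) e4 2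
  nlinarith

/-- sum of the squares of the commutators -/
noncomputable def D5 (φ : A → ℂ) (a b c d g z : A) : ℝ :=
  n2s φ (cmt a z) + n2s φ (cmt b z) + n2s φ (cmt c z) + n2s φ (cmt d z) + n2s φ (cmt g z)

theorem FF_eq (r K : ℝ) (φ : A → ℂ) (f₁ f₂ g₁ g₂ g₃ w x y y₁ y₂ : A) :
    FF r K φ ![f₁, f₂, g₁, g₂, g₃, w, x, y, y₁, y₂] =
    n2s φ (w * w - 1) + D5 φ f₁ f₂ g₁ g₂ g₃ w +
    pos (D5 φ f₁ f₂ g₁ g₂ g₃ y₁ + D5 φ f₁ f₂ g₁ g₂ g₃ y₂ + n2s φ (cmt y₁ x) + n2s φ (cmt y₂ x) +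
      n2s φ ((2 : ℂ) • y - (1 + w) * y₁ - (1 - w) * y₂) - K * D5 φ f₁ f₂ g₁ g₂ g₃ y) +
    pos (‖φ (y * (1 + w) * x * (1 - w) * star x -
      ((2 * (1 - r) : ℝ) : ℂ) • (y * (1 + w)))‖ ^ 2 - K * D5 φ f₁ f₂ g₁ g₂ g₃ y) +
    pos (‖φ (y * (1 - w) * star x * (1 + w) * x -
      ((2 * r : ℝ) : ℂ) • (y * (1 - w)))‖ ^ 2 - K * D5 φ f₁ f₂ g₁ g₂ g₃ y) := rfl

theorem n2s_nn (h : TrAlg τ) (x : A) : 0 ≤ n2s τ x := by rw [n2s_eq h]; positivity

theorem FF_lt (h : TrAlg τ) {r K ε : ℝ} {f₁ f₂ g₁ g₂ g₃ w x y y₁ y₂ : A}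
    (H : FF r K τ ![f₁, f₂, g₁, g₂, g₃, w, x, y, y₁, y₂] < ε) :
    n2s τ (w * w - 1) ≤ ε ∧ D5 τ f₁ f₂ g₁ g₂ g₃ w ≤ ε ∧
    D5 τ f₁ f₂ g₁ g₂ g₃ y₁ + D5 τ f₁ f₂ g₁ g₂ g₃ y₂ + n2s τ (cmt y₁ x) + n2s τ (cmt y₂ x) +
      n2s τ ((2 : ℂ) • y - (1 + w) * y₁ - (1 - w) * y₂) ≤ ε + K * D5 τ f₁ f₂ g₁ g₂ g₃ y ∧
    ‖τ (y * (1 + w) * x * (1 - w) * star x -
      ((2 * (1 - r) : ℝ) : ℂ) • (y * (1 + w)))‖ ^ 2 ≤ ε + K * D5 τ f₁ f₂ g₁ g₂ g₃ y ∧
    ‖τ (y * (1 - w) * star x * (1 + w) * x -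
      ((2 * r : ℝ) : ℂ) • (y * (1 - w)))‖ ^ 2 ≤ ε + K * D5 τ f₁ f₂ g₁ g₂ g₃ y := by
  rw [FF_eq] at H
  have p0 : ∀ z : ℝ, 0 ≤ pos z := fun z => le_max_left _ _
  have p1 : ∀ z : ℝ, z ≤ pos z := fun z => le_max_right _ _
  have h1 := n2s_nn h (w * w - 1)
  have h2 : 0 ≤ D5 τ f₁ f₂ g₁ g₂ g₃ w := by
    unfold D5
    have := n2s_nn h (cmt f₁ w)
    have := n2s_nn h (cmt f₂ w)
    have := n2s_nn h (cmt g₁ w)
    have := n2s_nn h (cmt g₂ w)
    have := n2s_nn h (cmt g₃ w)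
    linarith
  have h3 := p0 (D5 τ f₁ f₂ g₁ g₂ g₃ y₁ + D5 τ f₁ f₂ g₁ g₂ g₃ y₂ + n2s τ (cmt y₁ x) +
    n2s τ (cmt y₂ x) +
      n2s τ ((2 : ℂ) • y - (1 + w) * y₁ - (1 - w) * y₂) - K * D5 τ f₁ f₂ g₁ g₂ g₃ y)
  have h3' := p1 (D5 τ f₁ f₂ g₁ g₂ g₃ y₁ + D5 τ f₁ f₂ g₁ g₂ g₃ y₂ + n2s τ (cmt y₁ x) +
    n2s τ (cmt y₂ x) +
      n2s τ ((2 : ℂ) • y - (1 + w) * y₁ - (1 - w) * y₂) - K * D5 τ f₁ f₂ g₁ g₂ g₃ y)
  have h4 := p0 (‖τ (y * (1 + w) * x * (1 - w) * star x -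
      ((2 * (1 - r) : ℝ) : ℂ) • (y * (1 + w)))‖ ^ 2 - K * D5 τ f₁ f₂ g₁ g₂ g₃ y)
  have h4' := p1 (‖τ (y * (1 + w) * x * (1 - w) * star x -
      ((2 * (1 - r) : ℝ) : ℂ) • (y * (1 + w)))‖ ^ 2 - K * D5 τ f₁ f₂ g₁ g₂ g₃ y)
  have h5 := p0 (‖τ (y * (1 - w) * star x * (1 + w) * x -
      ((2 * r : ℝ) : ℂ) • (y * (1 - w)))‖ ^ 2 - K * D5 τ f₁ f₂ g₁ g₂ g₃ y)
  have h5' := p1 (‖τ (y * (1 - w) * star x * (1 + w) * x -
      ((2 * r : ℝ) : ℂ) • (y * (1 - w)))‖ ^ 2 - K * D5 τ f₁ f₂ g₁ g₂ g₃ y)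
  refine ⟨by linarith, by linarith, by linarith, by linarith, by linarith⟩

theorem D5_le (h : TrAlg τ) {a b c d g z : A} {C : ℝ} (H : D5 τ a b c d g z ≤ C) :
    n2 τ (c * z - z * c) ^ 2 ≤ C ∧ n2 τ (d * z - z * d) ^ 2 ≤ C ∧ n2 τ (g * z - z * g) ^ 2 ≤ C := by
  unfold D5 at H
  have h1 := n2s_nn h (cmt a z)
  have h2 := n2s_nn h (cmt b z)
  have h3 := n2s_nn h (cmt c z)
  have h4 := n2s_nn h (cmt d z)
  have h5 := n2s_nn h (cmt g z)
  have h3' := n2s_eq h (cmt c z)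
  have h4' := n2s_eq h (cmt d z)
  have h5' := n2s_eq h (cmt g z)
  unfold cmt at *
  refine ⟨by linarith, by linarith, by linarith⟩

end lev

end NEG330

variable {A : Type} [Ring A] [StarRing A] [Algebra ℂ A] [StarModule ℂ A] {τ : A →ₗ[ℂ] ℂ}
  {s : ℝ} {e : ℕ → A} {p q : A} {v t : ℕ → A} {B D : ℕ → StarSubalgebra ℂ A}

open NEG330 in
/-- TASK NEG -/
theorem neg_of_rd (h : RD τ s e p q v t B D) {r K : ℝ} (hsr : s < r) (hr : r < 1 / 2) (hK : 0 < K) :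
    NegS r K (fun x => τ x) := by
  have hs := h.s_pos
  have hr0 : 0 < r := hs.trans hsr
  obtain ⟨κ, hκ, hκ1, hκ2, hκ3⟩ : ∃ κ : ℝ, 0 < κ ∧ κ ≤ 1 ∧ κ ≤ 1 - 2 * r ∧ κ ≤ (r - s) / s :=
    ⟨min 1 (min (1 - 2 * r) ((r - s) / s)), lt_min one_pos (lt_min (by linarith)
      (div_pos (by linarith) hs)), min_le_left _ _, (min_le_right _ _).trans (min_le_left _ _),
      (min_le_right _ _).trans (min_le_right _ _)⟩
  have hgap : ∀ (k : ℕ) (a b : Fin k → Bool),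
      κ * wt s a ≤ |(1 - r) * wt s a - r * wt s b| := by
    intro k a b
    have ha := wt_pos hs h.s_lt a
    rcases wt_dich hs (by linarith) a b with h1 | h1
    · refine le_trans ?_ (le_abs_self _)
      nlinarith
    · refine le_trans ?_ (neg_le_abs _)
      rw [le_div_iff₀ hs] at hκ3
      have : s * (κ * wt s a) ≤ s * (-((1 - r) * wt s a - r * wt s b)) := by nlinarith
      exact le_of_mul_le_mul_left this hs
  obtain ⟨σ, hσ, hσ1, hσ2⟩ : ∃ σ : ℝ, 0 < σ ∧ σ ≤ 1 ∧ 51 * (62500 * σ) < κ * r * (1 - r) := by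
    have hm : 0 < κ * r * (1 - r) := mul_pos (mul_pos hκ hr0) (by linarith)
    refine ⟨min 1 (κ * r * (1 - r) / (51 * 62500 * 2)), lt_min one_pos (by positivity),
      min_le_left _ _, ?_⟩
    have := min_le_right 1 (κ * r * (1 - r) / (51 * 62500 * 2))
    rw [le_div_iff₀ (by norm_num)] at this
    linarith
  refine ⟨σ ^ 2, by positivity, ?_⟩
  intro f₁ hf₁ f₂ hf₂
  obtain ⟨δ, hδ, hδ1⟩ : ∃ δ : ℝ, 0 < δ ∧ K * (8 * δ ^ 2) ≤ σ ^ 2 := by
    refine ⟨σ / Real.sqrt (8 * K), by positivity, ?_⟩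
    rw [div_pow, Real.sq_sqrt (by positivity)]
    apply le_of_eq
    field_simp
  obtain ⟨n₁, b₁, hb₁, hn₁⟩ := h.B_dense f₁ δ hδ
  obtain ⟨n₂, b₂, hb₂, hn₂⟩ := h.B_dense f₂ δ hδ
  obtain ⟨n, hn⟩ : ∃ n, n = max n₁ n₂ := ⟨_, rfl⟩
  have hb₁' : b₁ ∈ B n := h.B_mono _ _ (by rw [hn]; exact le_max_left _ _) hb₁
  have hb₂' : b₂ ∈ B n := h.B_mono _ _ (by rw [hn]; exact le_max_right _ _) hb₂
  refine ⟨p, h.p_un, q, h.q_un, v n, h.v_un n, ?_⟩
  intro w hw x hx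
  by_contra hcon
  push Not at hcon
  obtain ⟨y₁, hy₁, y₂, hy₂, hF⟩ := hcon 1 (one_mem _)
  obtain ⟨c1, c2, -⟩ := FF_lt h.tr hF
  obtain ⟨c3, c4, c5⟩ := D5_le h.tr c2
  rw [n2s_eq h.tr] at c1
  have c1' := le_of_sq_le_sq c1 hσ.le
  have c3' := le_of_sq_le_sq c3 hσ.le
  have c4' := le_of_sq_le_sq c4 hσ.le
  have c5' := le_of_sq_le_sq c5 hσ.le
  obtain ⟨z, hz, hz1⟩ := h.gap n w σ hσ
  have hz2 : n2 τ (w - z) ≤ 82 * σ := by linarith
  obtain ⟨m, t0, ht0, hm⟩ := h.B_dense x σ hσ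
  obtain ⟨k₀, hk₀⟩ := exists_level h n z hz
  obtain ⟨k, hk⟩ : ∃ k, k = max k₀ m := ⟨_, rfl⟩
  obtain ⟨f, hf⟩ := hk₀ k (by rw [hk]; exact le_max_left _ _)
  have ht0' : t0 ∈ B (n + k) := h.B_mono _ _ (by
    rw [hk]; exact (le_max_right k₀ m).trans (Nat.le_add_left _ _)) ht0
  have hP := atm_pvm h n k
  have hμ : ∀ a, τ (atm e n k a) = ((wt s a : ℝ) : ℂ) := tau_atm_one h n k
  have hpos : ∀ a : Fin k → Bool, 0 < wt s a := fun a => wt_pos hs h.s_lt a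
  have hG : ∀ a, ‖cf τ (atm e n k) w a‖ ≤ 1 := cf_le h.tr hP hμ hpos w hw
  have hG1 : n2 τ (w - Th (atm e n k) (cf τ (atm e n k) w)) ≤ 82 * σ := by
    refine (cf_best h.tr hP hμ hpos w f).trans ?_
    rw [← hf]
    exact hz2
  obtain ⟨E, hW⟩ := wchi h.tr hP hμ hpos w hw _ hG σ hG1 c1'
  refine absurd (part1 h.tr hP hμ hpos E r κ σ hr0 (by linarith) hκ hκ1 hσ.le hσ1 w x hw hx hW
    (hgap k) ?_) (not_le.2 hσ2)
  intro u hu
  obtain ⟨y, hyd⟩ : ∃ y, y = Th (atm e n k) (fun a => (u a : ℂ)) := ⟨_, rfl⟩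
  rw [← hyd]
  have hy : y ∈ unitary A := by
    rw [hyd]
    apply Th_unitary hP
    intro a
    rcases hu a with h | h <;> simp [h]
  have hcom : ∀ b : A, (∀ i, n ≤ i → b * e i = e i * b) → b * y = y * b := by
    intro b hb
    rw [hyd]
    exact Th_comm_of b (fun a => atm_comm (fun i hi _ => hb i hi) a) _
  have hz0 : ∀ b : A, (∀ i, n ≤ i → b * e i = e i * b) → n2s τ (cmt b y) = 0 := by
    intro b hb
    unfold cmt
    rw [hcom b hb, sub_self, n2s_eq h.tr, h.tr.n2_zero]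
    norm_num
  have hf0 : ∀ f b : A, b ∈ B n → n2 τ (f - b) < δ → n2s τ (cmt f y) ≤ 4 * δ ^ 2 := by
    intro f b hb hfb
    have d0 : cmt f y = (f - b) * y - y * (f - b) := by
      unfold cmt
      have := hcom b (fun i hi => comm_B h hi hb)
      rw [sub_mul, mul_sub, this]
      abel
    rw [n2s_eq h.tr, d0]
    have d1 := h.tr.n2_sub_le ((f - b) * y) (y * (f - b))
    rw [uni_l y hy, uni_r h.tr y hy] at d1
    have d2 : n2 τ ((f - b) * y - y * (f - b)) ≤ 2 * δ := by linarith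
    have d3 := pow_le_pow_left₀ (n2_nonneg _ _) d2 2
    nlinarith
  have hD : K * D5 τ f₁ f₂ p q (v n) y ≤ σ ^ 2 := by
    refine le_trans (mul_le_mul_of_nonneg_left ?_ hK.le) hδ1
    unfold D5
    rw [hz0 p (fun i _ => h.p_e i), hz0 q (fun i _ => h.q_e i), hz0 (v n) (fun i hi => h.v_e n i hi)]
    have := hf0 f₁ b₁ hb₁' hn₁
    have := hf0 f₂ b₂ hb₂' hn₂
    linarith
  obtain ⟨y₁, hy₁, y₂, hy₂, hF⟩ := hcon y hy
  obtain ⟨-, -, g3, g4, g5⟩ := FF_lt h.tr hF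
  have nn1 : ∀ y', 0 ≤ D5 τ f₁ f₂ p q (v n) y' := by
    intro y'
    unfold D5
    have := n2s_nn h.tr (cmt f₁ y')
    have := n2s_nn h.tr (cmt f₂ y')
    have := n2s_nn h.tr (cmt p y')
    have := n2s_nn h.tr (cmt q y')
    have := n2s_nn h.tr (cmt (v n) y')
    linarith
  have m1 := nn1 y₁
  have m2 := nn1 y₂
  have m3 := n2s_nn h.tr (cmt y₁ x)
  have m4 := n2s_nn h.tr (cmt y₂ x)
  have m5 := n2s_nn h.tr ((2 : ℂ) • y - (1 + w) * y₁ - (1 - w) * y₂)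
  have m3' := n2s_eq h.tr (cmt y₁ x)
  have m4' := n2s_eq h.tr (cmt y₂ x)
  have m5' := n2s_eq h.tr ((2 : ℂ) • y - (1 + w) * y₁ - (1 - w) * y₂)
  have rt : ∀ z : A, n2 τ z ^ 2 ≤ 2 * σ ^ 2 → n2 τ z ≤ 29 / 20 * σ := by
    intro z hz
    apply le_of_sq_le_sq _ (by positivity)
    nlinarith [sq_nonneg σ]
  obtain ⟨r1, r2, r3⟩ := D5_le h.tr (show D5 τ f₁ f₂ p q (v n) y₁ ≤ 2 * σ ^ 2 by linarith)
  obtain ⟨s1, s2, s3⟩ := D5_le h.tr (show D5 τ f₁ f₂ p q (v n) y₂ ≤ 2 * σ ^ 2 by linarith)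
  have r4 : n2 τ (y₁ * x - x * y₁) ^ 2 ≤ 2 * σ ^ 2 := by
    have : n2 τ (cmt y₁ x) ^ 2 ≤ 2 * σ ^ 2 := by linarith
    exact this
  have s4 : n2 τ (y₂ * x - x * y₂) ^ 2 ≤ 2 * σ ^ 2 := by
    have : n2 τ (cmt y₂ x) ^ 2 ≤ 2 * σ ^ 2 := by linarith
    exact this
  refine ⟨by linarith, by linarith, y₁, hy₁, y₂, hy₂, by linarith, ?_, ?_⟩
  · exact lev h n k x t0 y₁ hx hy₁ ht0' σ hσ hσ1 hm.le (rt _ r1) (rt _ r2) (rt _ r3) (rt _ r4)
  · exact lev h n k x t0 y₂ hx hy₂ ht0' σ hσ hσ1 hm.le (rt _ s1) (rt _ s2) (rt _ s3) (rt _ s4)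

end Pool.Agent.H289R2.RS
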