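import Mathlib
import Pool.Agent.H289R2.RS.PVM
import Pool.Agent.H289R2.RS.ATM

set_option autoImplicit false
set_option linter.unusedSectionVars false

namespace Pool.Agent.H289R2.RS

open Pool.Agent.Helper278 Pool.Agent.Helper436.AD

variable {A : Type} [Ring A] [StarRing A] [Algebra ℂ A] [StarModule ℂ A] {τ : A →ₗ[ℂ] ℂ}
  {s : ℝ} {e : ℕ → A} {p q : A} {v t : ℕ → A} {B D : ℕ → StarSubalgebra ℂ A}

theorem POS_uni_l (y : A) (hy : y ∈ unitary A) (x : A) : n2 τ (y * x) = n2 τ x := by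
  unfold n2
  rw [star_mul, mul_assoc, ← mul_assoc (star y), (Unitary.mem_iff.1 hy).1, one_mul]

theorem POS_uni_r (h : TrAlg τ) (y : A) (hy : y ∈ unitary A) (x : A) :
    n2 τ (x * y) = n2 τ x := by
  rw [← h.n2_star, star_mul, POS_uni_l _ (Unitary.star_mem hy), h.n2_star]

theorem POS_cmt_le (h : TrAlg τ) (y : A) (hy : y ∈ unitary A) (x : A) :
    n2 τ (x * y - y * x) ≤ 2 * n2 τ x := by
  have h1 := h.n2_sub_le (x * y) (y * x)
  rw [POS_uni_l y hy, POS_uni_r h y hy] at h1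
  linarith

theorem POS_cmt_le' (h : TrAlg τ) (y : A) (hy : y ∈ unitary A) (x : A) :
    n2 τ (y * x - x * y) ≤ 2 * n2 τ x := by
  have h1 := h.n2_sub_le (y * x) (x * y)
  rw [POS_uni_l y hy, POS_uni_r h y hy] at h1
  linarith

theorem POS_proj (h : TrAlg τ) {f : A} (h1 : star f = f) (h2 : f * f = f) (x : A) :
    n2 τ (f * x) ^ 2 + n2 τ ((1 - f) * x) ^ 2 = n2 τ x ^ 2 := by
  rw [h.n2_sq, h.n2_sq, h.n2_sq, ← Complex.add_re, ← map_add]
  congr 2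
  rw [star_mul, star_mul, star_sub, star_one, h1]
  have h3 : star x * f * (f * x) + star x * (1 - f) * ((1 - f) * x) =
      star x * (f * f) * x + star x * (1 - f - f + f * f) * x := by noncomm_ring
  rw [h3, h2]
  noncomm_ring

theorem POS_proj_le (h : TrAlg τ) {f : A} (h1 : star f = f) (h2 : f * f = f) (x : A) :
    n2 τ (f * x) ≤ n2 τ x := by
  have h3 := POS_proj h h1 h2 x
  exact PVM_sq_le (n2_nonneg _ _) (by nlinarith [sq_nonneg (n2 τ ((1 - f) * x))])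

theorem POS_proj_le' (h : TrAlg τ) {f : A} (h1 : star f = f) (h2 : f * f = f) (x : A) :
    n2 τ ((1 - f) * x) ≤ n2 τ x := by
  have h3 := POS_proj h h1 h2 x
  exact PVM_sq_le (n2_nonneg _ _) (by nlinarith [sq_nonneg (n2 τ (f * x))])

theorem POS_n2_one (h : TrAlg τ) : n2 τ (1 : A) = 1 := by
  unfold n2
  rw [star_one, one_mul, h.one]
  simp

theorem POS_split (h : TrAlg τ) {f : A} (h1 : star f = f) (h2 : f * f = f) (x y : A) :
    n2 τ (f * x + (1 - f) * y) ^ 2 = n2 τ (f * x) ^ 2 + n2 τ ((1 - f) * y) ^ 2 := by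
  rw [← POS_proj h h1 h2 (f * x + (1 - f) * y)]
  have e1 : f * (f * x + (1 - f) * y) = (f * f) * x + (f - f * f) * y := by noncomm_ring
  have e2 : (1 - f) * (f * x + (1 - f) * y) = (f - f * f) * x + (1 - f - f + f * f) * y := by
    noncomm_ring
  rw [e1, e2, h2, sub_self, zero_mul, add_zero, zero_mul, zero_add, sub_add_cancel]

theorem POS_indep (h : RD τ s e p q v t B D) (n : ℕ) (x : A) (hx : x ∈ D n) :
    n2 τ (e n * x) ^ 2 = s * n2 τ x ^ 2 ∧ n2 τ ((1 - e n) * x) ^ 2 = (1 - s) * n2 τ x ^ 2 := by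
  have h3 : n2 τ (e n * x) ^ 2 = s * n2 τ x ^ 2 := by
    rw [h.tr.n2_sq, h.tr.n2_sq, star_mul, h.e_star]
    have e1 : star x * e n * (e n * x) = star x * (e n * e n * x) := by noncomm_ring
    have hs' : star x ∈ D n := star_mem hx
    have hm : x * star x ∈ D n := (D n).mul_mem hx hs'
    rw [e1, h.e_idem, h.tr.comm, mul_assoc, h.tr.comm, h.D_indep n _ hm, h.tr.comm x,
      Complex.re_ofReal_mul]
  refine ⟨h3, ?_⟩
  have h4 := POS_proj h.tr (h.e_star n) (h.e_idem n) x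
  linarith

theorem POS_comm_est (h : RD τ s e p q v t B D) (h1 : 3 / 10 ≤ s) (h2 : s ≤ 1 / 2) (n : ℕ)
    (b x₁ x₂ : A) (hb : b ∈ D n) (hx₁ : x₁ ∈ D n) (hx₂ : x₂ ∈ D n) (z : A)
    (hz : z = e n * x₁ + (1 - e n) * x₂) :
    n2 τ (b * x₁ - x₁ * b) ≤ 2 * n2 τ (b * z - z * b) ∧
    n2 τ (b * x₂ - x₂ * b) ≤ 2 * n2 τ (b * z - z * b) := by
  have e1 : b * z - z * b = e n * (b * x₁ - x₁ * b) + (1 - e n) * (b * x₂ - x₂ * b) := by
    have hbe := h.D_comm n b hb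
    have e2 : b * z = e n * (b * x₁) + (1 - e n) * (b * x₂) := by
      calc b * z = (b * e n) * x₁ + b * x₂ - (b * e n) * x₂ := by rw [hz]; noncomm_ring
        _ = e n * (b * x₁) + (1 - e n) * (b * x₂) := by rw [hbe]; noncomm_ring
    rw [e2, hz]
    noncomm_ring
  have m1 : b * x₁ - x₁ * b ∈ D n := (D n).sub_mem ((D n).mul_mem hb hx₁) ((D n).mul_mem hx₁ hb)
  have m2 : b * x₂ - x₂ * b ∈ D n := (D n).sub_mem ((D n).mul_mem hb hx₂) ((D n).mul_mem hx₂ hb)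
  have e2 := POS_split h.tr (h.e_star n) (h.e_idem n) (b * x₁ - x₁ * b) (b * x₂ - x₂ * b)
  rw [← e1, (POS_indep h n _ m1).1, (POS_indep h n _ m2).2] at e2
  have hn := n2_nonneg τ (b * z - z * b)
  constructor
  · refine PVM_sq_le (by positivity) ?_
    nlinarith [sq_nonneg (n2 τ (b * x₁ - x₁ * b)), sq_nonneg (n2 τ (b * x₂ - x₂ * b))]
  · refine PVM_sq_le (by positivity) ?_
    nlinarith [sq_nonneg (n2 τ (b * x₁ - x₁ * b)), sq_nonneg (n2 τ (b * x₂ - x₂ * b))]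

/-- the linear functional of the second condition -/
theorem POS_fun (h : TrAlg τ) {f g : A} (hf : star f = f) (hf2 : f * f = f)
    (hg : star g = g) (hg2 : g * g = g) (T : A) (hT : T ∈ unitary A) (c : ℝ) (hc : 0 ≤ c)
    (hc1 : c ≤ 1) (u : A) :
    ‖τ (u * f * (T * g * star T)) - c * τ (u * f)‖ ≤ 2 * n2 τ u := by
  have a1 : n2 τ (f * (T * g * star T)) ≤ 1 := by
    refine (POS_proj_le h hf hf2 _).trans ?_
    rw [POS_uni_r h _ (Unitary.star_mem hT), POS_uni_l _ hT]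
    have := POS_proj_le h hg hg2 1
    rwa [mul_one, POS_n2_one h] at this
  have a2 : n2 τ f ≤ 1 := by
    have := POS_proj_le h hf hf2 1
    rwa [mul_one, POS_n2_one h] at this
  have a3 : ‖τ (u * f * (T * g * star T))‖ ≤ n2 τ u * 1 := by
    rw [mul_assoc]
    exact (h.cauchy' _ _).trans (mul_le_mul_of_nonneg_left a1 (n2_nonneg _ _))
  have a4 : ‖τ (u * f)‖ ≤ n2 τ u * 1 :=
    (h.cauchy' _ _).trans (mul_le_mul_of_nonneg_left a2 (n2_nonneg _ _))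
  refine (norm_sub_le _ _).trans ?_
  rw [norm_mul, Complex.norm_real, Real.norm_of_nonneg hc]
  have := n2_nonneg τ u
  nlinarith [norm_nonneg (τ (u * f))]

/-- the second and the third condition -/
theorem POS_cond (h : TrAlg τ) {f g : A} (hf : star f = f) (hf2 : f * f = f)
    (hg : star g = g) (hg2 : g * g = g) (T : A) (hT : T ∈ unitary A) (c : ℝ) (hc : 0 ≤ c)
    (hc1 : c ≤ 1) (y z : A) (hz : τ (z * f * (T * g * star T)) = c * τ (z * f)) :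
    ‖τ (y * f * (T * g * star T)) - c * τ (y * f)‖ ≤ 2 * n2 τ (y - z) := by
  have e1 : τ (y * f * (T * g * star T)) - c * τ (y * f) =
      τ ((y - z) * f * (T * g * star T)) - c * τ ((y - z) * f) := by
    rw [sub_mul, sub_mul, map_sub, map_sub, hz]
    ring
  rw [e1]
  exact POS_fun h hf hf2 hg hg2 T hT c hc hc1 (y - z)

theorem POS_pos_le {x y : ℝ} (hy : 0 ≤ y) (h : x ≤ y) : pos x ≤ y := max_le hy h

/-- the numbers -/
theorem POS_num (S R η x : ℝ) (hS : 0 ≤ S) (hη : 0 ≤ η) (hx : 0 ≤ x) (hR : R ≤ 160 * S + 2 * η) 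
    (h : x ≤ 8 * R) : x ^ 2 - 10 ^ 7 * S ^ 2 ≤ 600 * η ^ 2 := by
  have h1 : x ≤ 1280 * S + 16 * η := by linarith
  have h2 : x ^ 2 ≤ (1280 * S + 16 * η) ^ 2 := pow_le_pow_left₀ hx h1 2
  nlinarith [sq_nonneg (1280 * S - 16 * η), sq_nonneg η, sq_nonneg S]

theorem POS_num2 (S η x : ℝ) (hS : 0 ≤ S) (hη : 0 ≤ η) (hx : 0 ≤ x)
    (h : x ≤ 642 * S + 14 * η) : x ^ 2 ≤ 824328 * S ^ 2 + 392 * η ^ 2 := by
  have h2 : x ^ 2 ≤ (642 * S + 14 * η) ^ 2 := pow_le_pow_left₀ hx h 2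
  nlinarith [sq_nonneg (642 * S - 14 * η)]

noncomputable def POS_D5 (φ : A → ℂ) (f₁ f₂ g₁ g₂ g₃ z : A) : ℝ :=
  n2s φ (cmt f₁ z) + n2s φ (cmt f₂ z) + n2s φ (cmt g₁ z) + n2s φ (cmt g₂ z) + n2s φ (cmt g₃ z)

theorem POS_FF_eq (r K : ℝ) (φ : A → ℂ) (f₁ f₂ g₁ g₂ g₃ w x y y₁ y₂ : A) :
    FF r K φ ![f₁, f₂, g₁, g₂, g₃, w, x, y, y₁, y₂] =
    n2s φ (w * w - 1) + POS_D5 φ f₁ f₂ g₁ g₂ g₃ w +
    pos (POS_D5 φ f₁ f₂ g₁ g₂ g₃ y₁ + POS_D5 φ f₁ f₂ g₁ g₂ g₃ y₂ + n2s φ (cmt y₁ x) +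
      n2s φ (cmt y₂ x) +
      n2s φ ((2 : ℂ) • y - (1 + w) * y₁ - (1 - w) * y₂) - K * POS_D5 φ f₁ f₂ g₁ g₂ g₃ y) +
    pos (‖φ (y * (1 + w) * x * (1 - w) * star x -
      ((2 * (1 - r) : ℝ) : ℂ) • (y * (1 + w)))‖ ^ 2 - K * POS_D5 φ f₁ f₂ g₁ g₂ g₃ y) +
    pos (‖φ (y * (1 - w) * star x * (1 + w) * x -
      ((2 * r : ℝ) : ℂ) • (y * (1 - w)))‖ ^ 2 - K * POS_D5 φ f₁ f₂ g₁ g₂ g₃ y) := rfl

theorem POS_n2s (h : TrAlg τ) (x : A) : n2s (fun x => τ x) x = n2 τ x ^ 2 := (h.n2_sq x).symm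

theorem POS_cmt_zero {a b : A} (hab : a * b = b * a) : cmt a b = 0 := by
  unfold cmt
  rw [hab, sub_self]

theorem POS_cmt_n2s (h : TrAlg τ) (a b : A) (S : ℝ) (hS : 0 ≤ S) (d : ℝ)
    (hd : n2s (fun x => τ x) (cmt a b) ≤ d) (hSd : S ^ 2 = d) : n2 τ (a * b - b * a) ≤ S := by
  rw [POS_n2s h] at hd
  exact PVM_sq_le hS (by rw [hSd]; exact hd)

/-- TASK POS -/
theorem pos_of_rd (h : RD τ s e p q v t B D) (h1 : 3 / 10 ≤ s) (h2 : s ≤ 1 / 2) :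
    PosS s (10 ^ 7) (fun x => τ x) := by
  have hT := h.tr
  refine ⟨p, h.p_un, q, h.q_un, fun g₁ hg₁ g₂ hg₂ g₃ hg₃ δ hδ => ?_⟩
  obtain ⟨η, hη, hηδ⟩ : ∃ η : ℝ, 0 < η ∧ 6000 * η ^ 2 ≤ δ :=
    ⟨Real.sqrt (δ / 6000), Real.sqrt_pos.2 (by positivity), by
      rw [Real.sq_sqrt (by positivity)]; linarith⟩
  -- the level
  obtain ⟨n, b₁, b₂, b₃, hb₁, hb₂, hb₃, hn₁, hn₂, hn₃⟩ : ∃ n, ∃ b₁ b₂ b₃ : A, b₁ ∈ D n ∧ b₂ ∈ D n ∧
      b₃ ∈ D n ∧ n2 τ (g₁ - b₁) ≤ η ∧ n2 τ (g₂ - b₂) ≤ η ∧ n2 τ (g₃ - b₃) ≤ η := by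
    obtain ⟨m₁, b₁, hb₁, hm₁⟩ := h.B_dense g₁ η hη
    obtain ⟨m₂, b₂, hb₂, hm₂⟩ := h.B_dense g₂ η hη
    obtain ⟨m₃, b₃, hb₃, hm₃⟩ := h.B_dense g₃ η hη
    refine ⟨m₁ + m₂ + m₃, b₁, b₂, b₃, h.B_D _ (h.B_mono m₁ _ (by omega) hb₁),
      h.B_D _ (h.B_mono m₂ _ (by omega) hb₂), h.B_D _ (h.B_mono m₃ _ (by omega) hb₃), hm₁.le,
      hm₂.le, hm₃.le⟩
  set E := e n with hE
  have hE1 : star E = E := h.e_star n
  have hE2 : E * E = E := h.e_idem n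
  have hF1 : star (1 - E) = 1 - E := by rw [star_sub, star_one, hE1]
  have hF2 : (1 - E) * (1 - E) = 1 - E := by
    have : (1 - E) * (1 - E) = 1 - E - E + E * E := by noncomm_ring
    rw [this, hE2]; abel
  set w : A := (2 : ℂ) • E - 1 with hw
  have hww : w * w = 1 := by
    have : w * w = (4 : ℂ) • (E * E) - (4 : ℂ) • E + 1 := by
      rw [hw, sub_mul, mul_sub, smul_mul_smul_comm, mul_one, one_mul]
      module
    rw [this, hE2]; abel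
  have hws : star w = w := by
    rw [hw, star_sub, star_smul, hE1, star_one]
    simp
  have hwu : w ∈ unitary A := by
    rw [Unitary.mem_iff, hws]
    exact ⟨hww, hww⟩
  have hw1 : 1 + w = (2 : ℂ) • E := by rw [hw]; abel
  have hw2 : 1 - w = (2 : ℂ) • (1 - E) := by rw [hw, smul_sub, two_smul ℂ (1 : A)]; abel
  refine ⟨w, hwu, t n, h.t_un n, fun y hy => ?_⟩
  have nn : ∀ x : A, 0 ≤ n2s (fun x => τ x) x := fun x => by rw [POS_n2s hT]; positivity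
  obtain ⟨d, hd⟩ : ∃ d : ℝ, d = POS_D5 (fun x => τ x) p q g₁ g₂ g₃ y := ⟨_, rfl⟩
  have hd5 : d = n2s (fun x => τ x) (cmt p y) + n2s (fun x => τ x) (cmt q y) +
    n2s (fun x => τ x) (cmt g₁ y) + n2s (fun x => τ x) (cmt g₂ y) +
    n2s (fun x => τ x) (cmt g₃ y) := hd
  have k1 := nn (cmt p y)
  have k2 := nn (cmt q y)
  have k3 := nn (cmt g₁ y)
  have k4 := nn (cmt g₂ y)
  have k5 := nn (cmt g₃ y)
  have hd0 : 0 ≤ d := by rw [hd5]; positivity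
  obtain ⟨S, hS, hSd⟩ : ∃ S : ℝ, 0 ≤ S ∧ S ^ 2 = d := ⟨Real.sqrt d, Real.sqrt_nonneg _,
    Real.sq_sqrt hd0⟩
  have c1 : n2 τ (p * y - y * p) ≤ S := POS_cmt_n2s hT _ _ S hS d (by linarith) hSd
  have c2 : n2 τ (q * y - y * q) ≤ S := POS_cmt_n2s hT _ _ S hS d (by linarith) hSd
  have c3 : n2 τ (g₁ * y - y * g₁) ≤ S := POS_cmt_n2s hT _ _ S hS d (by linarith) hSd
  have c4 : n2 τ (g₂ * y - y * g₂) ≤ S := POS_cmt_n2s hT _ _ S hS d (by linarith) hSd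
  have c5 : n2 τ (g₃ * y - y * g₃) ≤ S := POS_cmt_n2s hT _ _ S hS d (by linarith) hSd
  obtain ⟨z, hz, hzd⟩ := h.gap 0 y η hη
  rw [h.v_zero, one_mul, mul_one, sub_self, hT.n2_zero] at hzd
  obtain ⟨l, hl⟩ := exists_level_tri h n z hz
  obtain ⟨f, hf⟩ := hl l le_rfl
  have hP := tri_pvm h n l
  obtain ⟨g, hg, hgy⟩ := round_cf hT hP (tau_tri h n l)
    (fun a => wtri_pos h.s_pos h.s_lt a) y hy
  obtain ⟨Z, hZ⟩ : ∃ Z : A, Z = Th (tri e n l) g := ⟨_, rfl⟩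
  have hZu : Z ∈ unitary A := by rw [hZ]; exact Th_unitary hP g hg
  obtain ⟨R, hR⟩ : ∃ R : ℝ, R = n2 τ (y - Z) := ⟨_, rfl⟩
  have hR0 : 0 ≤ R := by rw [hR]; exact n2_nonneg _ _
  have hRS : R ≤ 160 * S + 2 * η := by
    have := hgy f
    rw [← hZ, ← hR, ← hf] at this
    linarith
  have hZC : Z ∈ Cn e 0 := by
    rw [hZ]
    exact (Cn e 0).sum_mem fun a _ => (Cn e 0).smul_mem (tri_mem_Cn h n l a) _
  have hEC : E ∈ Cn e 0 := ATM_e_mem_Cn (Nat.zero_le _)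
  obtain ⟨y₁, hy₁⟩ : ∃ y₁ : A, y₁ = res e n l g true := ⟨_, rfl⟩
  obtain ⟨y₂, hy₂⟩ : ∃ y₂ : A, y₂ = res e n l g false := ⟨_, rfl⟩
  have hy₁u : y₁ ∈ unitary A := by rw [hy₁]; exact Th_unitary hP _ fun a => hg _
  have hy₂u : y₂ ∈ unitary A := by rw [hy₂]; exact Th_unitary hP _ fun a => hg _
  have hZs : Z = E * y₁ + (1 - E) * y₂ := by rw [hZ, hy₁, hy₂]; exact res_split h n l g
  have hcomm : ∀ x : A, (∀ i, i ≠ n → x * e i = e i * x) → x * y₁ = y₁ * x ∧ x * y₂ = y₂ * x := by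
    intro x hx
    rw [hy₁, hy₂]
    exact ⟨res_comm h n l g true x hx, res_comm h n l g false x hx⟩
  obtain ⟨p1, p2⟩ := hcomm p fun i _ => h.p_e i
  obtain ⟨q1, q2⟩ := hcomm q fun i _ => h.q_e i
  obtain ⟨t1, t2⟩ := hcomm (t n) fun i hi => h.t_e n i hi
  have D1 : y₁ ∈ D n := by rw [hy₁]; exact res_mem_D h n l g true
  have D2 : y₂ ∈ D n := by rw [hy₂]; exact res_mem_D h n l g false
  -- commutators of y₁, y₂ with the opponent
  have key : ∀ (G b : A), G ∈ unitary A → b ∈ D n → n2 τ (G - b) ≤ η →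
      n2 τ (G * y - y * G) ≤ S → n2s (fun x => τ x) (cmt G y₁) ≤ 824328 * S ^ 2 + 392 * η ^ 2 ∧
      n2s (fun x => τ x) (cmt G y₂) ≤ 824328 * S ^ 2 + 392 * η ^ 2 := by
    intro G b hG hb hGb hGy
    obtain ⟨e1, e2⟩ := POS_comm_est h h1 h2 n b y₁ y₂ hb D1 D2 Z hZs
    have e3 : n2 τ (b * Z - Z * b) ≤ 321 * S + 6 * η := by
      have a1 : b * Z - Z * b = (G * y - y * G) + (((y - Z) * G - G * (y - Z)) -
        ((G - b) * Z - Z * (G - b))) := by noncomm_ring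
      rw [a1]
      have a2 := hT.n2_add_le (G * y - y * G) (((y - Z) * G - G * (y - Z)) -
        ((G - b) * Z - Z * (G - b)))
      have a3 := hT.n2_sub_le ((y - Z) * G - G * (y - Z)) ((G - b) * Z - Z * (G - b))
      have a4 := POS_cmt_le hT G hG (y - Z)
      have a5 := POS_cmt_le hT Z hZu (G - b)
      rw [← hR] at a4
      linarith
    have e4 : ∀ x : A, x ∈ unitary A → n2 τ (b * x - x * b) ≤ 2 * n2 τ (b * Z - Z * b) →
        n2s (fun x => τ x) (cmt G x) ≤ 824328 * S ^ 2 + 392 * η ^ 2 := by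
      intro x hx hbx
      rw [POS_n2s hT]
      refine POS_num2 S η _ hS hη.le (n2_nonneg _ _) ?_
      unfold cmt
      have a1 : G * x - x * G = (b * x - x * b) + ((G - b) * x - x * (G - b)) := by noncomm_ring
      rw [a1]
      have a2 := hT.n2_add_le (b * x - x * b) ((G - b) * x - x * (G - b))
      have a5 := POS_cmt_le hT x hx (G - b)
      linarith
    exact ⟨e4 y₁ hy₁u e1, e4 y₂ hy₂u e2⟩
  obtain ⟨u1, u1'⟩ := key g₁ b₁ hg₁ hb₁ hn₁ c3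
  obtain ⟨u2, u2'⟩ := key g₂ b₂ hg₂ hb₂ hn₂ c4
  obtain ⟨u3, u3'⟩ := key g₃ b₃ hg₃ hb₃ hn₃ c5
  -- commutators of w with the opponent
  have wkey : ∀ (G b : A), b ∈ D n → n2 τ (G - b) ≤ η →
      n2s (fun x => τ x) (cmt G w) ≤ 4 * η ^ 2 := by
    intro G b hb hGb
    rw [POS_n2s hT]
    have hbE : b * E = E * b := h.D_comm n b hb
    have a1 : cmt G w = (G - b) * w - w * (G - b) := by
      unfold cmt
      have : b * w = w * b := by
        rw [hw, mul_sub, sub_mul, mul_smul_comm, smul_mul_assoc, hbE, mul_one, one_mul]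
      have a2 : (G - b) * w - w * (G - b) = G * w - w * G - (b * w - w * b) := by noncomm_ring
      rw [a2, this, sub_self, sub_zero]
    rw [a1]
    have a5 := POS_cmt_le hT w hwu (G - b)
    have a6 : n2 τ ((G - b) * w - w * (G - b)) ≤ 2 * η := by linarith
    have a7 := pow_le_pow_left₀ (n2_nonneg _ _) a6 2
    nlinarith
  have w1 := wkey g₁ b₁ hb₁ hn₁
  have w2 := wkey g₂ b₂ hb₂ hn₂
  have w3 := wkey g₃ b₃ hb₃ hn₃
  have z0 : n2s (fun x => τ x) (0 : A) = 0 := by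
    rw [POS_n2s hT, hT.n2_zero]; norm_num
  have hwp : cmt p w = 0 := POS_cmt_zero (by
    rw [hw, mul_sub, sub_mul, mul_smul_comm, smul_mul_assoc, hE, h.p_e, mul_one, one_mul])
  have hwq : cmt q w = 0 := POS_cmt_zero (by
    rw [hw, mul_sub, sub_mul, mul_smul_comm, smul_mul_assoc, hE, h.q_e, mul_one, one_mul])
  have Dw : POS_D5 (fun x => τ x) p q g₁ g₂ g₃ w ≤ 12 * η ^ 2 := by
    unfold POS_D5
    rw [hwp, hwq, z0]
    linarith
  have Dy₁ : POS_D5 (fun x => τ x) p q g₁ g₂ g₃ y₁ ≤ 3 * (824328 * S ^ 2 + 392 * η ^ 2) := by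
    unfold POS_D5
    rw [POS_cmt_zero p1, POS_cmt_zero q1, z0]
    linarith
  have Dy₂ : POS_D5 (fun x => τ x) p q g₁ g₂ g₃ y₂ ≤ 3 * (824328 * S ^ 2 + 392 * η ^ 2) := by
    unfold POS_D5
    rw [POS_cmt_zero p2, POS_cmt_zero q2, z0]
    linarith
  have T1 : n2s (fun x => τ x) (cmt y₁ (t n)) = 0 := by rw [POS_cmt_zero t1.symm, z0]
  have T2 : n2s (fun x => τ x) (cmt y₂ (t n)) = 0 := by rw [POS_cmt_zero t2.symm, z0]
  have Q1 : n2s (fun x => τ x) ((2 : ℂ) • y - (1 + w) * y₁ - (1 - w) * y₂) ≤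
      204800 * S ^ 2 + 32 * η ^ 2 := by
    have a1 : (2 : ℂ) • y - (1 + w) * y₁ - (1 - w) * y₂ = (2 : ℂ) • (y - Z) := by
      rw [hw1, hw2, hZs, smul_mul_assoc, smul_mul_assoc, smul_sub, smul_add]
      abel
    rw [a1, POS_n2s hT, PVM_smul hT, ← hR]
    have a2 : R ^ 2 ≤ (160 * S + 2 * η) ^ 2 := pow_le_pow_left₀ hR0 hRS 2
    have a3 : ‖(2 : ℂ)‖ ^ 2 = 4 := by rw [Complex.norm_ofNat]; norm_num
    rw [a3]
    nlinarith [sq_nonneg (160 * S - 2 * η)]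
  have hs0 := h.s_pos.le
  have Q2 : ‖τ (y * (1 + w) * t n * (1 - w) * star (t n) -
      ((2 * (1 - s) : ℝ) : ℂ) • (y * (1 + w)))‖ ≤ 8 * R := by
    have a1 : y * (1 + w) * t n * (1 - w) * star (t n) -
      ((2 * (1 - s) : ℝ) : ℂ) • (y * (1 + w)) =
        (-4 : ℂ) • (y * E * (t n * E * star (t n)) - (s : ℂ) • (y * E)) := by
      have hu : t n * star (t n) = 1 := (Unitary.mem_iff.1 (h.t_un n)).2
      have a2 : y * (1 + w) * t n * (1 - w) * star (t n) =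
          (4 : ℂ) • (y * E * (t n * star (t n))) - (4 : ℂ) • (y * E * (t n * E * star (t n))) := by
        rw [hw1, hw2]
        simp only [mul_smul_comm, smul_mul_assoc, smul_smul]
        rw [← smul_sub]
        norm_num
        congr 1
        noncomm_ring
      rw [a2, hu, mul_one, hw1, mul_smul_comm, smul_smul]
      push_cast
      module
    rw [a1, map_smul, norm_smul, map_sub, map_smul]
    have a3 := POS_cond hT hE1 hE2 hE1 hE2 (t n) (h.t_un n) s hs0 h.s_lt.le y Z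
      (h.shift₁ n _ ((Cn e 0).mul_mem hZC hEC))
    rw [← hR] at a3
    have a4 : ‖(-4 : ℂ)‖ = 4 := by rw [norm_neg, Complex.norm_ofNat]
    rw [a4, smul_eq_mul]
    linarith
  have Q3 : ‖τ (y * (1 - w) * star (t n) * (1 + w) * t n -
      ((2 * s : ℝ) : ℂ) • (y * (1 - w)))‖ ≤ 8 * R := by
    have a1 : y * (1 - w) * star (t n) * (1 + w) * t n -
      ((2 * s : ℝ) : ℂ) • (y * (1 - w)) =
        (4 : ℂ) • (y * (1 - E) * (star (t n) * E * star (star (t n))) -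
          (s : ℂ) • (y * (1 - E))) := by
      have a2 : y * (1 - w) * star (t n) * (1 + w) * t n =
          (4 : ℂ) • (y * (1 - E) * (star (t n) * E * t n)) := by
        rw [hw1, hw2]
        simp only [mul_smul_comm, smul_mul_assoc, smul_smul]
        rw [show (2 : ℂ) * 2 = 4 by norm_num]
        simp only [mul_assoc]
      rw [a2, hw2, mul_smul_comm, smul_smul, star_star]
      push_cast
      module
    rw [a1, map_smul, norm_smul, map_sub, map_smul]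
    have a3 := POS_cond hT hF1 hF2 hE1 hE2 (star (t n)) (Unitary.star_mem (h.t_un n)) s hs0
      h.s_lt.le y Z (by
        rw [star_star]
        exact h.shift₂ n _ ((Cn e 0).mul_mem hZC ((Cn e 0).sub_mem (Cn e 0).one_mem hEC)))
    rw [← hR] at a3
    have a4 : ‖(4 : ℂ)‖ = 4 := by rw [Complex.norm_ofNat]
    rw [a4, smul_eq_mul]
    linarith
  refine ⟨y₁, hy₁u, y₂, hy₂u, ?_⟩
  rw [POS_FF_eq]
  have P0 : n2s (fun x => τ x) (w * w - 1) = 0 := by rw [hww, sub_self, z0]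
  have hη2 : 0 ≤ η ^ 2 := sq_nonneg η
  have P1 : pos (POS_D5 (fun x => τ x) p q g₁ g₂ g₃ y₁ + POS_D5 (fun x => τ x) p q g₁ g₂ g₃ y₂ +
      n2s (fun x => τ x) (cmt y₁ (t n)) + n2s (fun x => τ x) (cmt y₂ (t n)) +
      n2s (fun x => τ x) ((2 : ℂ) • y - (1 + w) * y₁ - (1 - w) * y₂) -
      10 ^ 7 * POS_D5 (fun x => τ x) p q g₁ g₂ g₃ y) ≤ 2400 * η ^ 2 := by
    refine POS_pos_le (by positivity) ?_
    rw [T1, T2, ← hd, ← hSd]
    nlinarith [sq_nonneg S]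
  have P2 : pos (‖(fun x => τ x) (y * (1 + w) * t n * (1 - w) * star (t n) -
      ((2 * (1 - s) : ℝ) : ℂ) • (y * (1 + w)))‖ ^ 2 -
      10 ^ 7 * POS_D5 (fun x => τ x) p q g₁ g₂ g₃ y) ≤ 600 * η ^ 2 := by
    refine POS_pos_le (by positivity) ?_
    rw [← hd, ← hSd]
    exact POS_num S R η _ hS hη.le (norm_nonneg _) hRS Q2
  have P3 : pos (‖(fun x => τ x) (y * (1 - w) * star (t n) * (1 + w) * t n -
      ((2 * s : ℝ) : ℂ) • (y * (1 - w)))‖ ^ 2 -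
      10 ^ 7 * POS_D5 (fun x => τ x) p q g₁ g₂ g₃ y) ≤ 600 * η ^ 2 := by
    refine POS_pos_le (by positivity) ?_
    rw [← hd, ← hSd]
    exact POS_num S R η _ hS hη.le (norm_nonneg _) hRS Q3
  rw [P0]
  linarith

end Pool.Agent.H289R2.RS
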