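import Mathlib
import Pool.Agent.Helper436.SN.StmtG
import Pool.Agent.Helper159.GM.NoMc

set_option autoImplicit false
set_option linter.unusedSectionVars false

open scoped InnerProductSpace

namespace Pool.Agent.H289R2.RS

open Pool.Agent.Helper278 Pool.Agent.Helper278.CE Pool.Agent.Helper159.GM

theorem isSep_ell {I : Type} [Countable I] :
    TopologicalSpace.IsSeparable (Set.univ : Set (EllTwo I)) := by
  have h1 : TopologicalSpace.IsSeparable (Set.range (sb I : I → EllTwo I)) :=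
    (Set.countable_range _).isSeparable
  have h2 : TopologicalSpace.IsSeparable
      ((Submodule.span ℂ (Set.range (sb I : I → EllTwo I)) : Submodule ℂ (EllTwo I)) :
        Set (EllTwo I)) := h1.span
  have h3 := h2.closure
  have h4 : closure ((Submodule.span ℂ (Set.range (sb I : I → EllTwo I)) :
      Submodule ℂ (EllTwo I)) : Set (EllTwo I)) = Set.univ := by
    have h5 := (sb I).dense_span
    rw [← Submodule.topologicalClosure_coe, h5]
    rfl
  rwa [h4] at h3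

theorem separable_of_vec {I : Type} [Countable I] {N : VonNeumannAlgebra (EllTwo I)}
    {T : TracialState N} {Ω : EllTwo I}
    (hΩ : ∀ x : Elt N, T.τ x = ⟪Ω, (x : EllTwo I →L[ℂ] EllTwo I) Ω⟫_ℂ) :
    Helper436.SN.IsSeparable (fun x : Elt N => T.τ x) := by
  let R : Set (EllTwo I) := Set.range fun x : Elt N => (x : EllTwo I →L[ℂ] EllTwo I) Ω
  have hR : TopologicalSpace.IsSeparable R := isSep_ell.mono (Set.subset_univ _)
  obtain ⟨c, hc, hcc, hcd⟩ := hR.exists_countable_dense_subset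
  choose f hf using fun y : c => hc y.2
  have : Countable c := hcc.to_subtype
  refine ⟨Set.range f, Set.countable_range f, ?_⟩
  intro x ε hε
  have hx : (x : EllTwo I →L[ℂ] EllTwo I) Ω ∈ closure c := hcd ⟨x, rfl⟩
  rw [Metric.mem_closure_iff] at hx
  obtain ⟨y, hy, hyx⟩ := hx ε hε
  refine ⟨f ⟨y, hy⟩, ⟨_, rfl⟩, ?_⟩
  have h1 : n2 T.τ (x - f ⟨y, hy⟩) =
      ‖((x - f ⟨y, hy⟩ : Elt N) : EllTwo I →L[ℂ] EllTwo I) Ω‖ := n2_vec hΩ _
  have h2 : ((x - f ⟨y, hy⟩ : Elt N) : EllTwo I →L[ℂ] EllTwo I) Ω =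
      (x : EllTwo I →L[ℂ] EllTwo I) Ω - y := by
    have h3 : (f ⟨y, hy⟩ : EllTwo I →L[ℂ] EllTwo I) Ω = y := hf ⟨y, hy⟩
    show (x : EllTwo I →L[ℂ] EllTwo I) Ω - (f ⟨y, hy⟩ : EllTwo I →L[ℂ] EllTwo I) Ω = _
    rw [h3]
  show n2 T.τ (x - f ⟨y, hy⟩) < ε
  rw [h1, h2, ← dist_eq_norm]
  exact hyx

end Pool.Agent.H289R2.RS
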