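import Mathlib
import Pool.Agent.Helper436.AD.Los
import Pool.Agent.Helper436.SM.Transfer
import Pool.Agent.Helper436.SM.Main
import Pool.Agent.H289R2.RS.Defs

set_option autoImplicit false
set_option linter.unusedSectionVars false

open scoped Topology
open Filter

namespace Pool.Agent.H289R2.RS

open Pool.Agent.Helper278 Pool.Agent.Helper436.SM Pool.Agent.Helper436.AD

universe u v w

namespace TRANS

/-- append a variable -/
def sn {A : Type u} {n : ℕ} (x : Fin n → A) (a : A) : Fin (n + 1) → A :=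
  Fin.snoc (α := fun _ : Fin (n + 1) => A) x a

theorem sn_comp {A : Type u} {B : Type v} (g : A → B) {n : ℕ} (x : Fin n → A) (a : A) :
    (fun j => g (sn x a j)) = sn (fun j => g (x j)) (g a) := by
  funext j
  refine Fin.lastCases ?_ (fun i => ?_) j
  · simp [sn]
  · simp [sn]

section basic

variable {A : Type u} [Ring A] [StarRing A] [Algebra ℂ A]

instance : Nonempty (unitary A) := ⟨1⟩

theorem val_mem (φ : A → ℂ) {n : ℕ} (f : QF n) :
    ∀ x : Fin n → A, 0 ≤ f.val φ x ∧ f.val φ x ≤ 1 := by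
  induction f with
  | qf f =>
    intro x
    exact ⟨le_max_left _ _, max_le zero_le_one (min_le_left _ _)⟩
  | inf f ih =>
    intro x
    refine ⟨Real.iInf_nonneg fun v => (ih _).1, ?_⟩
    exact (ciInf_le ⟨0, by rintro _ ⟨v, rfl⟩; exact (ih _).1⟩ (1 : unitary A)).trans (ih _).2
  | sup f ih =>
    intro x
    refine ⟨Real.iSup_nonneg fun v => (ih _).1, ?_⟩
    exact ciSup_le fun v => (ih _).2

theorem inf_le (φ : A → ℂ) {n : ℕ} (f : QF (n + 1)) (x : Fin n → A) {a : A}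
    (ha : a ∈ unitary A) : (QF.inf f).val φ x ≤ f.val φ (sn x a) :=
  ciInf_le (f := fun v : unitary A =>
      f.val φ (Fin.snoc (α := fun _ : Fin (n + 1) => A) x (v : A)))
    ⟨0, by rintro _ ⟨v, rfl⟩; exact (val_mem φ f _).1⟩ ⟨a, ha⟩

theorem le_sup (φ : A → ℂ) {n : ℕ} (f : QF (n + 1)) (x : Fin n → A) {a : A}
    (ha : a ∈ unitary A) : f.val φ (sn x a) ≤ (QF.sup f).val φ x :=
  le_ciSup (f := fun v : unitary A =>
      f.val φ (Fin.snoc (α := fun _ : Fin (n + 1) => A) x (v : A)))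
    ⟨1, by rintro _ ⟨v, rfl⟩; exact (val_mem φ f _).2⟩ ⟨a, ha⟩

theorem le_inf (φ : A → ℂ) {n : ℕ} (f : QF (n + 1)) (x : Fin n → A) {c : ℝ}
    (h : ∀ a ∈ unitary A, c ≤ f.val φ (sn x a)) : c ≤ (QF.inf f).val φ x :=
  le_ciInf fun v => h v v.2

theorem sup_le (φ : A → ℂ) {n : ℕ} (f : QF (n + 1)) (x : Fin n → A) {c : ℝ}
    (h : ∀ a ∈ unitary A, f.val φ (sn x a) ≤ c) : (QF.sup f).val φ x ≤ c :=
  ciSup_le fun v => h v v.2

theorem exists_inf (φ : A → ℂ) {n : ℕ} (f : QF (n + 1)) (x : Fin n → A) {c : ℝ}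
    (h : (QF.inf f).val φ x < c) : ∃ a ∈ unitary A, f.val φ (sn x a) < c := by
  obtain ⟨v, hv⟩ := exists_lt_of_ciInf_lt (f := fun v : unitary A =>
      f.val φ (Fin.snoc (α := fun _ : Fin (n + 1) => A) x (v : A))) h
  exact ⟨v, v.2, hv⟩

theorem exists_sup (φ : A → ℂ) {n : ℕ} (f : QF (n + 1)) (x : Fin n → A) {c : ℝ}
    (h : c < (QF.sup f).val φ x) : ∃ a ∈ unitary A, c < f.val φ (sn x a) := by
  obtain ⟨v, hv⟩ := exists_lt_of_lt_ciSup (f := fun v : unitary A =>
      f.val φ (Fin.snoc (α := fun _ : Fin (n + 1) => A) x (v : A))) h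
  exact ⟨v, v.2, hv⟩

/-! ### the formula -/

/-- difference of terms -/
noncomputable def tsb {ι : Type} (s t : Tm ι) : Tm ι := .add s (.smul (-1) t)
/-- commutator of terms -/
noncomputable def tcm {ι : Type} (a b : Tm ι) : Tm ι := tsb (.mul a b) (.mul b a)
/-- sum of formulas -/
def fad {ι : Type} (f g : Fm ι) : Fm ι := .op (fun a b => a + b) (by fun_prop) f g
/-- difference of formulas with a factor -/
def fsb {ι : Type} (K : ℝ) (f g : Fm ι) : Fm ι := .op (fun a b => a - K * b) (by fun_prop) f g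
/-- positive part of a formula -/
noncomputable def fpo {ι : Type} (f : Fm ι) : Fm ι := .op (fun a _ => max 0 a) (by fun_prop) f f

theorem ev_tsb {ι : Type} (x : ι → A) (s t : Tm ι) : (tsb s t).ev x = s.ev x - t.ev x := by
  show s.ev x + (-1 : ℂ) • t.ev x = s.ev x - t.ev x
  rw [neg_one_smul, ← sub_eq_add_neg]

theorem ev_tcm {ι : Type} (x : ι → A) (s t : Tm ι) :
    (tcm s t).ev x = cmt (s.ev x) (t.ev x) := by
  rw [tcm, ev_tsb]; rfl

/-- the formula of `DD` -/
noncomputable def fDD (v : Tm (Fin 10)) : Fm (Fin 10) :=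
  fad (fad (fad (fad (.n2s (tcm (.var 0) v)) (.n2s (tcm (.var 1) v))) (.n2s (tcm (.var 2) v)))
    (.n2s (tcm (.var 3) v))) (.n2s (tcm (.var 4) v))

theorem ev_fDD (φ : A → ℂ) (x : Fin 10 → A) (v : Tm (Fin 10)) :
    (fDD v).ev φ x = DD φ x (v.ev x) := by
  simp only [fDD, fad, Fm.ev, ev_tcm, DD, Tm.ev]

/-- the matrix -/
noncomputable def fFF (r K : ℝ) : Fm (Fin 10) :=
  fad (fad (fad (fad (.n2s (tsb (.mul (.var 5) (.var 5)) .one)) (fDD (.var 5)))
    (fpo (fsb K (fad (fad (fad (fad (fDD (.var 8)) (fDD (.var 9)))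
        (.n2s (tcm (.var 8) (.var 6)))) (.n2s (tcm (.var 9) (.var 6))))
        (.n2s (tsb (tsb (.smul 2 (.var 7)) (.mul (.add .one (.var 5)) (.var 8)))
          (.mul (tsb .one (.var 5)) (.var 9))))) (fDD (.var 7)))))
    (fpo (fsb K (.trs (tsb (.mul (.mul (.mul (.mul (.var 7) (.add .one (.var 5))) (.var 6))
        (tsb .one (.var 5))) (.star (.var 6)))
      (.smul ((2 * (1 - r) : ℝ) : ℂ) (.mul (.var 7) (.add .one (.var 5)))))) (fDD (.var 7)))))
    (fpo (fsb K (.trs (tsb (.mul (.mul (.mul (.mul (.var 7) (tsb .one (.var 5)))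
        (.star (.var 6))) (.add .one (.var 5))) (.var 6))
      (.smul ((2 * r : ℝ) : ℂ) (.mul (.var 7) (tsb .one (.var 5)))))) (fDD (.var 7))))

theorem ev_fFF (r K : ℝ) (φ : A → ℂ) (x : Fin 10 → A) : (fFF r K).ev φ x = FF r K φ x := by
  simp only [fFF, fad, fsb, fpo, Fm.ev, ev_fDD, ev_tcm, ev_tsb, Tm.ev, FF, pos]

/-- the sentence -/
noncomputable def SS (r K : ℝ) : QF 0 :=
  .inf (.inf (.sup (.sup (.sup (.inf (.inf (.sup (.inf (.inf (.qf (fFF r K)))))))))))

theorem sn10 (x : Fin 0 → A) (a0 a1 a2 a3 a4 a5 a6 a7 a8 a9 : A) :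
    sn (sn (sn (sn (sn (sn (sn (sn (sn (sn x a0) a1) a2) a3) a4) a5) a6) a7) a8) a9 =
      ![a0, a1, a2, a3, a4, a5, a6, a7, a8, a9] := by
  ext i
  fin_cases i <;> rfl

theorem SS_pos {r K : ℝ} {φ : A → ℂ} (h : PosS r K φ) (x : Fin 0 → A) :
    (SS r K).val φ x ≤ 0 := by
  refine le_of_forall_pos_le_add fun δ hδ => ?_
  rw [zero_add]
  obtain ⟨f₁, hf₁, f₂, hf₂, h⟩ := h
  refine (inf_le φ _ _ hf₁).trans ((inf_le φ _ _ hf₂).trans ?_)
  refine sup_le φ _ _ fun g₁ hg₁ => sup_le φ _ _ fun g₂ hg₂ => sup_le φ _ _ fun g₃ hg₃ => ?_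
  obtain ⟨w, hw, t, ht, h⟩ := h g₁ hg₁ g₂ hg₂ g₃ hg₃ δ hδ
  refine (inf_le φ _ _ hw).trans ((inf_le φ _ _ ht).trans ?_)
  refine sup_le φ _ _ fun y hy => ?_
  obtain ⟨y₁, hy₁, y₂, hy₂, h⟩ := h y hy
  refine (inf_le φ _ _ hy₁).trans ((inf_le φ _ _ hy₂).trans ?_)
  rw [sn10]
  show max 0 (min 1 ((fFF r K).ev φ _)) ≤ δ
  rw [ev_fFF]
  exact max_le hδ.le ((min_le_right _ _).trans h)

theorem SS_neg {r K : ℝ} {φ : A → ℂ} (h : NegS r K φ) :
    ∃ c : ℝ, 0 < c ∧ ∀ x : Fin 0 → A, c ≤ (SS r K).val φ x := by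
  obtain ⟨ε, hε, h⟩ := h
  refine ⟨min 1 ε, lt_min one_pos hε, fun x => ?_⟩
  refine le_inf φ _ _ fun f₁ hf₁ => le_inf φ _ _ fun f₂ hf₂ => ?_
  obtain ⟨g₁, hg₁, g₂, hg₂, g₃, hg₃, h⟩ := h f₁ hf₁ f₂ hf₂
  refine le_trans ?_ (le_sup φ _ _ hg₁)
  refine le_trans ?_ (le_sup φ _ _ hg₂)
  refine le_trans ?_ (le_sup φ _ _ hg₃)
  refine le_inf φ _ _ fun w hw => le_inf φ _ _ fun t ht => ?_
  obtain ⟨y, hy, h⟩ := h w hw t ht
  refine le_trans ?_ (le_sup φ _ _ hy)
  refine le_inf φ _ _ fun y₁ hy₁ => le_inf φ _ _ fun y₂ hy₂ => ?_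
  rw [sn10]
  show _ ≤ max 0 (min 1 ((fFF r K).ev φ _))
  rw [ev_fFF]
  exact le_max_of_le_right (min_le_min_left _ (h y₁ hy₁ y₂ hy₂))

/-- invariance under isomorphisms -/
theorem val_map {B : Type v} [Ring B] [StarRing B] [Algebra ℂ B] (e : A ≃⋆ₐ[ℂ] B) {φ : A → ℂ}
    {ψ : B → ℂ} (he : ∀ x, ψ (e x) = φ x) {n : ℕ} (f : QF n) :
    ∀ x : Fin n → A, f.val ψ (fun j => e (x j)) = f.val φ x := by
  let E : unitary A ≃ unitary B := e.toEquiv.subtypeEquiv fun x => (un_map e x).symm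
  induction f with
  | qf f =>
    intro x
    show max 0 (min 1 (f.ev ψ fun j => e (x j))) = max 0 (min 1 (f.ev φ x))
    rw [← Fm.ev_map (e : A →⋆ₐ[ℂ] B) (φ := φ) (ψ := ψ) he x f]
    rfl
  | inf f ih =>
    intro x
    refine (Equiv.iInf_congr E fun v => ?_).symm
    show f.val ψ (sn (fun j => e (x j)) (e (v : A))) = f.val φ (sn x (v : A))
    rw [← ih, sn_comp]
  | sup f ih =>
    intro x
    refine (Equiv.iSup_congr E fun v => ?_).symm
    show f.val ψ (sn (fun j => e (x j)) (e (v : A))) = f.val φ (sn x (v : A))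
    rw [← ih, sn_comp]

end basic

section los

variable {H : Type} [NormedAddCommGroup H] [InnerProductSpace ℂ H] [CompleteSpace H]
variable {N : VonNeumannAlgebra H} {T : TracialState N}
variable {I : Type w} {U : Ultrafilter I} {Q : Type w} [Ring Q] [StarRing Q] [Algebra ℂ Q]
variable {π : (I → Elt N) → Q} {φ : Q → ℂ}

/-- append a family -/
def snF {n : ℕ} (x : Fin n → I → Elt N) (y : I → Elt N) : Fin (n + 1) → I → Elt N :=
  Fin.snoc (α := fun _ : Fin (n + 1) => I → Elt N) x y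

theorem snF_ev {n : ℕ} (x : Fin n → I → Elt N) (y : I → Elt N) (i : I) :
    (fun j => snF x y j i) = sn (fun j => x j i) (y i) := by
  funext j
  refine Fin.lastCases ?_ (fun i => ?_) j
  · simp [sn, snF]
  · simp [sn, snF]

theorem snF_pi {n : ℕ} (x : Fin n → I → Elt N) (y : I → Elt N) :
    (fun j => π (snF x y j)) = sn (fun j => π (x j)) (π y) := by
  funext j
  refine Fin.lastCases ?_ (fun i => ?_) j
  · simp [sn, snF]
  · simp [sn, snF]

theorem snF_un {n : ℕ} {x : Fin n → I → Elt N} {y : I → Elt N}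
    (hx : ∀ j i, x j i ∈ unitary (Elt N)) (hy : ∀ i, y i ∈ unitary (Elt N)) :
    ∀ j i, snF x y j i ∈ unitary (Elt N) := by
  intro j
  refine Fin.lastCases ?_ (fun i => ?_) j
  · simpa [snF] using hy
  · simpa [snF] using hx i

/-- Łoś -/
theorem los (h : CE.IsTracialUltrapower (fun x => T.τ x) U π φ) {n : ℕ} (f : QF n) :
    ∀ x : Fin n → I → Elt N, (∀ j i, x j i ∈ unitary (Elt N)) →
    Tendsto (fun i => f.val (fun x => T.τ x) (fun j => x j i)) U
      (𝓝 (f.val φ (fun j => π (x j)))) := by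
  induction f with
  | qf f =>
    intro x hx
    have h1 := Fm.tendsto h x (fun j => bdd_un (hx j)) f
    have h2 : Continuous fun t : ℝ => max 0 (min 1 t) := by fun_prop
    exact (h2.tendsto _).comp h1
  | inf f ih =>
    intro x hx
    rw [tendsto_order]
    constructor
    · intro a ha
      obtain ⟨ε, hε, hε2⟩ : ∃ ε : ℝ, 0 < ε ∧
          a + 2 * ε = (QF.inf f).val φ (fun j => π (x j)) :=
        ⟨((QF.inf f).val φ (fun j => π (x j)) - a) / 2, by linarith, by ring⟩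
      choose y hy hy2 using fun i => exists_inf (fun x => T.τ x) f (fun j => x j i)
        (lt_add_of_pos_right ((QF.inf f).val (fun x => T.τ x) (fun j => x j i)) hε)
      have h1 := ih (snF x y) (snF_un hx hy)
      rw [snF_pi] at h1
      have h2 := inf_le φ f (fun j => π (x j)) (pi_unitary h hy)
      have h3 := (tendsto_order.1 h1).1 (a + ε) (by linarith)
      filter_upwards [h3] with i hi
      rw [snF_ev] at hi
      have := hy2 i
      linarith
    · intro b hb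
      obtain ⟨q, hq, hqb⟩ := exists_inf φ f _ hb
      obtain ⟨y, hy, rfl⟩ := exists_lift h q hq
      have h1 := ih (snF x y) (snF_un hx hy)
      rw [snF_pi] at h1
      filter_upwards [(tendsto_order.1 h1).2 b hqb] with i hi
      rw [snF_ev] at hi
      exact (inf_le _ f _ (hy i)).trans_lt hi
  | sup f ih =>
    intro x hx
    rw [tendsto_order]
    constructor
    · intro a ha
      obtain ⟨q, hq, hqb⟩ := exists_sup φ f _ ha
      obtain ⟨y, hy, rfl⟩ := exists_lift h q hq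
      have h1 := ih (snF x y) (snF_un hx hy)
      rw [snF_pi] at h1
      filter_upwards [(tendsto_order.1 h1).1 a hqb] with i hi
      rw [snF_ev] at hi
      exact hi.trans_le (le_sup _ f _ (hy i))
    · intro b hb
      obtain ⟨ε, hε, hε2⟩ : ∃ ε : ℝ, 0 < ε ∧
          b - 2 * ε = (QF.sup f).val φ (fun j => π (x j)) :=
        ⟨(b - (QF.sup f).val φ (fun j => π (x j))) / 2, by linarith, by ring⟩
      choose y hy hy2 using fun i => exists_sup (fun x => T.τ x) f (fun j => x j i)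
        (sub_lt_self ((QF.sup f).val (fun x => T.τ x) (fun j => x j i)) hε)
      have h1 := ih (snF x y) (snF_un hx hy)
      rw [snF_pi] at h1
      have h2 := le_sup φ f (fun j => π (x j)) (pi_unitary h hy)
      have h3 := (tendsto_order.1 h1).2 (b - ε) (by linarith)
      filter_upwards [h3] with i hi
      rw [snF_ev] at hi
      have := hy2 i
      linarith

theorem los_const (h : CE.IsTracialUltrapower (fun x => T.τ x) U π φ) (f : QF 0)
    (x : Fin 0 → Elt N) (y : Fin 0 → Q) : f.val (fun x => T.τ x) x = f.val φ y := by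
  have h1 := los h f (fun j => Fin.elim0 j) (fun j => Fin.elim0 j)
  have e1 : (fun j => π ((fun j => Fin.elim0 j : Fin 0 → I → Elt N) j)) = y :=
    funext fun j => Fin.elim0 j
  rw [e1] at h1
  refine tendsto_nhds_unique (tendsto_const_nhds.congr fun i => ?_) h1
  congr 1
  exact funext fun j => Fin.elim0 j

end los

end TRANS

open TRANS

variable {H K : Type} [NormedAddCommGroup H] [InnerProductSpace ℂ H] [CompleteSpace H]
  [NormedAddCommGroup K] [InnerProductSpace ℂ K] [CompleteSpace K]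
variable {N : VonNeumannAlgebra H} {T : TracialState N} {M : VonNeumannAlgebra K}
  {S : TracialState M}

/-- TASK TRANS: the sentence is an invariant of elementary equivalence. -/
theorem not_elemEquiv (hN : IsIIOneFactor N (fun x => T.τ x)) (hM : IsIIOneFactor M (fun x => S.τ x))
    {r K₀ : ℝ} (hpos : PosS r K₀ (fun x => T.τ x)) (hneg : NegS r K₀ (fun x => S.τ x)) :
    ¬ ElemEquiv.{w} (fun x => T.τ x) (fun x => S.τ x) := by
  rintro ⟨I, J, U, V, P, Q, _, _, _, _, _, _, π, φ, ρ, ψ, h1, h2, ⟨e⟩⟩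
  have hiso : ∀ x, ψ (e x) = φ x := iso_trace hN.center hN.infinite h1 h2 e
  have k1 := SS_pos hpos (fun j => Fin.elim0 j)
  obtain ⟨c, hc, k2⟩ := SS_neg hneg
  have k3 := k2 (fun j => Fin.elim0 j)
  rw [los_const h1 (SS r K₀) _ (fun j => Fin.elim0 j)] at k1
  rw [los_const h2 (SS r K₀) _ (fun j => e (Fin.elim0 j)), val_map e hiso] at k3
  linarith

end Pool.Agent.H289R2.RS
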