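import Mathlib
import Pool.Agent.Helper278.DefsG
import Pool.Agent.Helper278.CEStmt
import Pool.Agent.Helper436.SM.Stmt
import Pool.Agent.Helper436.SM.Main
import Pool.Agent.Helper159.GM.Stmt
import Pool.Agent.Helper159.GM.NoMc
import Pool.Agent.Helper159.GM.Asm
import Pool.Agent.H289R2.RS.POS
import Pool.Agent.H289R2.RS.NEG
import Pool.Agent.H289R2.RS.FAC
import Pool.Agent.H289R2.RS.TRANS
import Pool.Agent.H289R2.RS.MOD
import Pool.Agent.H289R2.RS.RDM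
import Pool.Agent.H289R2.RS.SEP

set_option autoImplicit false
set_option linter.unusedSectionVars false

open scoped InnerProductSpace ComplexOrder Topology
open Filter

namespace Pool.Agent.H289R2.RS

open Pool.Agent.Helper278 Pool.Agent.Helper278.CE Pool.Agent.Helper436.SM Pool.Agent.Helper159.GM

universe w

theorem elemEquiv_symm' {A : Type} [CStarAlgebra A] {τ : A → ℂ} {B : Type} [CStarAlgebra B]
    {σ : B → ℂ} (h : ElemEquiv.{w} τ σ) : ElemEquiv.{w} σ τ := by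
  obtain ⟨I, J, U, V, P, Q, i1, i2, i3, i4, i5, i6, π, φ, ρ, ψ, h1, h2, ⟨e⟩⟩ := h
  exact ⟨J, I, V, U, Q, P, i4, i5, i6, i1, i2, i3, ρ, ψ, π, φ, h2, h1, ⟨e.symm⟩⟩

abbrev HS : Type := EllTwo (Finset JJ × GG)

/-- the data of the factor with weight `s` -/
structure MD (s : ℝ) : Type where
  N : VonNeumannAlgebra HS
  T : TracialState N
  Ω : HS
  hΩ : ∀ x : Elt N, T.τ x = ⟪Ω, (x : HS →L[ℂ] HS) Ω⟫_ℂ
  e : ℕ → Elt N
  p : Elt N
  q : Elt N
  v : ℕ → Elt N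
  t : ℕ → Elt N
  B : ℕ → StarSubalgebra ℂ (Elt N)
  D : ℕ → StarSubalgebra ℂ (Elt N)
  rd : RD T.τ s e p q v t B D

theorem exists_md (s : ℝ) (h0 : 0 < s) (h1 : s < 1) : Nonempty (MD s) := by
  obtain ⟨N, T, Ω, u, e, hat, hΩ, hhat, hbm⟩ := exists_bm (J := JJ) (G := GG) s h0 h1
  exact ⟨⟨N, T, Ω, hΩ, _, _, _, _, _, _, _, rd_of_bm hbm⟩⟩

theorem md_factor {s : ℝ} (m : MD s) : IsIIOneFactor m.N (fun x => m.T.τ x) := by
  refine ⟨?_, rd_infinite m.rd, ⟨m.T.map_one, m.T.tracial, m.T.faithful⟩, m.T.normal⟩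
  intro z hz hcom
  obtain ⟨c, hc⟩ := rd_center m.rd (⟨z, hz⟩ : Elt m.N) (fun x => Subtype.ext (hcom x x.2))
  exact ⟨c, congrArg Subtype.val hc⟩

theorem md_gamma {s : ℝ} (m : MD s) (h1 : 3 / 10 ≤ s) (h2 : s ≤ 1 / 2) :
    HasGamma (fun x => m.T.τ x) := by
  intro F ε hε
  exact rd_gamma m.rd h1 h2 F ε hε

theorem md_ne {s s' : ℝ} (m : MD s) (m' : MD s') (h1 : 3 / 10 ≤ s) (h : s < s') (h2 : s' < 1 / 2) :
    ¬ ElemEquiv.{w} (fun x => m.T.τ x) (fun x => m'.T.τ x) := by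
  intro hE
  exact not_elemEquiv (md_factor m') (md_factor m) (pos_of_rd m'.rd (h1.trans h.le) h2.le)
    (neg_of_rd m.rd h h2 (by norm_num)) (elemEquiv_symm' hE)

/-- an injection of `ℝ` into `(3/10, 1/2)` -/
noncomputable def wgt (t : ℝ) : ℝ := 3 / 10 + 1 / 5 / (1 + Real.exp t)

theorem wgt_gt (t : ℝ) : 3 / 10 < wgt t := by
  have : 0 < 1 / 5 / (1 + Real.exp t) := by positivity
  unfold wgt
  linarith

theorem wgt_lt (t : ℝ) : wgt t < 1 / 2 := by
  have h1 : (0 : ℝ) < Real.exp t := Real.exp_pos t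
  have : 1 / 5 / (1 + Real.exp t) < 1 / 5 := by
    rw [div_lt_iff₀ (by positivity)]
    nlinarith
  unfold wgt
  linarith

theorem wgt_inj : Function.Injective wgt := by
  intro s t hst
  have h1 : (0 : ℝ) < 1 + Real.exp s := by positivity
  have h2 : (0 : ℝ) < 1 + Real.exp t := by positivity
  have h3 : (1 / 5 : ℝ) / (1 + Real.exp s) = 1 / 5 / (1 + Real.exp t) := by
    unfold wgt at hst
    linarith
  rw [div_eq_div_iff h1.ne' h2.ne'] at h3
  have h4 := mul_left_cancel₀ (by norm_num : (1 / 5 : ℝ) ≠ 0) h3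
  exact Real.exp_injective (by linarith)

theorem exists_continuum :
    ∃ (R : VNA) (N : ℝ → VNA), IsHyperfiniteII R.N R.τ ∧
      (∀ t, IsIIOneFactor (N t).N (N t).τ ∧ Helper436.SN.IsSeparable (N t).τ ∧
        HasGamma (N t).τ ∧ ¬ IsMcDuff R.N R.τ (N t).N (N t).τ) ∧
      ∀ s t, s ≠ t → ¬ ElemEquiv.{w} (N s).τ (N t).τ := by
  obtain ⟨L, _, _, _, R, T, W, hW, hP⟩ := ExR.exists_R
  have hpb := pb_unit (trAlg T) hW hP
  have hII := isIIOne_of hpb gapAll_unit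
  have hhyp := Hyp.hyperfinite_of_pauli (trAlg T) hW hP
  have m : ∀ t : ℝ, MD (wgt t) := fun t =>
    (exists_md (wgt t) (by linarith [wgt_gt t]) (by linarith [wgt_lt t])).some
  refine ⟨⟨L, R, fun x => T.τ x⟩, fun t => ⟨HS, (m t).N, fun x => (m t).T.τ x⟩, ⟨hII, hhyp⟩,
    fun t => ⟨md_factor (m t), separable_of_vec (m t).hΩ, md_gamma (m t) (wgt_gt t).le (wgt_lt t).le, ?_⟩, ?_⟩
  · exact not_mcDuff (m t).N (m t).T (m t).Ω (m t).hΩ (m t).p (m t).q 80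
      (fun x hx y hy => rd_comm (m t).rd x y hx hy) R T W hW hP
  · intro s t hst
    rcases lt_or_gt_of_ne (fun h => hst (wgt_inj h)) with h | h
    · exact md_ne (m s) (m t) (wgt_gt s).le h (wgt_lt t)
    · intro hE
      exact md_ne (m t) (m s) (wgt_gt t).le h (wgt_lt s) (elemEquiv_symm' hE)

end Pool.Agent.H289R2.RS
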