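import Mathlib
import Pool.Agent.H289R2.RS.Defs2
import Pool.Agent.Helper159.GM.JFreeConj
import Pool.Agent.Helper159.GM.JFreeAct

set_option autoImplicit false
set_option linter.unusedSectionVars false

open scoped Pointwise

namespace Pool.Agent.H289R2.RS

/-- the embedding of `F₂` -/
def sets_phi : F2 →* GG := FreeGroup.lift fun b => FreeGroup.of (Sum.inl b)

theorem sets_phi_of (b : Bool) : sets_phi (FreeGroup.of b) = FreeGroup.of (Sum.inl b) := by
  rw [sets_phi, FreeGroup.lift_apply_of]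

theorem sets_of_none (b : Bool) (i : ℕ) :
    (FreeGroup.of (Sum.inl b) : GG) • ((i, none) : JJ) = (i, none) := by
  cases b
  · exact gq_none i
  · exact gp_none i

theorem sets_of_some (b : Bool) (i : ℕ) (x : F2) :
    (FreeGroup.of (Sum.inl b) : GG) • ((i, some x) : JJ) = (i, some (FreeGroup.of b * x)) := by
  cases b
  · exact gq_some i x
  · exact gp_some i x

theorem sets_phi_none (x : F2) : ∀ i : ℕ, sets_phi x • ((i, none) : JJ) = (i, none) := by
  induction x using FreeGroup.induction_on with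
  | C1 =>
    intro i
    rw [map_one, one_smul]
  | of b =>
    intro i
    show sets_phi (FreeGroup.of b) • ((i, none) : JJ) = (i, none)
    rw [sets_phi_of, sets_of_none]
  | inv_of b ih =>
    intro i
    show sets_phi (FreeGroup.of b)⁻¹ • ((i, none) : JJ) = (i, none)
    rw [map_inv, inv_smul_eq_iff, sets_phi_of, sets_of_none]
  | mul x y hx hy =>
    intro i
    rw [map_mul, mul_smul, hy, hx]

theorem sets_phi_some (x : F2) :
    ∀ (i : ℕ) (y : F2), sets_phi x • ((i, some y) : JJ) = (i, some (x * y)) := by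
  induction x using FreeGroup.induction_on with
  | C1 =>
    intro i y
    rw [map_one, one_smul, one_mul]
  | of b =>
    intro i y
    show sets_phi (FreeGroup.of b) • ((i, some y) : JJ) = (i, some (FreeGroup.of b * y))
    rw [sets_phi_of, sets_of_some]
  | inv_of b ih =>
    intro i y
    show sets_phi (FreeGroup.of b)⁻¹ • ((i, some y) : JJ) = (i, some ((FreeGroup.of b)⁻¹ * y))
    rw [map_inv, inv_smul_eq_iff, sets_phi_of, sets_of_some, mul_inv_cancel_left]
  | mul x y hx hy =>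
    intro i z
    rw [map_mul, mul_smul, hy, hx, mul_assoc]

theorem sets_snd (x : F2) (j : JJ) : (sets_phi x • j).2 ≠ none ↔ j.2 ≠ none := by
  obtain ⟨i, y⟩ := j
  cases y with
  | none => rw [sets_phi_none]
  | some y =>
    rw [sets_phi_some]
    simp

abbrev SX : Type := {σ : Finset JJ // ∃ j ∈ σ, j.2 ≠ none}

theorem sets_ex (x : F2) (σ : Finset JJ) :
    (∃ j ∈ sets_phi x • σ, j.2 ≠ none) ↔ ∃ j ∈ σ, j.2 ≠ none := by
  constructor
  · rintro ⟨j, hj, hj2⟩
    obtain ⟨k, hk, rfl⟩ := Finset.mem_smul_finset.1 hj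
    exact ⟨k, hk, (sets_snd x k).1 hj2⟩
  · rintro ⟨j, hj, hj2⟩
    exact ⟨sets_phi x • j, Finset.smul_mem_smul_finset hj, (sets_snd x j).2 hj2⟩

@[reducible] def sets_act : MulAction F2 SX where
  smul x σ := ⟨sets_phi x • σ.1, (sets_ex x σ.1).2 σ.2⟩
  one_smul σ := by
    apply Subtype.ext
    show sets_phi 1 • σ.1 = σ.1
    rw [map_one, one_smul]
  mul_smul x y σ := by
    apply Subtype.ext
    show sets_phi (x * y) • σ.1 = sets_phi x • (sets_phi y • σ.1)
    rw [map_mul, mul_smul]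

theorem sets_free (x : F2) (σ : Finset JJ) (hσ : ∃ j ∈ σ, j.2 ≠ none)
    (h : sets_phi x • σ = σ) : x = 1 := by
  by_contra hx
  obtain ⟨⟨i, y⟩, hj, hj2⟩ := hσ
  cases y with
  | none => exact hj2 rfl
  | some y =>
    have h1 : ∀ n : ℕ, ((i, some (x ^ n * y)) : JJ) ∈ σ := by
      intro n
      induction n with
      | zero => simpa using hj
      | succ n ih =>
        have h2 := Finset.smul_mem_smul_finset (a := sets_phi x) ih
        rw [h, sets_phi_some, ← mul_assoc, ← pow_succ'] at h2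
        exact h2
    have hinj : Function.Injective (fun n : ℕ => ((i, some (x ^ n * y)) : JJ)) := by
      intro a b hab
      have h8 : x ^ a * y = x ^ b * y := by
        have := congrArg (fun z : JJ => z.2) hab
        exact Option.some.inj this
      have h9 : x ^ a = x ^ b := mul_right_cancel h8
      have h10 : ¬ IsOfFinOrder x := not_isOfFinOrder_of_isMulTorsionFree hx
      exact (injective_pow_iff_not_isOfFinOrder.mpr h10) h9
    have hfin : (Set.range (fun n : ℕ => ((i, some (x ^ n * y)) : JJ))).Finite := by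
      apply Set.Finite.subset σ.finite_toSet
      rintro _ ⟨n, rfl⟩
      exact h1 n
    exact Set.infinite_range_of_injective hinj hfin

theorem sets_cj (b : Bool) (i : Finset JJ × GG) : cjI (FreeGroup.of (Sum.inl b))⁻¹ i =
    (sets_phi (FreeGroup.of b) • i.1,
      FreeGroup.of (Sum.inl b) * i.2 * (FreeGroup.of (Sum.inl b))⁻¹) := by
  rw [sets_phi_of]
  show ((FreeGroup.of (Sum.inl b))⁻¹⁻¹ • i.1, (FreeGroup.of (Sum.inl b))⁻¹⁻¹ * i.2 * _) = _
  rw [inv_inv]

/-- combination of the two kinds of sets -/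
def sets_S (B' : Set SX) (B'' : Set GG) : Set (Finset JJ × GG) :=
  {i | (i.2 ≠ 1 ∧ i.2 ∈ B'') ∨ (i.2 = 1 ∧ ∃ h : (∃ j ∈ i.1, j.2 ≠ none), (⟨i.1, h⟩ : SX) ∈ B')}

theorem sets_mem1 (B' : Set SX) (B'' : Set GG) (i : Finset JJ × GG) (h : i.2 ≠ 1) :
    i ∈ sets_S B' B'' ↔ i.2 ∈ B'' := by
  constructor
  · rintro (⟨_, h2⟩ | ⟨h1, _⟩)
    · exact h2
    · exact absurd h1 h
  · exact fun h2 => Or.inl ⟨h, h2⟩

theorem sets_mem2 (B' : Set SX) (B'' : Set GG) (i : Finset JJ × GG) (h : i.2 = 1) :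
    i ∈ sets_S B' B'' ↔ ∃ h : (∃ j ∈ i.1, j.2 ≠ none), (⟨i.1, h⟩ : SX) ∈ B' := by
  constructor
  · rintro (⟨h1, _⟩ | ⟨_, h2⟩)
    · exact absurd h h1
    · exact h2
  · exact fun h2 => Or.inr ⟨h, h2⟩

theorem sets_cj_one (b : Bool) (i : Finset JJ × GG) :
    (cjI (FreeGroup.of (Sum.inl b))⁻¹ i).2 = 1 ↔ i.2 = 1 := by
  rw [sets_cj]
  show FreeGroup.of (Sum.inl b) * i.2 * (FreeGroup.of (Sum.inl b))⁻¹ = 1 ↔ _
  rw [mul_inv_eq_one]
  constructor
  · intro h
    exact mul_left_cancel (h.trans (mul_one _).symm)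
  · intro h
    rw [h, mul_one]

/-- TASK SETS: paradoxical decomposition of the basis elements outside `IC` for the conjugations
by `p` and `q`. -/
theorem setsI : ∃ B E : Set (Finset JJ × GG), Disjoint B E ∧ Disjoint B (cjI gp⁻¹ '' B) ∧
    Disjoint B (cjI gp⁻¹ '' (cjI gp⁻¹ '' B)) ∧ cjI gq⁻¹ '' E ⊆ B ∧
    ∀ i : Finset JJ × GG, i ∉ IC → i ∈ B ∪ E := by
  let _ := sets_act
  obtain ⟨B', E', hd', hu', hb1', hb2', he'⟩ := Helper159.GM.free_act (X := SX) (by
    intro f k hk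
    exact sets_free f k.1 k.2 (congrArg Subtype.val hk))
  obtain ⟨B'', E'', hd'', hu'', hb1'', hb2'', he''⟩ :=
    Helper159.GM.free_conj (X := XX) (Sum.inl true) (Sum.inl false) (by simp)
  refine ⟨sets_S B' B'', sets_S E' E'', ?_, ?_, ?_, ?_, ?_⟩
  · rw [Set.disjoint_left]
    intro i hi hi'
    by_cases h : i.2 = 1
    · rw [sets_mem2 _ _ _ h] at hi hi'
      obtain ⟨h1, h2⟩ := hi
      obtain ⟨h3, h4⟩ := hi'
      exact Set.disjoint_left.1 hd' h2 h4
    · rw [sets_mem1 _ _ _ h] at hi hi'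
      exact Set.disjoint_left.1 hd'' hi hi'
  · rw [Set.disjoint_left]
    rintro _ hi ⟨i, hi', rfl⟩
    by_cases h : i.2 = 1
    · have h0 := (sets_cj_one true i).2 h
      rw [sets_mem2 _ _ _ h] at hi'
      obtain ⟨h1, h2⟩ := hi'
      obtain ⟨h3, h4⟩ := (sets_mem2 _ _ _ h0).1 hi
      have e : (⟨(cjI gp⁻¹ i).1, h3⟩ : SX) = (FreeGroup.of true : F2) • (⟨i.1, h1⟩ : SX) :=
        Subtype.ext (congrArg Prod.fst (sets_cj true i))
      have h6 : (⟨(cjI gp⁻¹ i).1, h3⟩ : SX) ∈ B' := h4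
      rw [e] at h6
      exact hb1' _ h2 h6
    · have h0 : (cjI gp⁻¹ i).2 ≠ 1 := fun h2 => h ((sets_cj_one true i).1 h2)
      rw [sets_mem1 _ _ _ h] at hi'
      rw [sets_mem1 _ _ _ h0, show (cjI gp⁻¹ i).2 = _ from congrArg Prod.snd (sets_cj true i)] at hi
      exact hb1'' _ hi' hi
  · rw [Set.disjoint_left]
    rintro _ hi ⟨_, ⟨i, hi', rfl⟩, rfl⟩
    by_cases h : i.2 = 1
    · have h0 := (sets_cj_one true i).2 h
      have h00 := (sets_cj_one true (cjI gp⁻¹ i)).2 h0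
      rw [sets_mem2 _ _ _ h] at hi'
      obtain ⟨h1, h2⟩ := hi'
      obtain ⟨h3, h4⟩ := (sets_mem2 _ _ _ h00).1 hi
      have h5 : ∃ j ∈ (cjI gp⁻¹ i).1, j.2 ≠ none := by
        rw [show (cjI gp⁻¹ i).1 = _ from congrArg Prod.fst (sets_cj true i)]
        exact (sets_ex _ _).2 h1
      have e : (⟨(cjI gp⁻¹ i).1, h5⟩ : SX) = (FreeGroup.of true : F2) • (⟨i.1, h1⟩ : SX) :=
        Subtype.ext (congrArg Prod.fst (sets_cj true i))
      have e2 : (⟨(cjI gp⁻¹ (cjI gp⁻¹ i)).1, h3⟩ : SX) =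
          (FreeGroup.of true : F2) • (⟨(cjI gp⁻¹ i).1, h5⟩ : SX) :=
        Subtype.ext (congrArg Prod.fst (sets_cj true _))
      have h6 : (⟨(cjI gp⁻¹ (cjI gp⁻¹ i)).1, h3⟩ : SX) ∈ B' := h4
      rw [e2, e] at h6
      exact hb2' _ h2 h6
    · have h0 : (cjI gp⁻¹ i).2 ≠ 1 := fun h2 => h ((sets_cj_one true i).1 h2)
      have h00 : (cjI gp⁻¹ (cjI gp⁻¹ i)).2 ≠ 1 := fun h2 => h0 ((sets_cj_one true _).1 h2)
      rw [sets_mem1 _ _ _ h] at hi'
      rw [sets_mem1 _ _ _ h00,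
        show (cjI gp⁻¹ (cjI gp⁻¹ i)).2 = _ from congrArg Prod.snd (sets_cj true _),
        show (cjI gp⁻¹ i).2 = _ from congrArg Prod.snd (sets_cj true i)] at hi
      exact hb2'' _ hi' hi
  · rintro _ ⟨i, hi', rfl⟩
    by_cases h : i.2 = 1
    · have h0 := (sets_cj_one false i).2 h
      rw [sets_mem2 _ _ _ h] at hi'
      obtain ⟨h1, h2⟩ := hi'
      have h5 : ∃ j ∈ (cjI gq⁻¹ i).1, j.2 ≠ none := by
        rw [show (cjI gq⁻¹ i).1 = _ from congrArg Prod.fst (sets_cj false i)]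
        exact (sets_ex _ _).2 h1
      have e : (⟨(cjI gq⁻¹ i).1, h5⟩ : SX) = (FreeGroup.of false : F2) • (⟨i.1, h1⟩ : SX) :=
        Subtype.ext (congrArg Prod.fst (sets_cj false i))
      have h6 : (⟨(cjI gq⁻¹ i).1, h5⟩ : SX) ∈ B' := by
        rw [e]
        exact he' _ h2
      exact (sets_mem2 _ _ _ h0).2 ⟨h5, h6⟩
    · have h0 : (cjI gq⁻¹ i).2 ≠ 1 := fun h2 => h ((sets_cj_one false i).1 h2)
      rw [sets_mem1 _ _ _ h] at hi'
      refine (sets_mem1 _ _ _ h0).2 ?_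
      rw [show (cjI gq⁻¹ i).2 = _ from congrArg Prod.snd (sets_cj false i)]
      exact he'' _ hi'
  · intro i hi
    by_cases h : i.2 = 1
    · have h1 : ∃ j ∈ i.1, j.2 ≠ none := by
        by_contra hcon
        push Not at hcon
        exact hi ⟨h, hcon⟩
      have h2 : (⟨i.1, h1⟩ : SX) ∈ B' ∪ E' := by rw [hu']; exact Set.mem_univ _
      rcases h2 with h2 | h2
      · exact Or.inl ((sets_mem2 _ _ _ h).2 ⟨h1, h2⟩)
      · exact Or.inr ((sets_mem2 _ _ _ h).2 ⟨h1, h2⟩)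
    · have h2 : i.2 ∈ B'' ∪ E'' := by rw [hu'']; exact h
      rcases h2 with h2 | h2
      · exact Or.inl ((sets_mem1 _ _ _ h).2 h2)
      · exact Or.inr ((sets_mem1 _ _ _ h).2 h2)

end Pool.Agent.H289R2.RS
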