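import Mathlib
import Pool.Agent.H289R2.RS.Defs2
import Pool.Agent.H289R2.RS.SETS

set_option autoImplicit false
set_option linter.unusedSectionVars false

open scoped Pointwise ComplexOrder

namespace Pool.Agent.H289R2.RS

open Pool.Agent.Helper278 Pool.Agent.Helper278.CE

variable {A : Type} [Ring A] [StarRing A] [Algebra ℂ A] [StarModule ℂ A] {τ : A →ₗ[ℂ] ℂ} {s : ℝ}
  {u : GG →* A} {e : JJ → A} {hat : A →ₗ[ℂ] EllTwo (Finset JJ × GG)}

/-! TASK GAPM -/

theorem GAPM_hat_h (h : BM τ s u e hat) (a : JJ) (x : A) (σ : Finset JJ) (k : GG) :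
    hat (((((Real.sqrt (s * (1 - s)))⁻¹ : ℝ) : ℂ) • (e a - (s : ℂ) • (1 : A))) * x) (σ, k) =
      if a ∈ σ then (((Real.sqrt (s * (1 - s)))⁻¹ : ℝ) : ℂ) * (((1 - s : ℝ) : ℂ) - (s : ℂ)) *
        hat x (σ, k) + hat x (σ.erase a, k)
      else hat x (insert a σ, k) := by
  have hr : 0 < Real.sqrt (s * (1 - s)) :=
    Real.sqrt_pos.2 (mul_pos h.s_pos (by linarith [h.s_lt]))
  set r : ℝ := Real.sqrt (s * (1 - s)) with hrdef
  have hr' : (r : ℂ) ≠ 0 := Complex.ofReal_ne_zero.2 hr.ne'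
  have e1 : ((((r)⁻¹ : ℝ) : ℂ) • (e a - (s : ℂ) • (1 : A))) * x =
      ((r⁻¹ : ℝ) : ℂ) • (e a * x) - (((r⁻¹ : ℝ) : ℂ) * (s : ℂ)) • x := by
    rw [smul_mul_assoc, sub_mul, smul_mul_assoc, one_mul, smul_sub, smul_smul]
  rw [e1, map_sub, map_smul, map_smul]
  have e2 : (((r⁻¹ : ℝ) : ℂ) • hat (e a * x) - (((r⁻¹ : ℝ) : ℂ) * (s : ℂ)) • hat x) (σ, k) =
      ((r⁻¹ : ℝ) : ℂ) * hat (e a * x) (σ, k) - (((r⁻¹ : ℝ) : ℂ) * (s : ℂ)) * hat x (σ, k) := rfl
  rw [e2, h.hat_e]
  have e3 : ((r⁻¹ : ℝ) : ℂ) * (r : ℂ) = 1 := by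
    rw [Complex.ofReal_inv, inv_mul_cancel₀ hr']
  rw [← hrdef]
  by_cases ha : a ∈ σ
  · rw [if_pos ha, if_pos ha]
    linear_combination (hat x (σ.erase a, k)) * e3
  · rw [if_neg ha, if_neg ha]
    linear_combination (hat x (insert a σ, k)) * e3

/-- monomials: elements with prescribed basis vector -/
theorem exists_mon (h : BM τ s u e hat) (σ : Finset JJ) (g : GG) : ∃ m : A,
    (∀ i, hat (m * u g) i = if i.1 = σ ∧ i.2 = g then 1 else 0) ∧
    m ∈ StarAlgebra.adjoin ℂ (e '' (σ : Set JJ)) := by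
  induction σ using Finset.induction with
  | empty =>
    refine ⟨1, ?_, one_mem _⟩
    rintro ⟨σ, k⟩
    rw [h.hat_xu]
    by_cases hk : σ = ∅ ∧ k = g
    · rw [if_pos hk, hk.1, hk.2, mul_inv_cancel]
      exact h.hat_one
    · rw [if_neg hk]
      refine h.hat_one' _ ?_
      intro hc
      rw [Prod.mk.injEq] at hc
      exact hk ⟨hc.1, mul_inv_eq_one.1 hc.2⟩
  | insert a S haS ih =>
    obtain ⟨m, hm, hmem⟩ := ih
    refine ⟨((((Real.sqrt (s * (1 - s)))⁻¹ : ℝ) : ℂ) • (e a - (s : ℂ) • (1 : A))) * m, ?_, ?_⟩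
    · rintro ⟨σ, k⟩
      rw [mul_assoc, GAPM_hat_h h]
      by_cases ha : a ∈ σ
      · rw [if_pos ha, hm, hm]
        have h1 : ¬ (σ = S ∧ k = g) := fun hc => haS (hc.1 ▸ ha)
        have h2 : (σ.erase a = S ∧ k = g) ↔ (σ = insert a S ∧ k = g) := by
          refine and_congr_left fun _ => ?_
          constructor
          · intro h3
            rw [← h3, Finset.insert_erase ha]
          · intro h3
            rw [h3, Finset.erase_insert haS]
        rw [if_neg (show ¬ ((σ, k).1 = S ∧ (σ, k).2 = g) from h1), mul_zero, zero_add]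
        exact if_congr h2 rfl rfl
      · rw [if_neg ha, hm]
        have h1 : ¬ (insert a σ = S ∧ k = g) := fun hc => haS (hc.1 ▸ Finset.mem_insert_self a σ)
        have h2 : ¬ (σ = insert a S ∧ k = g) := fun hc => ha (hc.1 ▸ Finset.mem_insert_self a S)
        rw [if_neg (show ¬ ((insert a σ, k).1 = S ∧ (insert a σ, k).2 = g) from h1),
          if_neg (show ¬ ((σ, k).1 = insert a S ∧ (σ, k).2 = g) from h2)]
    · have hle : (e '' (S : Set JJ)) ⊆ (e '' ((insert a S : Finset JJ) : Set JJ)) :=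
        Set.image_mono (by rw [Finset.coe_insert]; exact Set.subset_insert _ _)
      have hea : e a ∈ StarAlgebra.adjoin ℂ (e '' ((insert a S : Finset JJ) : Set JJ)) :=
        StarAlgebra.subset_adjoin ℂ _ ⟨a, by simp, rfl⟩
      refine mul_mem ?_ (StarAlgebra.adjoin_mono hle hmem)
      exact SMulMemClass.smul_mem _ (sub_mem hea (SMulMemClass.smul_mem _ (one_mem _)))

theorem GAPM_n2_mul_u (h : BM τ s u e hat) (g : GG) (y : A) : n2 τ (y * u g) = n2 τ y := by
  rw [h.n2_eq, h.n2_eq]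
  have h1 : hat (y * u g) =
      permOp ((Equiv.refl (Finset JJ)).prodCongr (Equiv.mulRight g⁻¹)) (hat y) := by
    ext i
    obtain ⟨σ, k⟩ := i
    rw [permOp_apply, h.hat_xu]
    rfl
  rw [h1, norm_permOp]

theorem n2_comm_u (h : BM τ s u e hat) (g : GG) (x : A) :
    n2 τ (u g * x - x * u g) = ‖permOp (cjI g) (hat x) - hat x‖ := by
  have h1 : u g * x - x * u g = (u g * x * u g⁻¹ - x) * u g := by
    rw [sub_mul, mul_assoc (u g * x), ← map_mul, inv_mul_cancel, map_one, mul_one]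
  rw [h1, GAPM_n2_mul_u h, h.n2_eq, map_sub]
  have h2 : hat (u g * x * u g⁻¹) = permOp (cjI g) (hat x) := by
    ext i
    obtain ⟨σ, k⟩ := i
    rw [permOp_apply, h.hat_xu, h.hat_u, inv_inv]
    show hat x (g⁻¹ • σ, g⁻¹ * (k * g)) = hat x (g⁻¹ • σ, g⁻¹ * k * g)
    rw [mul_assoc]
  rw [h2]

theorem GAPM_inv (g : GG) (f : EllTwo (Finset JJ × GG)) :
    ‖permOp (cjI g⁻¹) f - f‖ = ‖permOp (cjI g) f - f‖ := by
  have h1 : permOp (cjI g) (permOp (cjI g⁻¹) f - f) = -(permOp (cjI g) f - f) := by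
    rw [map_sub]
    have h2 : permOp (cjI g) (permOp (cjI g⁻¹) f) = f := by
      ext i
      rw [permOp_apply, permOp_apply]
      have h3 : (cjI g⁻¹) ((cjI g) i) = i := by
        apply Prod.ext
        · show g⁻¹⁻¹ • (g⁻¹ • i.1) = i.1
          rw [inv_inv, smul_inv_smul]
        · show g⁻¹⁻¹ * (g⁻¹ * i.2 * g) * g⁻¹ = i.2
          group
      rw [h3]
    rw [h2, neg_sub]
  rw [← norm_permOp (cjI g) (permOp (cjI g⁻¹) f - f), h1, norm_neg]

theorem GAPM_none_p (j : JJ) : (gp • j).2 = none ↔ j.2 = none := by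
  obtain ⟨i, y⟩ := j
  cases y with
  | none => rw [gp_none]
  | some y => rw [gp_some]; simp

theorem GAPM_none_q (j : JJ) : (gq • j).2 = none ↔ j.2 = none := by
  obtain ⟨i, y⟩ := j
  cases y with
  | none => rw [gq_none]
  | some y => rw [gq_some]; simp

theorem GAPM_IC (g : GG) (hg : ∀ j : JJ, (g • j).2 = none ↔ j.2 = none)
    (i : Finset JJ × GG) : cjI g⁻¹ i ∈ IC ↔ i ∈ IC := by
  have h1 : (cjI g⁻¹ i).1 = g • i.1 := by
    show g⁻¹⁻¹ • i.1 = g • i.1
    rw [inv_inv]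
  have h2 : (cjI g⁻¹ i).2 = g * i.2 * g⁻¹ := by
    show g⁻¹⁻¹ * i.2 * g⁻¹ = g * i.2 * g⁻¹
    rw [inv_inv]
  unfold IC
  rw [Set.mem_ofPred_eq, Set.mem_ofPred_eq, h1, h2]
  refine and_congr ?_ ?_
  · constructor
    · intro h3
      have h4 : g * i.2 = g := by
        have := congrArg (· * g) h3
        simpa using this
      simpa using h4
    · intro h3
      rw [h3, mul_one, mul_inv_cancel]
  · constructor
    · intro h3 j hj
      exact (hg j).1 (h3 (g • j) (Finset.smul_mem_smul_finset hj))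
    · intro h3 j hj
      obtain ⟨k, hk, rfl⟩ := Finset.mem_smul_finset.1 hj
      exact (hg k).2 (h3 k hk)

theorem GAPM_cut (g : GG) (hg : ∀ j : JJ, (g • j).2 = none ↔ j.2 = none)
    (f : EllTwo (Finset JJ × GG)) :
    ‖permOp (cjI g⁻¹) (cut ICᶜ f) - cut ICᶜ f‖ ≤ ‖permOp (cjI g) f - f‖ := by
  have h1 : cjI g⁻¹ '' ICᶜ = ICᶜ := by
    ext i
    constructor
    · rintro ⟨k, hk, rfl⟩ hc
      exact hk ((GAPM_IC g hg k).1 hc)
    · intro hi
      refine ⟨(cjI g⁻¹).symm i, ?_, Equiv.apply_symm_apply _ _⟩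
      intro hc
      apply hi
      have := (GAPM_IC g hg ((cjI g⁻¹).symm i)).2 hc
      rwa [Equiv.apply_symm_apply] at this
  have h2 : permOp (cjI g⁻¹) (cut ICᶜ f) = cut ICᶜ (permOp (cjI g⁻¹) f) := by
    rw [cut_permOp, h1]
  rw [h2, ← cut_sub, ← GAPM_inv]
  exact norm_cut_le_norm _ _

theorem GAPM_gv_ge (n : ℕ) (j : JJ) (hj : n ≤ j.1) : gv n • j = j := by
  induction n with
  | zero => exact one_smul _ _
  | succ n ih =>
    show (gv n * gt n) • j = j
    rw [mul_smul, gt_smul, Equiv.swap_apply_of_ne_of_ne, ih (by omega)]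
    · intro hc
      rw [hc] at hj
      simp at hj
    · intro hc
      rw [hc] at hj
      simp at hj

theorem GAPM_gv_lt (n : ℕ) (j : ℕ) (hj : j < n) : gv n • ((j, some 1) : JJ) = (j, none) := by
  induction n with
  | zero => exact absurd hj (Nat.not_lt_zero j)
  | succ n ih =>
    show (gv n * gt n) • ((j, some 1) : JJ) = (j, none)
    rw [mul_smul, gt_smul]
    rcases Nat.lt_succ_iff_lt_or_eq.1 hj with h1 | h1
    · rw [Equiv.swap_apply_of_ne_of_ne, ih h1]
      · intro hc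
        have := congrArg Prod.fst hc
        simp at this
        omega
      · intro hc
        have := congrArg Prod.fst hc
        simp at this
        omega
    · subst h1
      rw [Equiv.swap_apply_right, GAPM_gv_ge j (j, none) le_rfl]

theorem gap_bm (h : BM τ s u e hat) (n : ℕ) (x : A) (ε : ℝ) (hε : 0 < ε) :
    ∃ z ∈ Cn (fun i => e (i, none)) n, n2 τ (x - z) ≤
      40 * (n2 τ (u gp * x - x * u gp) + n2 τ (u gq * x - x * u gq)) +
      n2 τ (u (gv n) * x - x * u (gv n)) + ε := by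
  classical
  rw [n2_comm_u h, n2_comm_u h, n2_comm_u h]
  set f := hat x with hf
  have hdp := norm_nonneg (permOp (cjI gp) f - f)
  have hdq := norm_nonneg (permOp (cjI gq) f - f)
  -- the part outside `IC`
  have h20 : ‖cut ICᶜ f‖ ≤ 20 * (‖permOp (cjI gp) f - f‖ + ‖permOp (cjI gq) f - f‖) := by
    obtain ⟨B, E, hBE, h1, h2, h3, h4⟩ := setsI
    refine gap_estimate B E (cjI gp⁻¹) (cjI gq⁻¹) hBE h1 h2 h3 _ ?_ _ ?_ ?_
    · intro i hi
      refine cut_apply_not_mem _ ?_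
      intro hc
      exact hi (h4 i hc)
    · exact (GAPM_cut gp GAPM_none_p f).trans (by linarith)
    · exact (GAPM_cut gq GAPM_none_q f).trans (by linarith)
  -- the part in `IC` with small indices
  set S : Set (Finset JJ × GG) := {i | i ∈ IC ∧ ∃ j ∈ i.1, j.1 < n} with hS
  set T : Set (Finset JJ × GG) := {i | i ∈ IC ∧ ∀ j ∈ i.1, n ≤ j.1} with hT
  have hSc : cjI (gv n) '' S ⊆ ICᶜ := by
    rintro _ ⟨i, ⟨hi, j, hj, hjn⟩, rfl⟩ hc
    have h1 : ((gv n)⁻¹ • j) ∈ (cjI (gv n) i).1 := Finset.smul_mem_smul_finset hj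
    have h2 := hc.2 _ h1
    have h3 : j = (j.1, none) := Prod.ext rfl (hi.2 j hj)
    have h4 : (gv n)⁻¹ • j = (j.1, some 1) := by
      rw [inv_smul_eq_iff, GAPM_gv_lt n j.1 hjn]
      exact h3
    rw [h4] at h2
    simp at h2
  have h21 : ‖cut S f‖ ≤ ‖permOp (cjI (gv n)) f - f‖ + ‖cut ICᶜ f‖ := by
    have h1 := norm_cut_image S (cjI (gv n)) f
    have h2 := norm_cut_le _ _ hSc f
    rw [abs_le] at h1
    linarith [h1.1]
  have h22 : f - cut T f = cut ICᶜ f + cut S f := by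
    ext i
    show f i - cut T f i = cut ICᶜ f i + cut S f i
    by_cases hi : i ∈ IC
    · rw [cut_apply_not_mem (S := ICᶜ) f (fun hc => hc hi)]
      by_cases hj : ∃ j ∈ i.1, j.1 < n
      · rw [cut_apply_mem (S := S) f ⟨hi, hj⟩, cut_apply_not_mem (S := T) f]
        · ring
        · rintro ⟨_, h1⟩
          obtain ⟨j, hj1, hj2⟩ := hj
          exact absurd (h1 j hj1) (by omega)
      · rw [cut_apply_not_mem (S := S) f (fun hc => hj hc.2), cut_apply_mem (S := T) f]
        · ring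
        · refine ⟨hi, fun j hj1 => ?_⟩
          by_contra h1
          exact hj ⟨j, hj1, by omega⟩
    · rw [cut_apply_mem (S := ICᶜ) f hi, cut_apply_not_mem (S := S) f (fun hc => hi hc.1),
        cut_apply_not_mem (S := T) f (fun hc => hi hc.1)]
      ring
  have h23 : ‖f - cut T f‖ ≤ 40 * (‖permOp (cjI gp) f - f‖ + ‖permOp (cjI gq) f - f‖) +
      ‖permOp (cjI (gv n)) f - f‖ := by
    rw [h22]
    have := norm_add_le (cut ICᶜ f) (cut S f)
    linarith
  -- truncation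
  have h24 := lp.hasSum_single (p := 2) (E := fun _ : Finset JJ × GG => ℂ) (by norm_num) (cut T f)
  obtain ⟨F, hF⟩ := (Metric.tendsto_atTop.1 h24 ε hε)
  have hF' := hF F le_rfl
  rw [dist_eq_norm] at hF'
  choose M hM hMmem using fun σ : Finset JJ => exists_mon h σ 1
  refine ⟨∑ i ∈ F, (cut T f i) • M i.1, ?_, ?_⟩
  · refine sum_mem fun i _ => ?_
    by_cases hi : i ∈ T
    · refine SMulMemClass.smul_mem _ ?_
      refine StarAlgebra.adjoin_mono ?_ (hMmem i.1)
      rintro _ ⟨j, hj, rfl⟩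
      refine ⟨j.1, hi.2 j hj, ?_⟩
      show e (j.1, none) = e j
      congr 1
      exact Prod.ext rfl (hi.1.2 j hj).symm
    · rw [cut_apply_not_mem f hi, zero_smul]
      exact zero_mem _
  · have h25 : hat (∑ i ∈ F, (cut T f i) • M i.1) =
        ∑ i ∈ F, lp.single (E := fun _ : Finset JJ × GG => ℂ) 2 i (cut T f i) := by
      rw [map_sum]
      refine Finset.sum_congr rfl fun i _ => ?_
      rw [map_smul]
      by_cases hi : i ∈ T
      · ext k
        have h1 := hM i.1 k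
        rw [map_one, mul_one] at h1
        show cut T f i * hat (M i.1) k = lp.single (E := fun _ : Finset JJ × GG => ℂ) 2 i (cut T f i) k
        rw [h1]
        by_cases hk : k = i
        · subst hk
          rw [if_pos ⟨rfl, hi.1.1⟩, mul_one, lp.single_apply_self]
        · rw [lp.single_apply_ne _ _ _ hk, if_neg, mul_zero]
          rintro ⟨h2, h3⟩
          exact hk (Prod.ext h2 (h3.trans hi.1.1.symm))
      · rw [cut_apply_not_mem f hi, zero_smul]
        simp
    rw [h.n2_eq, map_sub, h25, ← hf]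
    have h26 : f - ∑ i ∈ F, lp.single (E := fun _ : Finset JJ × GG => ℂ) 2 i (cut T f i) =
        (f - cut T f) - (∑ i ∈ F, lp.single (E := fun _ : Finset JJ × GG => ℂ) 2 i (cut T f i) -
          cut T f) := by abel
    rw [h26]
    refine (norm_sub_le _ _).trans ?_
    linarith

end Pool.Agent.H289R2.RS
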