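import Mathlib
import Pool.Agent.H289R2.RS.GAPM

set_option autoImplicit false
set_option linter.unusedSectionVars false

open scoped Pointwise ComplexOrder

namespace Pool.Agent.H289R2.RS

open Pool.Agent.Helper278 Pool.Agent.Helper278.CE

variable {A : Type} [Ring A] [StarRing A] [Algebra ℂ A] [StarModule ℂ A] {τ : A →ₗ[ℂ] ℂ} {s : ℝ}
  {u : GG →* A} {e : JJ → A} {hat : A →ₗ[ℂ] EllTwo (Finset JJ × GG)}

theorem RDM_un (h : BM τ s u e hat) (g : GG) : u g ∈ unitary A := by
  rw [Unitary.mem_iff, h.star_u, ← map_mul, ← map_mul, inv_mul_cancel, mul_inv_cancel, map_one]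
  exact ⟨rfl, rfl⟩

theorem RDM_fst (g : GG) : ∀ j : JJ, (g • j).1 = j.1 := by
  induction g using FreeGroup.induction_on with
  | C1 => intro j; rw [one_smul]
  | of x =>
    intro j
    rcases x with b | n
    · change (pm (FreeGroup.of (Sum.inl b)) j).1 = j.1
      rw [pm, FreeGroup.lift_apply_of]
      rfl
    · change (gt n • j).1 = j.1
      rw [gt_smul]
      by_cases h1 : j = (n, none)
      · rw [h1, Equiv.swap_apply_left]
      · by_cases h2 : j = (n, some 1)
        · rw [h2, Equiv.swap_apply_right]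
        · rw [Equiv.swap_apply_of_ne_of_ne h1 h2]
  | inv_of x ih =>
    intro j
    have := ih ((FreeGroup.of x)⁻¹ • j)
    change (FreeGroup.of x • (FreeGroup.of x)⁻¹ • j).1 = _ at this
    rw [smul_inv_smul] at this
    exact this.symm
  | mul x y ihx ihy =>
    intro j
    rw [mul_smul, ihx, ihy]

theorem RDM_gt (n i : ℕ) (h : i ≠ n) : gt n • ((i, none) : JJ) = (i, none) := by
  rw [gt_smul, Equiv.swap_apply_of_ne_of_ne]
  · simpa using h
  · simp

theorem RDM_gv (n : ℕ) : ∀ i, n ≤ i → gv n • ((i, none) : JJ) = (i, none) := by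
  induction n with
  | zero => intro i _; rw [gv, one_smul]
  | succ n ih =>
    intro i hi
    rw [gv, mul_smul, RDM_gt n i (by omega), ih i (by omega)]

/-- vectors supported on the sets avoiding `P` -/
def RDMS (P : JJ → Prop) (f : EllTwo (Finset JJ × GG)) : Prop :=
  ∀ σ k, (∃ j ∈ σ, P j) → f (σ, k) = 0

theorem RDMS_add {P : JJ → Prop} {f g : EllTwo (Finset JJ × GG)} (hf : RDMS P f) (hg : RDMS P g) :
    RDMS P (f + g) := by
  intro σ k hj
  rw [lp.coeFn_add, Pi.add_apply, hf σ k hj, hg σ k hj, add_zero]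

theorem RDMS_smul {P : JJ → Prop} {f : EllTwo (Finset JJ × GG)} (c : ℂ) (hf : RDMS P f) :
    RDMS P (c • f) := by
  intro σ k hj
  rw [lp.coeFn_smul, Pi.smul_apply, hf σ k hj, smul_zero]

/-- left multiplication by `x` preserves the vectors supported on the sets avoiding `P` -/
def RDML (hat : A →ₗ[ℂ] EllTwo (Finset JJ × GG)) (P : JJ → Prop) (x : A) : Prop :=
  ∀ y, RDMS P (hat y) → RDMS P (hat (x * y))

theorem RDML_adj {P : JJ → Prop} {X : Set A}
    (hX : ∀ x ∈ X, RDML hat P x ∧ RDML hat P (star x)) (x : A)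
    (hx : x ∈ StarAlgebra.adjoin ℂ X) : RDML hat P x ∧ RDML hat P (star x) := by
  have alg : ∀ r : ℂ, RDML hat P (algebraMap ℂ A r) := by
    intro r y hy
    rw [← Algebra.smul_def, map_smul]
    exact RDMS_smul r hy
  induction hx using StarAlgebra.adjoin_induction with
  | mem x hx => exact hX x hx
  | algebraMap r =>
    refine ⟨alg r, ?_⟩
    rw [← algebraMap_star_comm]
    exact alg _
  | add x y _ _ hx hy =>
    refine ⟨fun z hz => ?_, fun z hz => ?_⟩
    · rw [add_mul, map_add]; exact RDMS_add (hx.1 z hz) (hy.1 z hz)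
    · rw [star_add, add_mul, map_add]; exact RDMS_add (hx.2 z hz) (hy.2 z hz)
  | mul x y _ _ hx hy =>
    refine ⟨fun z hz => ?_, fun z hz => ?_⟩
    · rw [mul_assoc]; exact hx.1 _ (hy.1 z hz)
    · rw [star_mul, mul_assoc]; exact hy.2 _ (hx.2 z hz)
  | star x _ hx => exact ⟨hx.2, by rw [star_star]; exact hx.1⟩

theorem RDML_u (h : BM τ s u e hat) {P : JJ → Prop} (g : GG) (hP : ∀ j, P j → P (g⁻¹ • j)) :
    RDML hat P (u g) := by
  intro y hy σ k ⟨j, hj, hp⟩
  rw [h.hat_u]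
  exact hy _ _ ⟨g⁻¹ • j, Finset.smul_mem_smul_finset hj, hP j hp⟩

theorem RDML_e (h : BM τ s u e hat) {P : JJ → Prop} (i : JJ) (hi : ¬ P i) :
    RDML hat P (e i) := by
  intro y hy σ k ⟨j, hj, hp⟩
  have hne : j ≠ i := fun hh => hi (hh ▸ hp)
  rw [h.hat_e]
  split_ifs with hm
  · rw [hy σ k ⟨j, hj, hp⟩, hy (σ.erase i) k ⟨j, Finset.mem_erase.2 ⟨hne, hj⟩, hp⟩]
    simp
  · rw [hy σ k ⟨j, hj, hp⟩, hy (insert i σ) k ⟨j, Finset.mem_insert_of_mem hj, hp⟩]
    simp

theorem RDMS_one (h : BM τ s u e hat) (P : JJ → Prop) : RDMS P (hat 1) := by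
  intro σ k ⟨j, hj, _⟩
  apply h.hat_one'
  intro hh
  have : σ = ∅ := congrArg Prod.fst hh
  rw [this] at hj
  simp at hj

theorem RDM_tau (h : BM τ s u e hat) {P : JJ → Prop} (x : A) (hx : RDML hat P x) (i : JJ)
    (hi : P i) : τ (x * e i) = s * τ x := by
  have h1 : RDMS P (hat x) := by
    have := hx 1 (RDMS_one h P)
    rwa [mul_one] at this
  rw [h.tr.comm, h.tau_eq, h.tau_eq, h.hat_e, if_neg (by simp),
    h1 (insert i ∅) 1 ⟨i, by simp, hi⟩]
  simp

theorem RDM_gen (h : BM τ s u e hat) (n : ℕ) (x : A) (hx : x ∈ DA u e n) :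
    RDML hat (fun j => j.1 = n) x := by
  refine (RDML_adj ?_ x hx).1
  intro x hx
  have hu : ∀ g : GG, RDML hat (fun j => j.1 = n) (u g) := by
    intro g
    refine RDML_u h g ?_
    intro j hj
    rw [RDM_fst]
    exact hj
  rcases hx with ⟨b, rfl⟩ | ⟨i, hi, rfl⟩ | ⟨i, hi, y, rfl⟩
  · exact ⟨hu _, by rw [h.star_u]; exact hu _⟩
  · exact ⟨hu _, by rw [h.star_u]; exact hu _⟩
  · have : RDML hat (fun j => j.1 = n) (e (i, y)) := RDML_e h _ hi
    exact ⟨this, by rw [h.star_e]; exact this⟩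

theorem RDM_cn (h : BM τ s u e hat) (n : ℕ) (x : A) (hx : x ∈ Cn (fun i => e (i, none)) 0) :
    RDML hat (fun j => j = (n, some 1)) x := by
  refine (RDML_adj ?_ x hx).1
  rintro _ ⟨i, _, rfl⟩
  have : RDML hat (fun j => j = (n, some 1)) (e (i, none)) := RDML_e h _ (by simp)
  exact ⟨this, by simp only [h.star_e]; exact this⟩

theorem RDM_conj (h : BM τ s u e hat) (g : GG) (j : JJ) : u g * e j * star (u g) = e (g • j) := by
  rw [h.u_e, h.star_u, mul_assoc, ← map_mul, mul_inv_cancel, map_one, mul_one]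

theorem RDM_B_mono (m n : ℕ) (hmn : m ≤ n) : BB u e m ≤ BB u e n := by
  apply StarAlgebra.adjoin_mono
  rintro x (hx | ⟨i, hi, hx⟩ | ⟨i, hi, hx⟩)
  · exact Or.inl hx
  · exact Or.inr (Or.inl ⟨i, lt_of_lt_of_le hi hmn, hx⟩)
  · exact Or.inr (Or.inr ⟨i, lt_of_lt_of_le hi hmn, hx⟩)

theorem RDM_u_mem (h : BM τ s u e hat) (g : GG) : ∃ n, u g ∈ BB u e n := by
  induction g using FreeGroup.induction_on with
  | C1 => exact ⟨0, by rw [map_one]; exact one_mem _⟩
  | of x =>
    rcases x with b | n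
    · exact ⟨0, StarAlgebra.subset_adjoin ℂ _ (Or.inl ⟨b, rfl⟩)⟩
    · exact ⟨n + 1, StarAlgebra.subset_adjoin ℂ _ (Or.inr (Or.inl ⟨n, Nat.lt_succ_self n, rfl⟩))⟩
  | inv_of x ih =>
    obtain ⟨n, hn⟩ := ih
    refine ⟨n, ?_⟩
    rw [← h.star_u]
    exact star_mem hn
  | mul x y ihx ihy =>
    obtain ⟨n, hn⟩ := ihx
    obtain ⟨m, hm⟩ := ihy
    refine ⟨max n m, ?_⟩
    rw [map_mul]
    exact mul_mem (RDM_B_mono _ _ (le_max_left _ _) hn) (RDM_B_mono _ _ (le_max_right _ _) hm)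

theorem RDM_mon (h : BM τ s u e hat) (i : Finset JJ × GG) :
    ∃ n, ∃ m ∈ BB u e n, ∀ j, hat m j = if j = i then 1 else 0 := by
  obtain ⟨m, hm, hm'⟩ := exists_mon h i.1 i.2
  obtain ⟨n, hn⟩ := RDM_u_mem h i.2
  refine ⟨max n (i.1.sup (fun j => j.1) + 1), m * u i.2, mul_mem ?_ ?_, ?_⟩
  · have : StarAlgebra.adjoin ℂ (e '' (i.1 : Set JJ)) ≤
        BB u e (max n (i.1.sup (fun j => j.1) + 1)) := by
      apply StarAlgebra.adjoin_mono
      rintro _ ⟨j, hj, rfl⟩
      refine Or.inr (Or.inr ⟨j.1, ?_, j.2, rfl⟩)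
      have := Finset.le_sup (f := fun j : JJ => j.1) (Finset.mem_coe.1 hj)
      omega
    exact this hm'
  · exact RDM_B_mono _ _ (le_max_left _ _) hn
  · intro j
    rw [hm]
    simp only [Prod.ext_iff]

theorem RDM_sum (h : BM τ s u e hat) (F : Finset (Finset JJ × GG)) (c : Finset JJ × GG → ℂ) :
    ∃ n, ∃ b ∈ BB u e n, ∀ j, hat b j = if j ∈ F then c j else 0 := by
  classical
  induction F using Finset.induction_on with
  | empty => exact ⟨0, 0, zero_mem _, fun j => by rw [map_zero]; simp⟩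
  | insert i F hi ih =>
    obtain ⟨n, b, hb, hb'⟩ := ih
    obtain ⟨k, m, hm, hm'⟩ := RDM_mon h i
    refine ⟨max n k, b + c i • m, add_mem (RDM_B_mono _ _ (le_max_left _ _) hb)
      (SMulMemClass.smul_mem _ (RDM_B_mono _ _ (le_max_right _ _) hm)), fun j => ?_⟩
    rw [map_add, map_smul, lp.coeFn_add, lp.coeFn_smul, Pi.add_apply, Pi.smul_apply, hb', hm']
    by_cases hj : j = i
    · subst hj
      simp [hi]
    · simp [hj]

theorem RDM_dense (h : BM τ s u e hat) (x : A) (ε : ℝ) (hε : 0 < ε) :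
    ∃ n, ∃ b ∈ BB u e n, n2 τ (x - b) < ε := by
  classical
  have hs := lp.hasSum_single (p := 2) (by norm_num) (hat x)
  rw [HasSum] at hs
  have hs' := (Metric.tendsto_nhds.1 hs) ε hε
  obtain ⟨F, hF⟩ := hs'.exists
  obtain ⟨n, b, hb, hb'⟩ := RDM_sum h F (fun i => hat x i)
  refine ⟨n, b, hb, ?_⟩
  rw [h.n2_eq, map_sub]
  have : hat b = ∑ i ∈ F, lp.single 2 i (hat x i) := by
    ext j
    rw [hb', lp.coeFn_sum, Finset.sum_apply]
    simp only [lp.single_apply, Pi.single_apply]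
    rw [Finset.sum_ite_eq]
  rw [this, ← dist_eq_norm, dist_comm]
  exact hF

/-- TASK RDM: the ratio data of the model. -/
theorem rd_of_bm (h : BM τ s u e hat) :
    RD τ s (fun i => e (i, none)) (u gp) (u gq) (fun n => u (gv n)) (fun n => u (gt n)) (BB u e)
      (DA u e) where
  tr := h.tr
  s_pos := h.s_pos
  s_lt := h.s_lt
  p_un := RDM_un h _
  q_un := RDM_un h _
  v_un _ := RDM_un h _
  t_un _ := RDM_un h _
  e_star _ := h.star_e _
  e_idem _ := h.e_idem _
  e_comm _ _ := h.e_comm _ _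
  p_e i := by rw [h.u_e, gp_none]
  q_e i := by rw [h.u_e, gq_none]
  v_zero := by rw [gv, map_one]
  v_e n i hi := by rw [h.u_e, RDM_gv n i hi]
  t_e n i hi := by rw [h.u_e, RDM_gt n i hi]
  B_mono := RDM_B_mono
  B_e n i hi := StarAlgebra.subset_adjoin ℂ _ (Or.inr (Or.inr ⟨i, hi, none, rfl⟩))
  B_dense := RDM_dense h
  B_D n := by
    apply StarAlgebra.adjoin_mono
    rintro x (hx | ⟨i, hi, hx⟩ | ⟨i, hi, hx⟩)
    · exact Or.inl hx
    · exact Or.inr (Or.inl ⟨i, ne_of_lt hi, hx⟩)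
    · exact Or.inr (Or.inr ⟨i, ne_of_lt hi, hx⟩)
  D_e n i hi := StarAlgebra.subset_adjoin ℂ _ (Or.inr (Or.inr ⟨i, hi, none, rfl⟩))
  D_comm n x hx := by
    have h1 : DA u e n ≤ StarSubalgebra.centralizer ℂ {e (n, none)} := by
      apply StarAlgebra.adjoin_le
      rintro x (⟨b, rfl⟩ | ⟨i, hi, rfl⟩ | ⟨i, hi, y, rfl⟩)
      · rw [SetLike.mem_coe, StarSubalgebra.mem_centralizer_iff]
        rintro _ rfl
        have : u (FreeGroup.of (Sum.inl b)) * e (n, none) =
            e (n, none) * u (FreeGroup.of (Sum.inl b)) := by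
          cases b
          · have := h.u_e gq (n, none)
            rwa [gq_none] at this
          · have := h.u_e gp (n, none)
            rwa [gp_none] at this
        rw [h.star_e]
        exact ⟨this.symm, this.symm⟩
      · rw [SetLike.mem_coe, StarSubalgebra.mem_centralizer_iff]
        rintro _ rfl
        have := h.u_e (gt i) (n, none)
        rw [RDM_gt i n (Ne.symm hi)] at this
        rw [h.star_e]
        exact ⟨this.symm, this.symm⟩
      · rw [SetLike.mem_coe, StarSubalgebra.mem_centralizer_iff]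
        rintro _ rfl
        rw [h.star_e]
        exact ⟨h.e_comm _ _, h.e_comm _ _⟩
    have := h1 hx
    rw [StarSubalgebra.mem_centralizer_iff] at this
    exact ((this _ rfl).1).symm
  D_indep n x hx := RDM_tau h x (RDM_gen h n x hx) (n, none) rfl
  shift₁ n x hx := by
    rw [RDM_conj h, gt_smul, Equiv.swap_apply_left]
    exact RDM_tau h x (RDM_cn h n x hx) (n, some 1) rfl
  shift₂ n x hx := by
    have h1 : star (u (gt n)) * e (n, none) * u (gt n) = e (n, some 1) := by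
      have h2 := RDM_conj h (gt n)⁻¹ (n, none)
      rw [h.star_u, inv_inv] at h2
      rw [h.star_u, h2]
      congr 1
      rw [inv_smul_eq_iff, gt_smul, Equiv.swap_apply_right]
    rw [h1]
    exact RDM_tau h x (RDM_cn h n x hx) (n, some 1) rfl
  gap := gap_bm h

end Pool.Agent.H289R2.RS
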